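import Pool.Agent.W619.TW.Glob
import Pool.Agent.W619.PL.LAbs

/-! Evaluation of forms on the coordinate frame; the log canonical divisor of a factor. -/

set_option autoImplicit false
set_option linter.overlappingInstances false
set_option linter.unusedSectionVars false

open Polynomial FF IntermediateField IsDedekindDomain

namespace Pool.Agent.W619.TW

open Pool.Agent.W603.LV Pool.Agent.W619.PQ

section

variable {k K L : Type*} [Field k] [CharZero k] [IsAlgClosed k] [Field K] [Field L] [Algebra k K]
  [Algebra k L] [Algebra K L] [IsScalarTower k K L] {n : ℕ}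
  {F : Fin n → IntermediateField k L} [∀ i, IsFF k (F i)]
  {E0 : Fin n → Type*} [∀ i, Field (E0 i)] [∀ i, Algebra k (E0 i)] [∀ i, Algebra (E0 i) (F i)]
  [∀ i, Algebra (E0 i) K] [∀ i, Algebra (E0 i) L] [∀ i, IsScalarTower k (E0 i) (F i)]
  [∀ i, IsScalarTower k (E0 i) L] [∀ i, IsScalarTower k (E0 i) K]
  [∀ i, IsScalarTower (E0 i) (F i) L] [∀ i, IsScalarTower (E0 i) K L] [∀ i, IsFF k (E0 i)]

theorem sum_der_apply (c : Fin n → K) (dK : Fin n → Derivation k K K) (f : K) :
    (∑ j, c j • dK j : Derivation k K K) f = ∑ j, c j * dK j f := by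
  rw [← Derivation.coeFnAddMonoidHom_apply, map_sum, Finset.sum_apply]
  simp [Derivation.coeFnAddMonoidHom_apply]

/-- The value of a form is determined by its value on the coordinate frame. -/
theorem pluri_eval {x : ∀ i, E0 i} {dK : Fin n → Derivation k K K}
    {dL : Fin n → Derivation k L L} {dF : ∀ i, Derivation k (F i) (F i)}
    (hfr : Fr F x dK dL dF) {m : ℕ} {ω : (Fin n → Derivation k K K) → K}
    (hω : IsPluriForm k K n m ω) (D : Fin n → Derivation k K K) :
    ω D = (Matrix.det (Matrix.of fun l j => D l (algebraMap (E0 j) K (x j)))) ^ m * ω dK := by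
  rw [← hω]
  congr 1
  funext l
  refine Derivation.ext fun f => ?_
  have h1 := der_zero (K := K) (L := K)
    (D l - ∑ j, (D l (algebraMap (E0 j) K (x j))) • dK j) _ hfr.basisK (fun j => by
      rw [Derivation.sub_apply, sum_der_apply]
      simp only [hfr.dKx]
      simp) f
  rw [Derivation.sub_apply, sub_eq_zero] at h1
  exact h1

variable [∀ i, FiniteDimensional (E0 i) (F i)]

/-- The log canonical divisor of the `i`-th curve, with respect to the coordinate vector field. -/
theorem exists_C {B : ∀ i, Place k (E0 i) → Prop} (i : Fin n)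
    {d : Derivation k (F i) (F i)} (hd : d ≠ 0)
    (hfin : {q : Place k (F i) | ∃ (p : Place k (E0 i)) (r : ℕ), Over q p r ∧ B i p}.Finite) :
    ∃ C : Place k (F i) →₀ ℤ, (∀ (q : Place k (F i)) (p : Place k (E0 i)) (r : ℕ), Over q p r →
      (¬ B i p → C q = - vo q d) ∧ (B i p → C q = - (vo q d - 1))) ∧
      ddeg C = canDeg k (F i) +
        Set.ncard {q : Place k (F i) | ∃ (p : Place k (E0 i)) (r : ℕ), Over q p r ∧ B i p} := by
  classical
  set UB : Set (Place k (F i)) :=
    {q : Place k (F i) | ∃ (p : Place k (E0 i)) (r : ℕ), Over q p r ∧ B i p} with hUB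
  set T : Finset (Place k (F i)) := (vo_finite hd).toFinset ∪ hfin.toFinset with hT
  have hsupp : ∀ q, (- vo q d + if q ∈ UB then 1 else 0) ≠ 0 → q ∈ T := by
    intro q hq
    by_contra hqT
    rw [hT, Finset.mem_union] at hqT
    push Not at hqT
    have h1 : vo q d = 0 := by
      by_contra h
      exact hqT.1 ((vo_finite hd).mem_toFinset.2 h)
    have h2 : q ∉ UB := fun h => hqT.2 (hfin.mem_toFinset.2 h)
    apply hq
    rw [h1, if_neg h2]; rfl
  let C : Place k (F i) →₀ ℤ := Finsupp.ofSupportFinite
    (fun q => - vo q d + if q ∈ UB then 1 else 0)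
    (T.finite_toSet.subset fun q hq => hsupp q hq)
  have hCq : ∀ q, C q = - vo q d + if q ∈ UB then 1 else 0 := fun q => rfl
  refine ⟨C, ?_, ?_⟩
  · intro q p r hqp
    constructor
    · intro hB
      rw [hCq, if_neg, add_zero]
      rintro ⟨p', r', h', hB'⟩
      exact hB ((over_unique' hqp h').1 ▸ hB')
    · intro hB
      rw [hCq, if_pos ⟨p, r, hqp, hB⟩]
      ring
  · unfold ddeg
    rw [Finsupp.sum_of_support_subset (s := T) _ (fun q hq => hsupp q (by
      rw [← hCq]; exact Finsupp.mem_support_iff.1 hq)) _ (by intros; simp)]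
    have h1 : ∀ q ∈ T, C q * (q.deg : ℤ) = - vo q d + if q ∈ UB then 1 else 0 := by
      intro q _
      rw [deg_one, hCq]; simp
    rw [Finset.sum_congr rfl h1, Finset.sum_add_distrib, Finset.sum_neg_distrib,
      canDeg_finset hd T fun q hq => Finset.mem_union_left _ ((vo_finite hd).mem_toFinset.2 hq),
      neg_neg]
    congr 1
    rw [Finset.sum_boole, Set.ncard_eq_toFinset_card _ hfin]
    congr 1
    congr 1
    ext q
    simp only [Finset.mem_filter, Set.Finite.mem_toFinset, hT, Finset.mem_union]
    constructor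
    · exact fun h => h.2
    · exact fun h => ⟨Or.inr h, h⟩

end

end Pool.Agent.W619.TW
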