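import Pool.Agent.W619.TW.NV

/-! The upper bound for the numerical dimension. -/

set_option autoImplicit false
set_option linter.overlappingInstances false
set_option linter.unusedSectionVars false

open Polynomial FF IntermediateField IsDedekindDomain

namespace Pool.Agent.W619.TW

open Pool.Agent.W603.LV Pool.Agent.W619.PQ Pool.Agent.W619.PL

section

variable {k F : Type*} [Field k] [Field F] [Algebra k F] [CharZero k] [IsAlgClosed k] [IsFF k F]

/-- The elementary bound of the dimension of `L(D)`. -/
theorem finrank_LL_le (D : Place k F →₀ ℤ) :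
    Module.finrank k (LL D) ≤ (ddeg D + 1).toNat := by
  obtain ⟨P, -⟩ := exists_place (k := k) (K := F)
  by_cases h : ddeg D < 0
  · rw [LL_eq_bot h, finrank_bot]; exact Nat.zero_le _
  · have h1 : ddeg (D - Finsupp.single P (ddeg D + 1)) < 0 := by
      rw [ddeg_sub, ddeg_single, deg_one]; push_cast; omega
    have h2 : D - Finsupp.single P (ddeg D + 1) ≤ D := by
      rw [sub_le_self_iff]
      intro Q
      by_cases hQ : Q = P
      · subst hQ; simp; omega
      · rw [Finsupp.single_eq_of_ne hQ]; rfl
    have h3 := ell_le h2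
    have h4 : ell (D - Finsupp.single P (ddeg D + 1)) = 0 := by
      unfold ell; rw [LL_eq_bot h1, finrank_bot]; rfl
    rw [h4, ddeg_sub, ddeg_single, deg_one] at h3
    unfold ell at h3
    push_cast at h3
    omega

end

section

variable {k L : Type*} [Field k] [CharZero k] [IsAlgClosed k] [Field L] [Algebra k L] {n : ℕ}
  {F : Fin n → IntermediateField k L} [∀ i, IsFF k (F i)]

theorem VL_span (i : Fin n) (D : Place k (F i) →₀ ℤ) :
    ∃ t : Finset L, t.card ≤ (ddeg D + 1).toNat ∧ VL i D = Submodule.span k (t : Set L) := by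
  classical
  let b := Module.finBasis k (LL D)
  refine ⟨Finset.univ.image fun l => ((b l : F i) : L), ?_, ?_⟩
  · refine Finset.card_image_le.trans ?_
    rw [Finset.card_univ, Fintype.card_fin]
    exact finrank_LL_le D
  · have h1 : Submodule.span k (Set.range fun l => (b l : F i)) = LL D := by
      have h2 := congrArg (Submodule.map (LL D).subtype) b.span_eq
      rw [Submodule.map_span, Submodule.map_subtype_top, ← Set.range_comp] at h2
      exact h2
    unfold VL
    conv_lhs => rw [← h1]
    rw [Submodule.map_span, ← Set.range_comp, Finset.coe_image, Finset.coe_univ, Set.image_univ]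
    rfl

end

section

variable {k K L : Type*} [Field k] [CharZero k] [IsAlgClosed k] [Field K] [Field L] [Algebra k K]
  [Algebra k L] [Algebra K L] [IsScalarTower k K L] [FiniteDimensional K L] {n : ℕ}
  {F : Fin n → IntermediateField k L} [∀ i, IsFF k (F i)]
  {E0 : Fin n → Type*} [∀ i, Field (E0 i)] [∀ i, Algebra k (E0 i)] [∀ i, Algebra (E0 i) (F i)]
  [∀ i, Algebra (E0 i) K] [∀ i, Algebra (E0 i) L] [∀ i, IsScalarTower k (E0 i) (F i)]
  [∀ i, IsScalarTower k (E0 i) L] [∀ i, IsScalarTower k (E0 i) K]
  [∀ i, IsScalarTower (E0 i) (F i) L] [∀ i, IsScalarTower (E0 i) K L] [∀ i, IsFF k (E0 i)]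
  [∀ i, FiniteDimensional (E0 i) (F i)]

/-- The places of the `i`-th curve over the boundary. -/
def UB (F : Fin n → IntermediateField k L) {E0 : Fin n → Type*} [∀ i, Field (E0 i)]
    [∀ i, Algebra k (E0 i)] [∀ i, Algebra (E0 i) (F i)]
    (B : ∀ i, Place k (E0 i) → Prop) (i : Fin n) : Set (Place k (F i)) :=
  {q | ∃ (p : Place k (E0 i)) (r : ℕ), Over q p r ∧ B i p}

/-- The log canonical degree of the `i`-th curve. -/
noncomputable def ld (F : Fin n → IntermediateField k L) {E0 : Fin n → Type*} [∀ i, Field (E0 i)]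
    [∀ i, Algebra k (E0 i)] [∀ i, Algebra (E0 i) (F i)]
    (B : ∀ i, Place k (E0 i) → Prop) (i : Fin n) : ℤ := canDeg k (F i) + (UB F B i).ncard

/-- The bound for the number of linearly independent sections. -/
theorem card_le (hsup : ⨆ i, F i = ⊤) (hn : Algebra.trdeg k L = n)
    {B : ∀ i, Place k (E0 i) → Prop} {Bd : Place k K → Prop}
    (hBd : ∀ v, Bd v ↔ ∃ (i : Fin n) (p : Place k (E0 i)) (a : ℕ), Over v p a ∧ B i p)
    (hfin : ∀ i, (UB F B i).Finite) (S : Finset K) :
    ∃ A : Fin n → ℤ, ∀ (m j N : ℕ) (ω : Fin N → (Fin n → Derivation k K K) → K),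
      LinearIndependent k ω → (∀ l, IsSec k K n Bd S m j (ω l)) →
      N ≤ ∏ i, (m * ld F B i + j * A i + 1).toNat := by
  classical
  choose x hx using fun i => IsFF.exists_transcendental (k := k) (K := E0 i)
  obtain ⟨dK, dL, dF, hfr⟩ := exists_fr (K := K) (F := F) hsup hn x hx
  obtain ⟨b, -, hb0, hbS⟩ := exists_den hsup S
  choose C hC hCdeg using fun i => exists_C (E0 := E0) (B := B) i (hfr.ne i) (hfin i)
  choose A hA using fun i => section_mem hfr hsup hn hBd i (C i) (hC i) S hb0 hbS
  refine ⟨fun i => ddeg (A i), fun m j N ω hω hsec => ?_⟩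
  -- the spanning set
  choose t ht ht2 using fun i => VL_span i (m • C i + j • A i)
  obtain ⟨u, hu, hu2⟩ := exists_span_prod Finset.univ (fun i => VL i (m • C i + j • A i))
    (fun i => (ddeg (m • C i + j • A i) + 1).toNat) (fun i _ => ⟨t i, ht i, ht2 i⟩)
  have hmem : ∀ l, b ^ j * algebraMap K L (ω l dK) ∈ Submodule.span k (u : Set L) := by
    intro l
    rw [← hu2]
    exact inter_all hsup hn _ (fun i => VL_le i _) _ fun i => hA i m j (ω l) (hsec l)
  -- linear independence of the coefficients
  have hli : LinearIndependent k fun l => b ^ j * algebraMap K L (ω l dK) := by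
    rw [linearIndependent_iff'] at hω ⊢
    intro s g hg l hl
    refine hω s g ?_ l hl
    have h1 : ∑ l ∈ s, g l • ω l dK = 0 := by
      have h2 : b ^ j * algebraMap K L (∑ l ∈ s, g l • ω l dK) = 0 := by
        rw [← hg, map_sum, Finset.mul_sum]
        refine Finset.sum_congr rfl fun l _ => ?_
        rw [Algebra.smul_def, Algebra.smul_def, map_mul, ← IsScalarTower.algebraMap_apply]
        ring
      exact (map_eq_zero (algebraMap K L)).1
        ((mul_eq_zero.1 h2).resolve_left (pow_ne_zero _ hb0))
    funext D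
    rw [Finset.sum_apply]
    simp only [Pi.smul_apply, Pi.zero_apply]
    have h2 : ∀ l, ω l D = (Matrix.det (Matrix.of fun l j =>
        D l (algebraMap (E0 j) K (x j)))) ^ m * ω l dK := fun l => pluri_eval hfr (hsec l).1 D
    calc ∑ l ∈ s, g l • ω l D = (Matrix.det (Matrix.of fun l j =>
        D l (algebraMap (E0 j) K (x j)))) ^ m * ∑ l ∈ s, g l • ω l dK := by
          rw [Finset.mul_sum]
          refine Finset.sum_congr rfl fun l _ => ?_
          rw [h2, mul_smul_comm]
      _ = 0 := by rw [h1, mul_zero]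
  have h1 : N ≤ u.card := by
    let v : Fin N → Submodule.span k (u : Set L) := fun l => ⟨_, hmem l⟩
    have hv : LinearIndependent k v := LinearIndependent.of_comp (Submodule.subtype _) hli
    have h2 := hv.fintype_card_le_finrank
    rw [Fintype.card_fin] at h2
    exact h2.trans (finrank_span_finset_le_card u)
  refine h1.trans (hu.trans (le_of_eq ?_))
  refine Finset.prod_congr rfl fun i _ => ?_
  rw [ddeg_add, ddeg_nsmul, ddeg_nsmul, hCdeg]
  rfl

end

end Pool.Agent.W619.TW
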