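import Pool.Agent.W619.PL.LMain

/-! Rotation numbers of the generators of the inertia groups. -/

set_option autoImplicit false
set_option linter.overlappingInstances false
set_option linter.unusedSectionVars false

open Polynomial FF IntermediateField

namespace Pool.Agent.W619.TW

open Pool.Agent.W603.LV Pool.Agent.W619.PQ Pool.Agent.W619.PL

section

variable {k L : Type*} [Field k] [CharZero k] [IsAlgClosed k] [Field L] [Algebra k L]
  {G : Subgroup (L ≃ₐ[k] L)}

/-- The inertia group is cyclic, and its generator acts as a rotation. -/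
theorem exists_rot_generator [Finite G] (w : Place k L) (I : Subgroup G)
    (hI : ∀ g ∈ I, Inert w (g : L ≃ₐ[k] L)) :
    ∃ g ∈ I, orderOf (g : L ≃ₐ[k] L) = Nat.card I ∧
      ∃ ζ : k, IsPrimitiveRoot ζ (Nat.card I) ∧ ∀ z : L, z ≠ 0 →
        Ge w (w.ord z + 1) ((g : L ≃ₐ[k] L) z - algebraMap k L (ζ ^ w.ord z) * z) := by
  classical
  obtain ⟨π, hπ0, hπ⟩ := w.surj
  let πu : Lˣ := Units.mk0 π hπ0
  let χ : I →* w.RF :=
    { toFun := fun g => phi w (g : L ≃ₐ[k] L) (hI g g.2) πu
      map_one' := by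
        change w.red ((1 : L ≃ₐ[k] L) π / π) = 1
        rw [AlgEquiv.one_apply, div_self hπ0, w.red_one]
      map_mul' := by
        intro a b
        have ha := hI a a.2
        have hb := hI b b.2
        change w.red (((a : L ≃ₐ[k] L) * (b : L ≃ₐ[k] L)) π / π) =
          w.red ((a : L ≃ₐ[k] L) π / π) * w.red ((b : L ≃ₐ[k] L) π / π)
        have h1 : w.Reg ((a : L ≃ₐ[k] L) π / π) := Or.inr (by
          rw [w.ord_div (by simpa using hπ0) hπ0, ha.ord_eq]; simp)
        have h2 : w.Reg ((b : L ≃ₐ[k] L) π / π) := Or.inr (by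
          rw [w.ord_div (by simpa using hπ0) hπ0, hb.ord_eq]; simp)
        have h3 : w.Reg ((a : L ≃ₐ[k] L) ((b : L ≃ₐ[k] L) π / π)) := ha.ge (N := 0) h2
        have h4 : w.red ((a : L ≃ₐ[k] L) ((b : L ≃ₐ[k] L) π / π)) =
            w.red ((b : L ≃ₐ[k] L) π / π) := by
          rw [← sub_eq_zero, ← w.red_sub h3 h2, w.red_eq_zero_iff]
          · rcases ha _ h2 with h | h
            · exact Or.inl h
            · exact Or.inr h
          · exact Ge.sub (P := w) (N := 0) h3 h2
        rw [← h4, mul_comm, ← w.red_mul h3 h1]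
        congr 1
        rw [map_div₀]
        have : (a : L ≃ₐ[k] L) π ≠ 0 := by simpa using hπ0
        change (a : L ≃ₐ[k] L) ((b : L ≃ₐ[k] L) π) / π = _
        field_simp }
  have hinj : Function.Injective χ := by
    rw [injective_iff_map_eq_one]
    intro g hg
    have h1 : ∀ z : Lˣ, phi w (g : L ≃ₐ[k] L) (hI g g.2) z = 1 := by
      intro z
      have h2 := phi_units_eq w (g : L ≃ₐ[k] L) (hI g g.2) πu hπ z
      have h3 : (phi w (g : L ≃ₐ[k] L) (hI g g.2)).toHomUnits πu = 1 := Units.ext hg
      rw [h3, one_zpow] at h2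
      exact congrArg Units.val h2
    have hfo : IsOfFinOrder (g : L ≃ₐ[k] L) := by
      have h2 : IsOfFinOrder (g : G) := isOfFinOrder_of_finite (g : G)
      exact G.subtype.isOfFinOrder h2
    have h2 := inert_eq_one w (g : L ≃ₐ[k] L) (hI g g.2) hfo h1
    apply Subtype.ext
    apply Subtype.ext
    exact h2
  have hcyc : IsCyclic I := isCyclic_of_injective_ringHom χ hinj
  obtain ⟨g, hg⟩ := hcyc.exists_ofOrder_eq_natCard
  have hord : orderOf (g : L ≃ₐ[k] L) = Nat.card I := by
    rw [← hg, Subgroup.orderOf_coe, Subgroup.orderOf_coe]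
  refine ⟨g, g.2, hord, ?_⟩
  -- the root of unity
  set θ : w.RF := χ g with hθ
  have hθord : orderOf θ = Nat.card I := by rw [hθ, orderOf_injective χ hinj, hg]
  have hcard : 0 < Nat.card I := Nat.card_pos
  have hθpow : θ ^ Nat.card I = 1 := by rw [← hθord]; exact pow_orderOf_eq_one θ
  have hint : IsIntegral k θ := by
    refine ⟨X ^ Nat.card I - 1, monic_X_pow_sub_C (1 : k) hcard.ne', ?_⟩
    rw [eval₂_sub, eval₂_X_pow, eval₂_one, hθpow, sub_self]
  obtain ⟨ζ, hζ⟩ : θ ∈ (algebraMap k w.RF).range :=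
    minpoly.mem_range_of_degree_eq_one k θ
      (IsAlgClosed.degree_eq_one_of_irreducible k (minpoly.irreducible hint))
  have hinjk : Function.Injective (algebraMap k w.RF) := (algebraMap k w.RF).injective
  refine ⟨ζ, ?_, ?_⟩
  · have h1 : orderOf ζ = Nat.card I := by
      rw [← hθord, ← hζ]
      exact (orderOf_injective ((algebraMap k w.RF : k →+* w.RF) : k →* w.RF) hinjk ζ).symm
    rw [← h1]
    exact IsPrimitiveRoot.orderOf ζ
  · intro z hz0
    have hgi := hI g g.2
    have h1 := congrArg Units.val (phi_units_eq w (g : L ≃ₐ[k] L) hgi πu hπ (Units.mk0 z hz0))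
    rw [Units.val_mk0, Units.val_zpow_eq_zpow_val, MonoidHom.coe_toHomUnits,
      MonoidHom.coe_toHomUnits] at h1
    have h2 : w.red ((g : L ≃ₐ[k] L) z / z) = w.red (algebraMap k L (ζ ^ w.ord z)) := by
      change w.red ((g : L ≃ₐ[k] L) z / z) = θ ^ w.ord z at h1
      rw [h1, ← hζ, ← map_zpow₀, w.algebraMap_RF]
    have hr : w.Reg ((g : L ≃ₐ[k] L) z / z) := Or.inr (by
      rw [w.ord_div (by simpa using hz0) hz0, hgi.ord_eq]; simp)
    have hr2 : w.Reg (algebraMap k L (ζ ^ w.ord z)) := w.reg_const _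
    have hr3 : w.Reg ((g : L ≃ₐ[k] L) z / z - algebraMap k L (ζ ^ w.ord z)) :=
      Ge.sub (P := w) (N := 0) hr hr2
    have h3 : Ge w 1 ((g : L ≃ₐ[k] L) z / z - algebraMap k L (ζ ^ w.ord z)) := by
      have h4 : w.red ((g : L ≃ₐ[k] L) z / z - algebraMap k L (ζ ^ w.ord z)) = 0 := by
        rw [w.red_sub hr hr2, h2, sub_self]
      rcases (w.red_eq_zero_iff hr3).1 h4 with h | h
      · exact Or.inl h
      · exact Or.inr h
    have h4 : Ge w (w.ord z) z := Or.inr le_rfl
    have h5 := h4.mul h3
    convert h5 using 1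
    field_simp

/-- An automorphism which acts trivially on the graded pieces at a place is trivial. -/
theorem eq_one_of_unipotent (w : Place k L) (g : L ≃ₐ[k] L) (hfin : IsOfFinOrder g)
    (h : ∀ z : L, z ≠ 0 → Ge w (w.ord z + 1) (g z - z)) : g = 1 := by
  have hin : Inert w g := by
    intro z hz
    by_cases h0 : z = 0
    · left; rw [h0, map_zero, sub_zero]
    · exact (h z h0).mono (by have := hz.resolve_left h0; omega)
  exact inert_eq_one w g hin hfin fun z => (phi_eq_one_iff w g hin z).2 (h z z.ne_zero)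

end

section

variable {k L : Type*} [Field k] [CharZero k] [IsAlgClosed k] [Field L] [Algebra k L]
  {G : Subgroup (L ≃ₐ[k] L)} [Finite G] {n : ℕ} {E0 E : Fin n → Type*}
  [∀ i, Field (E0 i)] [∀ i, Field (E i)] [∀ i, Algebra k (E0 i)] [∀ i, Algebra k (E i)]
  [∀ i, Algebra (E0 i) (E i)] [∀ i, Algebra (E i) L] [∀ i, Algebra (E0 i) (fixedField G)]
  [∀ i, Algebra (E0 i) L]
  [∀ i, IsScalarTower k (E0 i) (E i)] [∀ i, IsScalarTower k (E i) L]
  [∀ i, IsScalarTower k (E0 i) L]
  [∀ i, IsScalarTower k (E0 i) (fixedField G)]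
  [∀ i, IsScalarTower (E0 i) (E i) L] [∀ i, IsScalarTower (E0 i) (fixedField G) L]
  [∀ i, IsFF k (E0 i)] [∀ i, IsFF k (E i)] [∀ i, FiniteDimensional (E0 i) (E i)]

open scoped Classical in
/-- The exterior product of good forms is regular off the boundary: version with rotation
numbers. -/
theorem regular_of_good_rot (ρ : ∀ i, G →* (E i ≃ₐ[k] E i))
    (hcomp : ∀ i (g : G) z, algebraMap (E i) L (ρ i g z) = (g : L ≃ₐ[k] L) (algebraMap (E i) L z))
    (B0 : ∀ i, Place k (E0 i) → Prop) (N : Fin n → ℕ)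
    (hrot : ∀ g : G, g ≠ 1 → ∀ ζ : k, IsPrimitiveRoot ζ (orderOf (g : L ≃ₐ[k] L)) →
      ∀ a : Fin n → ℕ, (∀ i, (a i = 0 ∧ ρ i g = 1) ∨ (0 < a i ∧ a i < orderOf (g : L ≃ₐ[k] L) ∧
        ∃ q : Place k (E i), (∀ p r, Over q p r → ¬ B0 i p) ∧ ∀ z : E i, q.ord z = 1 →
          Ge q 2 (ρ i g z - algebraMap k (E i) (ζ ^ a i) * z))) →
      (1 : ℚ) ≤ ∑ i, if a i = 0 then 0 else
        max ((a i : ℚ) / orderOf (g : L ≃ₐ[k] L)) (1 / (N i : ℚ)))
    {M : ℕ} {D0 : ∀ i, Derivation k (E0 i) (E0 i)} {c : ∀ i, E0 i} (hD0 : ∀ i, D0 i ≠ 0)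
    (hc : ∀ i, c i ≠ 0) (hgood : ∀ i, Good (E i) (B0 i) (N i) M (D0 i) (c i)) (x : ∀ i, E0 i)
    (hx : ∀ i, Transcendental k (x i)) (v : Place k (fixedField G))
    (hv : ¬ Bdry B0 v)
    (D : Fin n → Derivation k (fixedField G) (fixedField G)) (hD : ∀ j, Pres v (D j)) :
    v.Reg (extForm M D0 x c D) := by
  obtain ⟨w, e, I, hwv, hIe, hI⟩ := exists_inertia G v
  -- the local data at each factor
  have hex : ∀ i, ∃ s : ℚ, 0 ≤ s ∧
      (((∀ f : E0 i, v.ord (algebraMap (E0 i) (fixedField G) f) = 0) ∧ s = 0) ∨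
        ∃ (p : Place k (E0 i)) (α ν r b : ℕ) (q : Place k (E i)), Over v p α ∧ Over w q b ∧
          Over q p r ∧ e * α = b * r ∧ 1 ≤ ν ∧ ν ≤ N i ∧ ν ≤ r ∧ s = α / ν ∧
          (M : ℤ) ≤ ν * (p.ord (c i) + M * (1 - vo p (D0 i))) ∧ ¬ B0 i p) := by
    intro i
    by_cases htriv : ∀ f : E0 i, v.ord (algebraMap (E0 i) (fixedField G) f) = 0
    · exact ⟨0, le_rfl, Or.inl ⟨htriv, rfl⟩⟩
    · push Not at htriv
      obtain ⟨α, p, hp⟩ := exists_over (K := E0 i) v htriv
      obtain ⟨q, b, r, h1, h2, h3⟩ := exists_factor_place (E := E i) hwv hp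
      have hnB : ¬ B0 i p := fun h => hv ⟨i, p, α, hp, h⟩
      obtain ⟨ν, h4, h5, h6, h7⟩ := (hgood i p).2 hnB
      exact ⟨α / ν, by positivity, Or.inr ⟨p, α, ν, r, b, q, hp, h1, h2, h3, h4, h5, h6 q r h2,
        rfl, h7, hnB⟩⟩
  choose s hs0 hs using hex
  refine extForm_regular M D0 hD0 x c hx hc v s ?_ ?_ D hD
  · intro i
    rcases hs i with h | ⟨p, α, ν, r, b, q, h1, h2, h3, h4, h5, h6, h7, h8, h9, -⟩
    · exact Or.inl h
    · refine Or.inr ⟨p, α, h1, ?_⟩
      rw [h8]
      have hν : (0 : ℚ) < ν := by exact_mod_cast h5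
      have h10 : (M : ℚ) ≤ ν * (p.ord (c i) + M * (1 - vo p (D0 i))) := by exact_mod_cast h9
      rw [div_mul_eq_mul_div, div_le_iff₀ hν]
      have h11 : (0 : ℚ) ≤ α := by positivity
      calc (α : ℚ) * M ≤ α * (ν * (p.ord (c i) + M * (1 - vo p (D0 i)))) :=
            mul_le_mul_of_nonneg_left h10 h11
        _ = _ := by ring
  · by_cases hall : ∀ i, ∀ f : E0 i, v.ord (algebraMap (E0 i) (fixedField G) f) = 0
    · exact Or.inl hall
    right
    have hepos : 0 < e := hwv.1
    rcases Nat.lt_or_ge 1 e with he | he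
    · -- ramified
      obtain ⟨g, hgI, hgord, ζ, hζ, hgen⟩ := exists_rot_generator w I hI
      rw [hIe] at hgord hζ
      have hg1 : g ≠ 1 := by
        rintro rfl
        rw [Subgroup.coe_one, orderOf_one] at hgord
        omega
      have hfo : ∀ i, IsOfFinOrder (ρ i g) := fun i =>
        (ρ i).isOfFinOrder (isOfFinOrder_of_finite g)
      have key : ∀ i, ∃ a : ℕ, ((a = 0 ∧ ρ i g = 1) ∨
          (0 < a ∧ a < orderOf (g : L ≃ₐ[k] L) ∧
            ∃ q : Place k (E i), (∀ p r, Over q p r → ¬ B0 i p) ∧ ∀ z : E i, q.ord z = 1 →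
              Ge q 2 (ρ i g z - algebraMap k (E i) (ζ ^ a) * z))) ∧
          (if a = 0 then 0 else max ((a : ℚ) / orderOf (g : L ≃ₐ[k] L)) (1 / (N i : ℚ))) ≤ s i := by
        intro i
        by_cases hmoved : ρ i g = 1
        · exact ⟨0, Or.inl ⟨rfl, hmoved⟩, by rw [if_pos rfl]; exact hs0 i⟩
        obtain ⟨f, hf⟩ := nontrivial_of_moved (E0 := E0 i) hwv (g : L ≃ₐ[k] L) (ρ i g)
          (hcomp i g) (hI g hgI) hmoved
        rcases hs i with h | ⟨p, α, ν, r, b, q, h1, h2, h3, h4, h5, h6, h7, h8, h9, h9'⟩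
        · exact absurd (h.1 f) hf
        have hb : (0 : ℤ) < b := by exact_mod_cast h2.1
        -- the action on the uniformizers
        have hact : ∀ z : E i, z ≠ 0 →
            Ge q (q.ord z + 1) (ρ i g z - algebraMap k (E i) (ζ ^ (b * q.ord z)) * z) := by
          intro z hz
          have hzL : algebraMap (E i) L z ≠ 0 := by simpa using hz
          have h10 := hgen (algebraMap (E i) L z) hzL
          rw [← hcomp, h2.2, IsScalarTower.algebraMap_apply k (E i) L, ← map_mul, ← map_sub] at h10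
          rcases h10 with h10 | h10
          · left; exact (map_eq_zero _).1 h10
          · right
            rw [h2.2] at h10
            by_contra hcon
            push Not at hcon
            have h11 : (b : ℤ) * q.ord (ρ i g z - algebraMap k (E i) (ζ ^ (b * q.ord z)) * z) ≤
                b * q.ord z := mul_le_mul_of_nonneg_left (by omega) hb.le
            omega
        refine ⟨b % e, ?_, ?_⟩
        · right
          rw [hgord]
          refine ⟨?_, Nat.mod_lt _ hepos, q, ?_, ?_⟩
          · rw [Nat.pos_iff_ne_zero]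
            intro h0
            apply hmoved
            refine eq_one_of_unipotent q (ρ i g) (hfo i) fun z hz => ?_
            have h10 := hact z hz
            have h11 : ζ ^ ((b : ℤ) * q.ord z) = 1 := by
              obtain ⟨b', hb'⟩ := Nat.dvd_of_mod_eq_zero h0
              rw [hb']
              push_cast
              rw [mul_assoc, zpow_mul, zpow_natCast, hζ.pow_eq_one, one_zpow]
            rw [h11, map_one, one_mul] at h10
            exact h10
          · intro p' r' h'
            rw [(over_unique' h' h3).1]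
            exact h9'
          · intro z hz
            have hz0 : z ≠ 0 := by
              rintro rfl
              rw [q.ord_zero] at hz
              omega
            have h10 := hact z hz0
            rw [hz, mul_one, zpow_natCast] at h10
            have h11 : ζ ^ b = ζ ^ (b % e) := by
              conv_lhs => rw [← Nat.div_add_mod b e, pow_add, pow_mul, hζ.pow_eq_one, one_pow,
                one_mul]
            rw [h11] at h10
            exact h10
        · rw [h8, hgord]
          have hν : (0 : ℚ) < ν := by exact_mod_cast h5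
          have hα : 1 ≤ α := h1.1
          have heq : (0 : ℚ) < e := by exact_mod_cast hepos
          split_ifs with h0
          · positivity
          · refine max_le ?_ ?_
            · rw [div_le_div_iff₀ heq hν]
              have h10 : b % e * ν ≤ α * e := by
                calc b % e * ν ≤ b * r := Nat.mul_le_mul (Nat.mod_le _ _) h7
                  _ = α * e := by rw [← h4]; ring
              exact_mod_cast h10
            · have hN : (0 : ℚ) < N i := by exact_mod_cast lt_of_lt_of_le h5 h6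
              rw [div_le_div_iff₀ hN hν, one_mul]
              have h10 : ν ≤ α * N i := by nlinarith
              exact_mod_cast h10
      choose a ha1 ha2 using key
      exact (hrot g hg1 ζ (by rw [hgord]; exact hζ) a ha1).trans
        (Finset.sum_le_sum fun i _ => ha2 i)
    · -- unramified
      have he1 : e = 1 := by omega
      push Not at hall
      obtain ⟨i, f, hf⟩ := hall
      refine le_trans ?_ (Finset.single_le_sum (fun i _ => hs0 i) (Finset.mem_univ i))
      rcases hs i with h | ⟨p, α, ν, r, b, q, h1, h2, h3, h4, h5, h6, h7, h8, h9, -⟩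
      · exact absurd (h.1 f) hf
      · rw [h8]
        have hν : (0 : ℚ) < ν := by exact_mod_cast h5
        rw [le_div_iff₀ hν, one_mul]
        have h10 : ν ≤ α := by
          rw [he1, one_mul] at h4
          have := h2.1
          nlinarith
        exact_mod_cast h10

end

end Pool.Agent.W619.TW
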