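import Pool.Agent.W619.TW.KNStm

/-! Kodaira dimension equals numerical dimension for quotients of products of curves: compact
case. -/

set_option autoImplicit false
set_option linter.overlappingInstances false
set_option linter.unusedSectionVars false

universe u v

open FF IntermediateField Pool.Agent.W619.PQ Pool.Agent.W619.PL

namespace Pool.Agent.W619.TW

variable {k : Type v} {L : Type u} [Field k] [Field L] [Algebra k L]

/-- The curve `F` is elliptic: it has a vector field `D` without zeros and poles. -/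
def IsElliptic (F : IntermediateField k L) : Prop :=
  ∃ D : Derivation k F F, ∀ w : Place k F, ∀ t : F, w.ord t = 1 → D t ≠ 0 ∧ w.ord (D t) = 0

theorem isFlat_iff {Q F : IntermediateField k L} (h : Q ≤ F) :
    IsFlat h (∅ : Set (Place k Q)) ↔ IsElliptic F := by
  unfold IsFlat IsElliptic
  simp

theorem isNegative_iff {Q F : IntermediateField k L} (h : Q ≤ F) :
    IsNegative h (∅ : Set (Place k Q)) ↔ ∃ t : F, k⟮t⟯ = ⊤ := by
  unfold IsNegative
  simp

theorem qbd_empty {n : ℕ} (F : Fin n → IntermediateField k L) (G : Subgroup (L ≃ₐ[k] L)) :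
    QBd F G (fun _ => ∅) = fun _ => False := by
  funext v
  unfold QBd
  simp

theorem kn_compact [CharZero k] [IsAlgClosed k] (n : ℕ) (hn : Algebra.trdeg k L = n)
    (F : Fin n → IntermediateField k L) (hF : ∀ i, IsFF k (F i)) (hsup : ⨆ i, F i = ⊤)
    (G : Subgroup (L ≃ₐ[k] L)) [Finite G] (hst : ∀ i, ∀ g ∈ G, ∀ z ∈ F i, g z ∈ F i)
    (N : Fin n → ℕ)
    (hN : ∀ i, StrictAdmissible (inf_le_left : F i ⊓ fixedField G ≤ F i) ∅ (N i) ∨
      (IsElliptic (F i) ∧ Admissible (inf_le_left : F i ⊓ fixedField G ≤ F i) ∅ (N i)))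
    (hrot : RotCond G F (fun _ => ∅) N) :
    ((∃ i, ∃ t : F i, k⟮t⟯ = ⊤) → NumNeg k (fixedField G) n fun _ => False) ∧
    ((∀ i, ¬ ∃ t : F i, k⟮t⟯ = ⊤) →
      KodGe k (fixedField G) n (fun _ => False) {i | ¬ IsElliptic (F i)}.ncard ∧
      NumLe k (fixedField G) n (fun _ => False) {i | ¬ IsElliptic (F i)}.ncard) := by
  have h := kn_main n hn F hF hsup G hst (fun _ => ∅) (fun _ => Set.finite_empty) N
    (fun i => by rw [isFlat_iff]; exact hN i) hrot
  simp only [isFlat_iff, isNegative_iff, qbd_empty] at h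
  exact h

end Pool.Agent.W619.TW
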