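import Pool.Agent.W619.TW.NVRot
import Pool.Agent.W619.TW.KNCompact

/-! Pseudo-effective, effective, uniruled: final forms. -/

set_option autoImplicit false
set_option linter.overlappingInstances false
set_option linter.unusedSectionVars false

universe u v

open FF IntermediateField Pool.Agent.W619.PQ Pool.Agent.W619.PL

namespace Pool.Agent.W619.TW

open Pool.Agent.W603.LV

section

variable {k : Type v} {K : Type u} [Field k] [Field K] [Algebra k K]

theorem psef_of_eff {n : ℕ} {Bd : Place k K → Prop} (h : IsEff k K n Bd) :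
    IsPsef k K n Bd := by
  obtain ⟨m, hm, ω, ⟨h1, h2, h3⟩, D0, hD0⟩ := h
  have hdom : ∀ (v : Place k K) (N : ℕ) (f : K), Dom v {1} 0 f → Dom v {1} m (f ^ N) := by
    intro v N f hf
    by_cases hf0 : f = 0
    · rcases Nat.eq_zero_or_pos N with rfl | hN
      · right
        refine ⟨1, Finset.mem_singleton_self _, one_ne_zero, ?_⟩
        rw [pow_zero, Place.ord_one, mul_zero]
      · left
        rw [hf0, zero_pow (by omega)]
    · obtain ⟨s, hs, -, h4⟩ := hf.resolve_left hf0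
      rw [Finset.mem_singleton] at hs
      subst hs
      right
      refine ⟨1, Finset.mem_singleton_self _, one_ne_zero, ?_⟩
      rw [v.ord_pow]
      rw [Place.ord_one, mul_zero] at h4 ⊢
      positivity
  refine ⟨{1}, fun N => ⟨m, hm, fun D => ω D ^ N, ⟨?_, ?_, ?_⟩, D0, pow_ne_zero _ hD0⟩⟩
  · intro A D
    change ω _ ^ N = _
    rw [h1 A D, mul_pow, ← pow_mul]
  · intro v hv hB D hD
    exact hdom v N _ (h2 v hv hB D hD)
  · intro v hv hB D hD
    exact hdom v N _ (h3 v hv hB D hD)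

theorem kodairaNeg_of_not_eff [CharZero k] [IsAlgClosed k] {n : ℕ} : ¬ IsEff k K n (fun _ => False) ↔ KodairaNeg k K n := by
  constructor
  · intro h m hm ω h1 h2 D
    by_contra hD
    refine h ⟨m, hm, ω, ⟨h1, fun v hv _ D hD => dom_of_reg (h2 v hv D hD),
      fun v _ hB => hB.elim⟩, D, hD⟩
  · rintro h ⟨m, hm, ω, ⟨h1, h2, -⟩, D, hD⟩
    refine hD (h m hm ω h1 (fun v hv D hD => ?_) D)
    rcases h2 v hv not_false D hD with h3 | ⟨s, hs, hs0, h3⟩
    · exact Or.inl h3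
    · right
      rw [Nat.cast_zero, zero_mul] at h3
      exact h3

end

variable {k : Type v} {L : Type u} [Field k] [Field L] [Algebra k L]

theorem nv_log [CharZero k] [IsAlgClosed k] (n : ℕ) (hn : Algebra.trdeg k L = n)
    (F : Fin n → IntermediateField k L) (hF : ∀ i, IsFF k (F i)) (hsup : ⨆ i, F i = ⊤)
    (G : Subgroup (L ≃ₐ[k] L)) [Finite G] (hst : ∀ i, ∀ g ∈ G, ∀ z ∈ F i, g z ∈ F i)
    (B : ∀ i, Set (Place k ↥(F i ⊓ fixedField G))) (N : Fin n → ℕ)
    (hN : ∀ i, Admissible inf_le_left (B i) (N i)) (hrot : RotCond G F B N) :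
    (IsPsef k (fixedField G) n (QBd F G B) ↔ IsEff k (fixedField G) n (QBd F G B)) ∧
    (IsEff k (fixedField G) n (QBd F G B) ↔ ∀ i, ¬ IsNegative inf_le_left (B i)) := by
  obtain ⟨h2, h1⟩ := nv_both n hn F hF hsup G hst B N hN hrot
  have h5 : IsPsef k (fixedField G) n (QBd F G B) → ∀ i, ¬ IsNegative inf_le_left (B i) :=
    fun hp i hi => h1 ⟨i, hi⟩ hp
  exact ⟨⟨fun hp => h2 (h5 hp), psef_of_eff⟩, ⟨fun he => h5 (psef_of_eff he), h2⟩⟩

theorem nv_compact [CharZero k] [IsAlgClosed k] (n : ℕ) (hn : Algebra.trdeg k L = n)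
    (F : Fin n → IntermediateField k L) (hF : ∀ i, IsFF k (F i)) (hsup : ⨆ i, F i = ⊤)
    (G : Subgroup (L ≃ₐ[k] L)) [Finite G] (hst : ∀ i, ∀ g ∈ G, ∀ z ∈ F i, g z ∈ F i)
    (N : Fin n → ℕ)
    (hN : ∀ i, Admissible (inf_le_left : F i ⊓ fixedField G ≤ F i) ∅ (N i))
    (hrot : RotCond G F (fun _ => ∅) N) :
    (IsPsef k (fixedField G) n (fun _ => False) ↔ IsEff k (fixedField G) n (fun _ => False)) ∧
    (IsEff k (fixedField G) n (fun _ => False) ↔ ∀ i, ¬ ∃ t : F i, k⟮t⟯ = ⊤) ∧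
    (IsUniruled k (fixedField G) n ∨ IsEff k (fixedField G) n (fun _ => False)) := by
  obtain ⟨h2, h1⟩ := nv_both n hn F hF hsup G hst (fun _ => ∅) N hN hrot
  rw [qbd_empty] at h1 h2
  have h3 : (∀ i, ¬ ∃ t : F i, k⟮t⟯ = ⊤) → IsEff k (fixedField G) n (fun _ => False) :=
    fun h => h2 fun i hi => h i ((isNegative_iff _).1 hi)
  have h4 : (∃ i, ∃ t : F i, k⟮t⟯ = ⊤) → IsUniruled k (fixedField G) n := by
    rintro ⟨i0, t, ht⟩
    obtain ⟨M, h1, h2, h3, h4⟩ := rational_factor F hsup hn i0 t ht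
    refine ⟨M, inferInstance, inferInstance, h1, h2, ⟨?_⟩⟩
    let e1 : RatFunc M ≃ₐ[M] M⟮(t : L)⟯ := RatFunc.algEquivOfTranscendental (t : L) h3
    let e2 : M⟮(t : L)⟯ ≃ₐ[M] L := (equivOfEq h4).trans topEquiv
    exact (((e1.trans e2).symm.restrictScalars k : L ≃ₐ[k] RatFunc M) : L →ₐ[k] RatFunc M).comp
      (fixedField G).val
  have h5 : IsPsef k (fixedField G) n (fun _ => False) → ∀ i, ¬ ∃ t : F i, k⟮t⟯ = ⊤ :=
    fun hp i hi => h1 ⟨i, (isNegative_iff _).2 hi⟩ hp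
  refine ⟨⟨fun hp => h3 (h5 hp), psef_of_eff⟩, ⟨fun he => h5 (psef_of_eff he), h3⟩, ?_⟩
  · by_cases hall : ∀ i, ¬ ∃ t : F i, k⟮t⟯ = ⊤
    · exact Or.inr (h3 hall)
    · push Not at hall
      exact Or.inl (h4 hall)

end Pool.Agent.W619.TW
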