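import Mathlib

/-! The arithmetic of hyperbolic signatures. -/

set_option autoImplicit false

namespace Pool.Agent.W619.TW

theorem half_le (r N : ℕ) (hr : 2 ≤ r) (hN : 2 ≤ N) :
    (1 / 2 : ℚ) ≤ 1 - 1 / ((min r N : ℕ) : ℚ) := by
  have h2 : (2 : ℚ) ≤ ((min r N : ℕ) : ℚ) := by exact_mod_cast le_min hr hN
  have h3 : 1 / ((min r N : ℕ) : ℚ) ≤ 1 / 2 := one_div_le_one_div_of_le (by norm_num) h2
  linarith

theorem twothird_le (r N : ℕ) (hr : 3 ≤ r) (hN : 3 ≤ N) :
    (2 / 3 : ℚ) ≤ 1 - 1 / ((min r N : ℕ) : ℚ) := by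
  have h2 : (3 : ℚ) ≤ ((min r N : ℕ) : ℚ) := by exact_mod_cast le_min hr hN
  have h3 : 1 / ((min r N : ℕ) : ℚ) ≤ 1 / 3 := one_div_le_one_div_of_le (by norm_num) h2
  linarith

theorem lt_one (r : ℕ) (hr : 1 ≤ r) : 1 - 1 / (r : ℚ) < 1 := by
  have h2 : (0 : ℚ) < r := by exact_mod_cast hr
  have : 0 < 1 / (r : ℚ) := by positivity
  linarith

/-- If the sum exceeds the number of terms divided by two, then some term is at least `2/3`. -/
theorem exists_three {ι : Type*} (S : Finset ι) (r : ι → ℕ)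
    (hr : ∀ i ∈ S, 2 ≤ r i)
    (h : (S.card : ℚ) / 2 < ∑ i ∈ S, (1 - 1 / (r i : ℚ))) : ∃ i ∈ S, 3 ≤ r i := by
  by_contra hcon
  push Not at hcon
  have h1 : ∑ i ∈ S, (1 - 1 / (r i : ℚ)) = ∑ i ∈ S, (1 / 2 : ℚ) := by
    refine Finset.sum_congr rfl fun i hi => ?_
    have h2 : r i = 2 := by
      have := hr i hi
      have := hcon i hi
      omega
    rw [h2]; norm_num
  rw [h1, Finset.sum_const, nsmul_eq_mul] at h
  linarith

/-- Lower bound of the truncated sum. -/
theorem trunc_lower {ι : Type*} [DecidableEq ι] (S : Finset ι) (r : ι → ℕ) (N : ℕ) (hN : 3 ≤ N)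
    (hr : ∀ i ∈ S, 2 ≤ r i)
    (h : (S.card : ℚ) / 2 < ∑ i ∈ S, (1 - 1 / (r i : ℚ))) :
    (S.card : ℚ) / 2 + 1 / 6 ≤ ∑ i ∈ S, (1 - 1 / ((min (r i) N : ℕ) : ℚ)) := by
  obtain ⟨i, hi, hi3⟩ := exists_three S r hr h
  rw [← Finset.add_sum_erase S _ hi]
  have h1 := Finset.card_nsmul_le_sum (S.erase i) (fun i => 1 - 1 / ((min (r i) N : ℕ) : ℚ))
    (1 / 2 : ℚ) fun j hj => half_le (r j) N (hr j (Finset.mem_of_mem_erase hj)) (by omega)
  have h2 := twothird_le (r i) N hi3 hN
  rw [nsmul_eq_mul, Finset.card_erase_of_mem hi] at h1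
  have h3 : 1 ≤ S.card := Finset.card_pos.2 ⟨i, hi⟩
  have h4 : ((S.card - 1 : ℕ) : ℚ) = S.card - 1 := by
    rw [Nat.cast_sub h3]; simp
  rw [h4] at h1
  linarith

/-- One boundary point. -/
theorem one_bd {ι : Type*} [DecidableEq ι] (S : Finset ι) (r : ι → ℕ) (N : ℕ) (hN : 3 ≤ N)
    (hr : ∀ i ∈ S, 2 ≤ r i) (h : (1 : ℚ) < ∑ i ∈ S, (1 - 1 / (r i : ℚ))) :
    (1 : ℚ) < ∑ i ∈ S, (1 - 1 / ((min (r i) N : ℕ) : ℚ)) := by
  rcases le_or_gt 3 S.card with hc | hc
  · have h1 := Finset.card_nsmul_le_sum S (fun i => 1 - 1 / ((min (r i) N : ℕ) : ℚ))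
      (1 / 2 : ℚ) fun j hj => half_le (r j) N (hr j hj) (by omega)
    rw [nsmul_eq_mul] at h1
    have h2 : (3 : ℚ) ≤ S.card := by exact_mod_cast hc
    linarith
  · have h1 : (S.card : ℚ) / 2 < ∑ i ∈ S, (1 - 1 / (r i : ℚ)) := by
      refine lt_of_le_of_lt ?_ h
      have : (S.card : ℚ) ≤ 2 := by exact_mod_cast (by omega : S.card ≤ 2)
      linarith
    have h2 : S.card = 2 := by
      by_contra hne
      have h3 : ∑ i ∈ S, (1 - 1 / (r i : ℚ)) ≤ S.card := by
        have := Finset.sum_le_card_nsmul S (fun i => 1 - 1 / (r i : ℚ)) 1 fun i hi =>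
          (lt_one (r i) (by have := hr i hi; omega)).le
        simpa using this
      have h4 : (S.card : ℚ) ≤ 1 := by exact_mod_cast (by omega : S.card ≤ 1)
      linarith
    have h3 := trunc_lower S r N hN hr h1
    rw [h2, Nat.cast_ofNat] at h3
    linarith

/-- No boundary point: truncation at seven. -/
theorem seven {ι : Type*} [DecidableEq ι] (S : Finset ι) (r : ι → ℕ) (N : ℕ) (hN : 7 ≤ N)
    (hr : ∀ i ∈ S, 2 ≤ r i) (h : (2 : ℚ) < ∑ i ∈ S, (1 - 1 / (r i : ℚ))) :
    (2 : ℚ) < ∑ i ∈ S, (1 - 1 / ((min (r i) N : ℕ) : ℚ)) := by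
  rcases le_or_gt 5 S.card with hc | hc
  · have h1 := Finset.card_nsmul_le_sum S (fun i => 1 - 1 / ((min (r i) N : ℕ) : ℚ))
      (1 / 2 : ℚ) fun j hj => half_le (r j) N (hr j hj) (by omega)
    rw [nsmul_eq_mul] at h1
    have h2 : (5 : ℚ) ≤ S.card := by exact_mod_cast hc
    linarith
  have h1 : (S.card : ℚ) / 2 < ∑ i ∈ S, (1 - 1 / (r i : ℚ)) := by
    refine lt_of_le_of_lt ?_ h
    have : (S.card : ℚ) ≤ 4 := by exact_mod_cast (by omega : S.card ≤ 4)
    linarith
  rcases eq_or_ne S.card 4 with h4 | h4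
  · have h3 := trunc_lower S r N (by omega) hr h1
    rw [h4, Nat.cast_ofNat] at h3
    linarith
  have hc3 : S.card = 3 := by
    by_contra hne
    have h3 : ∑ i ∈ S, (1 - 1 / (r i : ℚ)) ≤ S.card := by
      have := Finset.sum_le_card_nsmul S (fun i => 1 - 1 / (r i : ℚ)) 1 fun i hi =>
        (lt_one (r i) (by have := hr i hi; omega)).le
      simpa using this
    have h4 : (S.card : ℚ) ≤ 2 := by exact_mod_cast (by omega : S.card ≤ 2)
    linarith
  obtain ⟨a, b, c, hab, hac, hbc, rfl⟩ := Finset.card_eq_three.1 hc3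
  have hsum : ∀ f : ι → ℚ, ∑ i ∈ ({a, b, c} : Finset ι), f i = f a + f b + f c := by
    intro f
    rw [Finset.sum_insert (by simp [hab, hac]), Finset.sum_insert (by simp [hbc]),
      Finset.sum_singleton]
    ring
  rw [hsum] at h ⊢
  have ha := hr a (by simp)
  have hb := hr b (by simp)
  have hc := hr c (by simp)
  generalize r a = A at *
  generalize r b = B at *
  generalize r c = C at *
  clear hsum hr hc3 h1 h4
  have key : ∀ A B C : ℕ, 2 ≤ A → A ≤ B → B ≤ C →
      (2 : ℚ) < (1 - 1 / (A : ℚ)) + (1 - 1 / (B : ℚ)) + (1 - 1 / (C : ℚ)) →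
      (2 : ℚ) < (1 - 1 / ((min A N : ℕ) : ℚ)) + (1 - 1 / ((min B N : ℕ) : ℚ)) +
        (1 - 1 / ((min C N : ℕ) : ℚ)) := by
    intro A B C hA hAB hBC h
    have hBpos : (0 : ℚ) < B := by exact_mod_cast (by omega : 0 < B)
    have hCpos : (0 : ℚ) < C := by exact_mod_cast (by omega : 0 < C)
    have hCp : 0 < 1 / (C : ℚ) := by positivity
    rcases lt_or_ge C 7 with hC | hC
    · rw [min_eq_left (by omega), min_eq_left (by omega), min_eq_left (by omega)]
      exact h
    · have h7 : (7 : ℚ) ≤ ((min C N : ℕ) : ℚ) := by exact_mod_cast le_min hC hN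
      have h7' : 1 / ((min C N : ℕ) : ℚ) ≤ 1 / 7 := one_div_le_one_div_of_le (by norm_num) h7
      rcases Nat.lt_or_ge A 3 with hA2 | hA3
      · have hA' : A = 2 := by omega
        subst hA'
        have hB3 : 3 ≤ B := by
          by_contra hcon
          have hB' : B = 2 := by omega
          subst hB'
          have hCp' : 0 < (C : ℚ)⁻¹ := by positivity
          norm_num at h
          linarith
        have h1 := half_le 2 N le_rfl (by omega)
        have h2 := twothird_le B N hB3 (by omega)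
        linarith
      · have h1 := twothird_le A N hA3 (by omega)
        have h2 := twothird_le B N (by omega) (by omega)
        linarith
  rcases le_total A B with h1 | h1 <;> rcases le_total B C with h2 | h2 <;>
    rcases le_total A C with h3 | h3
  · exact key A B C ha h1 h2 h
  · exact key A B C ha h1 h2 h
  · have := key A C B ha h3 h2 (by linarith); linarith
  · have := key C A B hc h3 h1 (by linarith); linarith
  · have := key B A C hb h1 h3 (by linarith); linarith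
  · have := key B C A hb h2 h3 (by linarith); linarith
  · have := key C B A hc h2 h1 (by linarith); linarith
  · have := key C B A hc h2 h1 (by linarith); linarith

end Pool.Agent.W619.TW
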