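import Pool.Agent.W619.TW.Frame
import Pool.Agent.W619.TW.TDefs
import Pool.Agent.W619.PQ.Local

/-! The local bound for sections of `m (K_X + D) + j A` along the curves in the `i`-th direction. -/

set_option autoImplicit false
set_option linter.overlappingInstances false
set_option linter.unusedSectionVars false

open Polynomial FF IntermediateField IsDedekindDomain

namespace Pool.Agent.W619.TW

open Pool.Agent.W603.LV Pool.Agent.W619.PQ

section

variable {k K : Type*} [Field k] [Field K] [Algebra k K] {n : ℕ}

theorem pluri_scaled {m : ℕ} {ω : (Fin n → Derivation k K K) → K} (hω : IsPluriForm k K n m ω)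
    (D : Fin n → Derivation k K K) (i : Fin n) (g : K) :
    ω (fun l => if l = i then g • D l else D l) = g ^ m * ω D := by
  classical
  have h := hω (Matrix.diagonal fun l => if l = i then g else 1) D
  rw [Matrix.det_diagonal, Finset.prod_ite_eq' Finset.univ i (fun _ => g)] at h
  simp only [Finset.mem_univ, if_true] at h
  rw [← h]
  congr 1
  funext l
  rw [Finset.sum_eq_single l]
  · rw [Matrix.diagonal_apply_eq]
    split_ifs <;> simp
  · intro j _ hj
    rw [Matrix.diagonal_apply_ne _ hj.symm, zero_smul]
  · simp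

end

section

variable {k K L : Type*} [Field k] [CharZero k] [IsAlgClosed k] [Field K] [Field L] [Algebra k K]
  [Algebra k L] [Algebra K L] [IsScalarTower k K L] [FiniteDimensional K L] {n : ℕ}
  {F : Fin n → IntermediateField k L} [∀ i, IsFF k (F i)]
  {E0 : Fin n → Type*} [∀ i, Field (E0 i)] [∀ i, Algebra k (E0 i)] [∀ i, Algebra (E0 i) (F i)]
  [∀ i, Algebra (E0 i) K] [∀ i, Algebra (E0 i) L] [∀ i, IsScalarTower k (E0 i) (F i)]
  [∀ i, IsScalarTower k (E0 i) L] [∀ i, IsScalarTower k (E0 i) K]
  [∀ i, IsScalarTower (E0 i) (F i) L] [∀ i, IsScalarTower (E0 i) K L] [∀ i, IsFF k (E0 i)]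

theorem exists_below (i : Fin n) (w : Place (MM F i) L) :
    ∃ (e : ℕ) (v : Place k K), Over (rk w) v e := by
  refine exists_over (K := K) (rk w) ?_
  by_contra hcon
  push Not at hcon
  obtain ⟨t, ht0, ht⟩ := w.surj
  have h1 : (rk w).ord (algebraMap L L t) = 0 :=
    ord_eq_zero_of_alg (K0 := K) (K1 := L) (K2 := L) (rk w) hcon t
  change w.ord t = 0 at h1
  omega

theorem divisorial_below {x : ∀ i, E0 i}
    (hb : IsTranscendenceBasis k fun i => algebraMap (E0 i) K (x i)) (i : Fin n)
    (w : Place (MM F i) L) {v : Place k K} {e : ℕ} (hv : Over (rk w) v e) : IsDivisorial v n := by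
  classical
  have hcard : Fintype.card {j : Fin n // j ≠ i} = n - 1 := by
    rw [Fintype.card_subtype_compl, Fintype.card_fin, Fintype.card_subtype_eq]
  let ε : {j : Fin n // j ≠ i} ≃ Fin (n - 1) := Fintype.equivFinOfCardEq hcard
  let y : Fin (n - 1) → K := fun l => algebraMap (E0 (ε.symm l).1) K (x (ε.symm l).1)
  refine ⟨y, fun p hp => ?_⟩
  have hy : AlgebraicIndependent k y :=
    hb.1.comp (fun l => (ε.symm l).1) (fun a b h => ε.symm.injective (Subtype.ext h))
  refine ⟨fun h => hp ((map_eq_zero_iff _ hy).1 h), ?_⟩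
  have hmem : ∀ p : MvPolynomial (Fin (n - 1)) k,
      algebraMap K L (MvPolynomial.aeval y p) ∈ MM F i := by
    intro p
    induction p using MvPolynomial.induction_on with
    | C a =>
      rw [MvPolynomial.aeval_C, ← IsScalarTower.algebraMap_apply]
      exact (MM F i).algebraMap_mem a
    | add p q hp hq => rw [map_add, map_add]; exact add_mem hp hq
    | mul_X p l hp =>
      rw [map_mul, map_mul, MvPolynomial.aeval_X]
      refine mul_mem hp (le_MM F (ε.symm l).2 ?_)
      have h1 : algebraMap K L (y l) =
          ((algebraMap (E0 (ε.symm l).1) (F (ε.symm l).1) (x (ε.symm l).1) : _) : L) := by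
        change _ = algebraMap (F (ε.symm l).1) L _
        rw [← IsScalarTower.algebraMap_apply, ← IsScalarTower.algebraMap_apply]
      rw [h1]
      exact Subtype.property _
  have h3 : w.ord (algebraMap K L (MvPolynomial.aeval y p)) = 0 := ord_M w (hmem p)
  have h4 := hv.2 (MvPolynomial.aeval y p)
  change w.ord _ = _ at h4
  rw [h3] at h4
  have h5 : (e : ℤ) ≠ 0 := by exact_mod_cast hv.1.ne'
  exact (mul_eq_zero.1 h4.symm).resolve_left h5

theorem coe_E0 (l : Fin n) (f : E0 l) :
    algebraMap K L (algebraMap (E0 l) K f) = ((algebraMap (E0 l) (F l) f : F l) : L) := by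
  change _ = algebraMap (F l) L _
  rw [← IsScalarTower.algebraMap_apply, ← IsScalarTower.algebraMap_apply]

/-- If the place below lies over a place `p` of the `l`-th curve, then `l = i`. -/
theorem eq_of_over {i : Fin n} {w : Place (MM F i) L} {v : Place k K} {e : ℕ}
    (hv : Over (rk w) v e) {l : Fin n} {p : Place k (E0 l)} {a : ℕ} (hp : Over v p a) : l = i := by
  by_contra hne
  obtain ⟨t, ht0, ht⟩ := p.surj
  have h1 := hv.2 (algebraMap (E0 l) K t)
  rw [hp.2, ht, coe_E0 (F := F)] at h1
  have h2 : w.ord ((algebraMap (E0 l) (F l) t : F l) : L) = 0 :=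
    ord_M w (le_MM F hne (Subtype.property _))
  change w.ord _ = _ at h1
  rw [h2] at h1
  have h3 : (0 : ℤ) < e := by exact_mod_cast hv.1
  have h4 : (0 : ℤ) < a := by exact_mod_cast hp.1
  have h5 : (0 : ℤ) < e * (a * 1) := by positivity
  omega

theorem pres_other {x : ∀ i, E0 i} {dK : Fin n → Derivation k K K}
    {dL : Fin n → Derivation k L L} {dF : ∀ i, Derivation k (F i) (F i)}
    (hfr : Fr F x dK dL dF) (hsup : ⨆ i, F i = ⊤) (hn : Algebra.trdeg k L = n) (i : Fin n)
    (w : Place (MM F i) L) {l : Fin n} (hl : l ≠ i) : Pres (rk w) (dL l) := by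
  refine (cur_MM F hsup hn i).pres w (dL l) ?_ ?_
  · refine stable_iSup (dL l) (fun j : {j : Fin n // j ≠ i} => F j.1) fun j z hz => ?_
    by_cases h : j.1 = l
    · have h1 : dL l z ∈ F l := by
        have hz' : z ∈ F l := h ▸ hz
        have := hfr.self l ⟨z, hz'⟩
        change dL l z = _ at this
        rw [this]
        exact Subtype.property _
      rw [h]; exact h1
    · have := hfr.other l j.1 h ⟨z, hz⟩
      change dL l z = 0 at this
      rw [this]
      exact zero_mem _
  · intro β _
    rw [hfr.other l i hl.symm β]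
    exact w.reg_zero

theorem dL_MM {x : ∀ i, E0 i} {dK : Fin n → Derivation k K K}
    {dL : Fin n → Derivation k L L} {dF : ∀ i, Derivation k (F i) (F i)}
    (hfr : Fr F x dK dL dF) (i : Fin n) : ∀ z ∈ MM F i, dL i z = 0 := by
  -- the kernel is a field
  intro z hz
  let C : IntermediateField k L :=
    { carrier := {f | dL i f = 0}
      mul_mem' := fun {a b} ha hb => by
        change dL i (a * b) = 0
        rw [(dL i).leibniz, show dL i a = 0 from ha, show dL i b = 0 from hb, smul_zero, smul_zero,
          add_zero]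
      one_mem' := (dL i).map_one_eq_zero
      add_mem' := fun {a b} ha hb => by
        change dL i (a + b) = 0
        rw [map_add, show dL i a = 0 from ha, show dL i b = 0 from hb, add_zero]
      zero_mem' := map_zero _
      algebraMap_mem' := fun r => (dL i).map_algebraMap r
      inv_mem' := fun a ha => by
        change dL i a⁻¹ = 0
        rw [(dL i).leibniz_inv, show dL i a = 0 from ha, smul_zero] }
  have hle : MM F i ≤ C := iSup_le fun j y hy => hfr.other i j.1 j.2 ⟨y, hy⟩
  exact hle hz

theorem pres_self {x : ∀ i, E0 i} {dK : Fin n → Derivation k K K}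
    {dL : Fin n → Derivation k L L} {dF : ∀ i, Derivation k (F i) (F i)}
    (hfr : Fr F x dK dL dF) (hsup : ⨆ i, F i = ⊤) (hn : Algebra.trdeg k L = n) (i : Fin n)
    (w : Place (MM F i) L) (q : Place k (F i)) (hq : ∀ β : F i, w.ord (β : L) = q.ord β)
    {t : F i} (ht : q.ord t = 1) : Pres (rk w) (((dF i t : F i) : L)⁻¹ • dL i) := by
  have h0 := der_pi_ne_zero (hfr.ne i) q ht
  have h0' : ((dF i t : F i) : L) ≠ 0 := fun h => h0 (Subtype.ext h)
  refine (cur_MM F hsup hn i).pres w _ ?_ ?_
  · intro z hz
    rw [Derivation.coe_smul, Pi.smul_apply, dL_MM hfr i z hz, smul_zero]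
    exact zero_mem _
  · intro β hβ
    have h1 : Ge q 0 β := by
      rcases hβ with h | h
      · left; exact Subtype.ext h
      · right; rw [← hq]; exact h
    obtain ⟨g, hg, hDg⟩ := der_mul q ht (hfr.ne i) h1
    have h2 : (((dF i t : F i) : L)⁻¹ • dL i) (β : L) = (g : L) := by
      rw [Derivation.coe_smul, Pi.smul_apply, hfr.self, hDg, smul_eq_mul]
      push_cast
      field_simp
    rw [h2]
    rcases hg with h | h
    · left; rw [h]; rfl
    · right; rw [hq]; exact h

theorem pres_triv {x : ∀ i, E0 i} {dK : Fin n → Derivation k K K}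
    {dL : Fin n → Derivation k L L} {dF : ∀ i, Derivation k (F i) (F i)}
    (hfr : Fr F x dK dL dF) (hsup : ⨆ i, F i = ⊤) (hn : Algebra.trdeg k L = n) (i : Fin n)
    (w : Place (MM F i) L) (hw : ∀ β : F i, w.ord (β : L) = 0) : Pres (rk w) (dL i) := by
  refine (cur_MM F hsup hn i).pres w _ ?_ ?_
  · intro z hz
    rw [dL_MM hfr i z hz]
    exact zero_mem _
  · intro β _
    rw [hfr.self]
    exact Or.inr (hw _).ge

/-- The local bound for the coefficient of a section of `m (K_X + D) + j A`. -/
theorem local_bound {x : ∀ i, E0 i} {dK : Fin n → Derivation k K K}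
    {dL : Fin n → Derivation k L L} {dF : ∀ i, Derivation k (F i) (F i)}
    (hfr : Fr F x dK dL dF) (hsup : ⨆ i, F i = ⊤) (hn : Algebra.trdeg k L = n)
    {B : ∀ i, Place k (E0 i) → Prop} {Bd : Place k K → Prop}
    (hBd : ∀ v, Bd v ↔ ∃ (i : Fin n) (p : Place k (E0 i)) (a : ℕ), Over v p a ∧ B i p)
    {S : Finset K} {m j : ℕ} {ω : (Fin n → Derivation k K K) → K} (hω : IsSec k K n Bd S m j ω)
    (i : Fin n) (w : Place (MM F i) L) (c : ℤ)
    (hc : ((∀ β : F i, w.ord (β : L) = 0) ∧ c = 0) ∨
      ∃ q : Place k (F i), (∀ β : F i, w.ord (β : L) = q.ord β) ∧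
        ∃ (p : Place k (E0 i)) (r : ℕ), Over q p r ∧
          ((¬ B i p ∧ c = vo q (dF i)) ∨ (B i p ∧ c = vo q (dF i) - 1))) :
    algebraMap K L (ω dK) = 0 ∨ ∃ s ∈ S, s ≠ 0 ∧
      m * c + j * w.ord (algebraMap K L s) ≤ w.ord (algebraMap K L (ω dK)) := by
  classical
  obtain ⟨e, v, hv⟩ := exists_below (K := K) i w
  have hdiv : IsDivisorial v n := divisorial_below (F := F) hfr.basisK i w hv
  have he : (0 : ℤ) < e := by exact_mod_cast hv.1
  have hvw : ∀ f : K, w.ord (algebraMap K L f) = e * v.ord f := hv.2
  have hreg : ∀ f : K, v.Reg f → w.Reg (algebraMap K L f) := fun f hf => hv.reg.2 hf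
  have hreg' : ∀ f : K, w.Reg (algebraMap K L f) → v.Reg f := fun f hf => hv.reg.1 hf
  -- the vector fields in the other directions
  have hother : ∀ l, l ≠ i → Pres v (dK l) := by
    intro l hl f hf
    apply hreg'
    rw [← hfr.comp]
    exact pres_other hfr hsup hn i w hl _ (hreg f hf)
  -- conclusion from a scaled frame
  have concl : ∀ g : K, g ≠ 0 → e * v.ord g ≤ - c → Dom v S j (g ^ m * ω dK) →
      algebraMap K L (ω dK) = 0 ∨ ∃ s ∈ S, s ≠ 0 ∧
        m * c + j * w.ord (algebraMap K L s) ≤ w.ord (algebraMap K L (ω dK)) := by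
    intro g hg hgc hd
    by_cases h0 : ω dK = 0
    · left; rw [h0, map_zero]
    right
    rcases hd with hd | ⟨s, hs, hs0, hd⟩
    · exact absurd hd (mul_ne_zero (pow_ne_zero _ hg) h0)
    refine ⟨s, hs, hs0, ?_⟩
    rw [v.ord_mul (pow_ne_zero _ hg) h0, v.ord_pow] at hd
    rw [hvw, hvw]
    have h1 := mul_le_mul_of_nonneg_left hd he.le
    have h2 : (m : ℤ) * (e * v.ord g) ≤ m * (-c) := mul_le_mul_of_nonneg_left hgc (by positivity)
    linarith [h1, h2, mul_add (e : ℤ) (m * v.ord g) (v.ord (ω dK))]
  rcases hc with ⟨htriv, rfl⟩ | ⟨q, hq, p, r, hqp, hc⟩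
  · -- the place is trivial on `F i`
    have hnb : ¬ Bd v := by
      rw [hBd]
      rintro ⟨l, p, a, hp, -⟩
      have hl := eq_of_over (F := F) hv hp
      subst hl
      obtain ⟨t, ht0, ht⟩ := p.surj
      have h1 := hvw (algebraMap (E0 l) K t)
      rw [coe_E0 (F := F), htriv, hp.2, ht] at h1
      have h4 : (0 : ℤ) < a := by exact_mod_cast hp.1
      have h5 : (0 : ℤ) < e * (a * 1) := by positivity
      omega
    have hall : ∀ l, Pres v (dK l) := by
      intro l
      by_cases hl : l = i
      · subst hl
        intro f hf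
        apply hreg'
        rw [← hfr.comp]
        exact pres_triv hfr hsup hn l w htriv _ (hreg f hf)
      · exact hother l hl
    refine concl 1 one_ne_zero (by rw [v.ord_one]; simp) ?_
    rw [one_pow, one_mul]
    exact hω.2.1 v hdiv hnb dK hall
  · -- the place lies over `q`
    obtain ⟨t, ht0, ht⟩ := q.surj
    have hDt := der_pi_ne_zero (hfr.ne i) q ht
    have hDt' : ((dF i t : F i) : L) ≠ 0 := fun h => hDt (Subtype.ext h)
    have hvo : w.ord ((dF i t : F i) : L) = vo q (dF i) := by
      rw [hq]; exact vo_eq q ht (hfr.ne i)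
    have hps := pres_self hfr hsup hn i w q hq ht
    have htL : ((t : F i) : L) ≠ 0 := fun h => ht0 (Subtype.ext h)
    have hwt : w.ord ((t : F i) : L) = 1 := by rw [hq, ht]
    have hdLi : ∀ z : L, dL i z = ((dF i t : F i) : L) *
        (((dF i t : F i) : L)⁻¹ • dL i) z := by
      intro z
      rw [Derivation.coe_smul, Pi.smul_apply, smul_eq_mul, mul_inv_cancel_left₀ hDt']
    -- uniqueness of the place of `E0 i` below
    have hwp : Over (rk w) p r := ⟨hqp.1, fun f => by
      have h1 := hqp.2 f
      have h2 := hq (algebraMap (E0 i) (F i) f)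
      change w.ord (algebraMap (E0 i) L f) = _
      rw [IsScalarTower.algebraMap_apply (E0 i) (F i) L]
      change w.ord ((algebraMap (E0 i) (F i) f : F i) : L) = _
      rw [h2, h1]⟩
    have huniq : ∀ (p' : Place k (E0 i)) (a : ℕ), Over v p' a → p' = p := fun p' a hp' =>
      (over_unique' (over_trans hv hp') hwp).1
    -- an element of given order
    obtain ⟨τ, hτ0, hτ⟩ := v.surj
    set a : ℤ := (-c) / e with ha
    have hag : v.ord (τ ^ a) = a := by rw [v.ord_zpow, hτ, mul_one]
    have hgc : (e : ℤ) * v.ord (τ ^ a) ≤ -c := by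
      rw [hag, ha]; exact Int.mul_ediv_self_le he.ne'
    have hge : ∀ y : ℤ, c ≤ e * y → 0 ≤ a + y := by
      intro y hy
      have : -y ≤ (-c) / e := by
        rw [Int.le_ediv_iff_mul_le he]
        linarith
      omega
    rcases hc with ⟨hB, hc⟩ | ⟨hB, hc⟩
    · have hnb : ¬ Bd v := by
        rw [hBd]
        rintro ⟨l, p', a', hp', hB'⟩
        have hl := eq_of_over (F := F) hv hp'
        subst hl
        rw [huniq p' a' hp'] at hB'
        exact hB hB'
      have hfrm : ∀ l, Pres v ((fun l => if l = i then (τ ^ a) • dK l else dK l) l) := by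
        intro l
        by_cases hl : l = i
        · subst hl
          simp only [if_true]
          intro f hf
          rw [Derivation.coe_smul, Pi.smul_apply, smul_eq_mul]
          by_cases h0 : dK l f = 0
          · left; rw [h0, mul_zero]
          right
          rw [v.ord_mul (zpow_ne_zero _ hτ0) h0, hag]
          apply hge
          rw [← hvw, ← hfr.comp, hdLi]
          have h1 : Ge w 0 ((((dF l t : F l) : L)⁻¹ • dL l) (algebraMap K L f)) :=
            hps _ (hreg f hf)
          have h2 : (((dF l t : F l) : L)⁻¹ • dL l) (algebraMap K L f) ≠ 0 := by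
            intro h
            have h3 := hdLi (algebraMap K L f)
            rw [h, mul_zero, hfr.comp] at h3
            exact h0 (by simpa using h3)
          rw [w.ord_mul hDt' h2, hvo, hc]
          have := h1.resolve_left h2
          omega
        · simp only [if_neg hl]
          exact hother l hl
      refine concl (τ ^ a) (zpow_ne_zero _ hτ0) hgc ?_
      rw [← pluri_scaled hω.1 dK i (τ ^ a)]
      exact hω.2.1 v hdiv hnb _ hfrm
    · have hb : Bd v := by
        rw [hBd]
        -- the place below on `E0 i`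
        obtain ⟨s, hs0, hs⟩ := p.surj
        have h1 : v.ord (algebraMap (E0 i) K s) ≠ 0 := by
          intro h
          have h2 := hwp.2 s
          rw [hs, IsScalarTower.algebraMap_apply (E0 i) K L, hv.2, h] at h2
          have h3 : (0 : ℤ) < r := by exact_mod_cast hqp.1
          omega
        obtain ⟨a', p', hp'⟩ := exists_over (K := E0 i) v ⟨s, h1⟩
        exact ⟨i, p', a', hp', by rw [huniq p' a' hp']; exact hB⟩
      -- logarithmic vector fields
      have hlog : ∀ D : Derivation k L L, Pres (rk w) D → w.Reg (D (t : L) / (t : L)) →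
          ∀ z, w.Reg (D z / z) := fun D hD h z => log_of_pres (rk w) D hD htL hwt h z
      have hfrm : ∀ l, ∀ f, v.Reg ((fun l => if l = i then (τ ^ a) • dK l else dK l) l f / f) := by
        intro l f
        by_cases hl : l = i
        · subst hl
          simp only [if_true]
          rw [Derivation.coe_smul, Pi.smul_apply, smul_eq_mul]
          by_cases h0 : dK l f = 0
          · left; rw [h0, mul_zero, zero_div]
          by_cases hf0 : f = 0
          · left; rw [hf0, div_zero]
          right
          rw [mul_div_assoc, v.ord_mul (zpow_ne_zero _ hτ0) (div_ne_zero h0 hf0), hag]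
          apply hge
          rw [← hvw, map_div₀, ← hfr.comp]
          -- the logarithmic field `t D' `
          have h1 := hlog ((t : L) • (((dF l t : F l) : L)⁻¹ • dL l)) (by
            intro z hz
            have h2 : Ge w 0 ((((dF l t : F l) : L)⁻¹ • dL l) z) := hps z hz
            have h3 : Ge w 0 ((t : F l) : L) := Or.inr (by rw [hwt]; norm_num)
            have h4 := h3.mul h2
            exact h4) (by
            rw [Derivation.coe_smul, Pi.smul_apply, Derivation.coe_smul, Pi.smul_apply, hfr.self,
              smul_eq_mul, smul_eq_mul, inv_mul_cancel₀ hDt', mul_one, div_self htL]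
            exact w.reg_one) (algebraMap K L f)
          have hfL : algebraMap K L f ≠ 0 := by simpa using hf0
          have h2 : (((dF l t : F l) : L)⁻¹ • dL l) (algebraMap K L f) ≠ 0 := by
            intro h
            have h3 := hdLi (algebraMap K L f)
            rw [h, mul_zero, hfr.comp] at h3
            exact h0 (by simpa using h3)
          rw [Derivation.coe_smul, Pi.smul_apply, smul_eq_mul,
            w.reg_iff (div_ne_zero (mul_ne_zero htL h2) hfL),
            w.ord_div (mul_ne_zero htL h2) hfL, w.ord_mul htL h2, hwt] at h1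
          rw [hdLi, w.ord_div (mul_ne_zero hDt' h2) hfL, w.ord_mul hDt' h2, hvo, hc]
          omega
        · simp only [if_neg hl]
          apply hreg'
          rw [map_div₀, ← hfr.comp]
          refine hlog (dL l) (pres_other hfr hsup hn i w hl) ?_ _
          have := hfr.other l i (Ne.symm hl) t
          rw [this, zero_div]
          exact w.reg_zero
      refine concl (τ ^ a) (zpow_ne_zero _ hτ0) hgc ?_
      rw [← pluri_scaled hω.1 dK i (τ ^ a)]
      exact hω.2.2 v hdiv hb _ hfrm

end

end Pool.Agent.W619.TW
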