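import Pool.Agent.W619.TW.NDefs

/-! Definitions: Iitaka dimension of divisors; pseudo-effectivity of `r (K_X + D) - A`. -/

set_option autoImplicit false
set_option linter.overlappingInstances false
set_option linter.unusedSectionVars false

universe u v

open FF Pool.Agent.W619.PQ

namespace Pool.Agent.W619.TW

variable (k : Type u) (K : Type v) [Field k] [Field K] [Algebra k K]

/-- `κ (A) ≥ h` for the divisor `A` with multiplicity `a v` along each divisor `v`: there is
`m ≥ 1` with `h⁰ (j m A) ≥ j ^ h` for all `j ≥ 1`. -/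
def DivKodGe (n : ℕ) (a : Place k K → ℤ) (h : ℕ) : Prop :=
  ∃ m : ℕ, 1 ≤ m ∧ ∀ j : ℕ, 1 ≤ j → ∃ f : Fin (j ^ h) → K, LinearIndependent k f ∧
    ∀ l, ∀ v : Place k K, IsDivisorial v n → - (j * m * a v) ≤ v.ord (f l)

/-- `r (K_X + D) - A` is pseudo-effective, where `A` has multiplicity `a v` along `v`: there is a
divisor `H` (generated by a finite set `S` of functions) such that for all `j ≥ 1` the divisor
`j (r (K_X + D) - A) + H` has a nonzero section: a `j r`-fold pluricanonical form whose values on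
the vector fields regular along `v` (logarithmic along `v`, if `v` is in the boundary) have order
at least `j a v + v (s)`, for some `s ∈ S`. -/
def IsPsefRest (n : ℕ) (Bd : Place k K → Prop) (r : ℕ) (a : Place k K → ℤ) : Prop :=
  ∃ S : Finset K, ∀ j : ℕ, 1 ≤ j → ∃ β : (Fin n → Derivation k K K) → K,
    IsPluriForm k K n (j * r) β ∧ (∃ D, β D ≠ 0) ∧
    (∀ v : Place k K, IsDivisorial v n → ¬ Bd v → ∀ D : Fin n → Derivation k K K,
      (∀ l, ∀ f, v.Reg f → v.Reg (D l f)) →
        β D = 0 ∨ ∃ s ∈ S, s ≠ 0 ∧ j * a v + v.ord s ≤ v.ord (β D)) ∧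
    (∀ v : Place k K, IsDivisorial v n → Bd v → ∀ D : Fin n → Derivation k K K,
      (∀ l, ∀ f, v.Reg (D l f / f)) →
        β D = 0 ∨ ∃ s ∈ S, s ≠ 0 ∧ j * a v + v.ord s ≤ v.ord (β D))

end Pool.Agent.W619.TW
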