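import Pool.Agent.W619.TW.KNCompact
import Pool.Agent.W619.TW.CPDefs

/-! The Campana-Peternell conjecture from the equality of the Kodaira and numerical dimensions. -/

set_option autoImplicit false
set_option linter.overlappingInstances false
set_option linter.unusedSectionVars false

universe u v

open FF IntermediateField Pool.Agent.W619.PQ Pool.Agent.W619.PL

namespace Pool.Agent.W619.TW

section

variable {k : Type u} {K : Type v} [Field k] [Field K] [Algebra k K]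

theorem HasIndep.mono {n N N' : ℕ} (h : N' ≤ N) {P : ((Fin n → Derivation k K K) → K) → Prop}
    (hP : HasIndep k K n N P) : HasIndep k K n N' P := by
  obtain ⟨ω, h1, h2⟩ := hP
  exact ⟨fun l => ω (Fin.castLE h l), h1.comp _ (Fin.castLE_injective h), fun l => h2 _⟩

theorem KodGe.mono {n : ℕ} {Bd : Place k K → Prop} {h h' : ℕ} (hle : h' ≤ h)
    (hk : KodGe k K n Bd h) : KodGe k K n Bd h' := by
  obtain ⟨m, h1, h2⟩ := hk
  exact ⟨m, h1, fun j hj => (h2 j hj).mono (Nat.pow_le_pow_right hj hle)⟩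

theorem cp_sections {n : ℕ} {Bd : Place k K → Prop} {r : ℕ} {a : Place k K → ℤ} {h : ℕ}
    (hps : IsPsefRest k K n Bd r a) (hA : DivKodGe k K n a h) :
    ∃ (S : Finset K) (m : ℕ), 1 ≤ m ∧ ∀ j : ℕ, 1 ≤ j →
      HasIndep k K n (j ^ h) (IsSec k K n Bd S (j * m * r) 1) := by
  obtain ⟨S, hS⟩ := hps
  obtain ⟨m, hm, hf⟩ := hA
  refine ⟨S, m, hm, fun j hj => ?_⟩
  obtain ⟨f, hfli, hfa⟩ := hf j hj
  obtain ⟨β, h1, ⟨D0, hD0⟩, h2, h3⟩ := hS (j * m) (Nat.one_le_iff_ne_zero.2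
    (mul_ne_zero (by omega) (by omega)))
  have hf0 : ∀ l, f l ≠ 0 := fun l => hfli.ne_zero l
  have hdom : ∀ (v : Place k K) (l : Fin (j ^ h)) (D : Fin n → Derivation k K K),
      IsDivisorial v n →
      (β D = 0 ∨ ∃ s ∈ S, s ≠ 0 ∧ (j * m : ℕ) * a v + v.ord s ≤ v.ord (β D)) →
      Dom v S 1 (f l * β D) := by
    intro v l D hv hD
    rcases hD with h4 | ⟨s, hs, hs0, h4⟩
    · left; rw [h4, mul_zero]
    · by_cases hb : β D = 0
      · left; rw [hb, mul_zero]
      right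
      refine ⟨s, hs, hs0, ?_⟩
      rw [v.ord_mul (hf0 l) hb]
      have h5 := hfa l v hv
      push_cast at h4 ⊢
      linarith
  refine ⟨fun l D => f l * β D, ?_, fun l => ⟨?_, ?_, ?_⟩⟩
  · refine LinearIndependent.of_comp
      (LinearMap.proj D0 : ((Fin n → Derivation k K K) → K) →ₗ[k] K) ?_
    have h4 := hfli.map' (LinearMap.mulRight k (β D0))
      (LinearMap.ker_eq_bot.2 (mul_left_injective₀ hD0))
    exact h4
  · intro A D
    change f l * β _ = _
    rw [h1 A D]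
    ring
  · intro v hv hB D hD
    exact hdom v l D hv (h2 v hv hB D hD)
  · intro v hv hB D hD
    exact hdom v l D hv (h3 v hv hB D hD)

theorem cp_of_neg {n : ℕ} {Bd : Place k K → Prop} (hneg : NumNeg k K n Bd) {r : ℕ} (hr : 1 ≤ r)
    {a : Place k K → ℤ} {h : ℕ} (hps : IsPsefRest k K n Bd r a) : ¬ DivKodGe k K n a h := by
  intro hA
  obtain ⟨S, m, hm, hS⟩ := cp_sections hps hA
  obtain ⟨m0, hm0⟩ := hneg S
  refine hm0 ((m0 + 1) * m * r) ?_ ((hS (m0 + 1) (by omega)).mono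
    (Nat.one_le_pow _ _ (by omega)))
  calc m0 ≤ (m0 + 1) * 1 * 1 := by omega
    _ ≤ (m0 + 1) * m * r := Nat.mul_le_mul (Nat.mul_le_mul le_rfl hm) hr

theorem cp_of_num {n : ℕ} {Bd : Place k K → Prop} {h0 : ℕ} (hk : KodGe k K n Bd h0)
    (hnum : NumLe k K n Bd h0) {r : ℕ} (hr : 1 ≤ r)
    {a : Place k K → ℤ} {h : ℕ} (hps : IsPsefRest k K n Bd r a) (hA : DivKodGe k K n a h) :
    KodGe k K n Bd h := by
  rcases le_or_gt h h0 with hle | hlt
  · exact hk.mono hle
  exfalso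
  obtain ⟨S, m, hm, hS⟩ := cp_sections hps hA
  obtain ⟨C, hC⟩ := hnum S
  set M := C * (m * r) ^ h0 with hM
  have h1 : ∀ j : ℕ, 1 ≤ j → 1 ≤ j * m * r → j ≤ M := by
    intro j hj hj'
    have h2 := hC (j * m * r) _ hj' (hS j hj)
    have h3 : j ^ (h0 + 1) ≤ j ^ h := Nat.pow_le_pow_right hj hlt
    have h4 : j ^ h0 * j ≤ j ^ h0 * M := by
      calc j ^ h0 * j = j ^ (h0 + 1) := (pow_succ _ _).symm
        _ ≤ C * (j * m * r) ^ h0 := h3.trans h2
        _ = j ^ h0 * M := by rw [hM, mul_assoc j m r, mul_pow]; ring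
    exact Nat.le_of_mul_le_mul_left h4 (Nat.pow_pos hj)
  have h2 := h1 (M + 1) (by omega) (Nat.one_le_iff_ne_zero.2
    (mul_ne_zero (mul_ne_zero (by omega) (by omega)) (by omega)))
  omega

end

variable {k : Type v} {L : Type u} [Field k] [Field L] [Algebra k L]

theorem cp_main [CharZero k] [IsAlgClosed k] (n : ℕ) (hn : Algebra.trdeg k L = n)
    (F : Fin n → IntermediateField k L) (hF : ∀ i, IsFF k (F i)) (hsup : ⨆ i, F i = ⊤)
    (G : Subgroup (L ≃ₐ[k] L)) [Finite G] (hst : ∀ i, ∀ g ∈ G, ∀ z ∈ F i, g z ∈ F i)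
    (B : ∀ i, Set (Place k ↥(F i ⊓ fixedField G))) (hB : ∀ i, (B i).Finite) (N : Fin n → ℕ)
    (hN : ∀ i, StrictAdmissible inf_le_left (B i) (N i) ∨
      (IsFlat inf_le_left (B i) ∧ Admissible inf_le_left (B i) (N i)))
    (hrot : RotCond G F B N) (r : ℕ) (hr : 1 ≤ r) (a : Place k (fixedField G) → ℤ)
    (hps : IsPsefRest k (fixedField G) n (QBd F G B) r a) (h : ℕ)
    (hA : DivKodGe k (fixedField G) n a h) : KodGe k (fixedField G) n (QBd F G B) h := by
  obtain ⟨h1, h2⟩ := kn_main n hn F hF hsup G hst B hB N hN hrot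
  by_cases hneg : ∃ i, IsNegative inf_le_left (B i)
  · exact absurd hA (cp_of_neg (h1 hneg) hr hps)
  · push Not at hneg
    obtain ⟨h3, h4⟩ := h2 hneg
    exact cp_of_num h3 h4 hr hps hA

end Pool.Agent.W619.TW
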