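import Pool.Agent.W619.TW.Der
import Pool.Agent.W619.PL.LDefs
import Pool.Agent.W619.PQ.Main

/-! Products of curves: the factors as curves over the composita of the others; frames. -/

set_option autoImplicit false
set_option linter.overlappingInstances false
set_option linter.unusedSectionVars false

open Polynomial FF IntermediateField IsDedekindDomain

namespace Pool.Agent.W619.TW

open Pool.Agent.W603.LV Pool.Agent.W619.PQ

section

variable {k L : Type*} [Field k] [Field L] [Algebra k L] {n : ℕ}
  (F : Fin n → IntermediateField k L)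

/-- The compositum of the factors other than `i`. -/
def MM (i : Fin n) : IntermediateField k L := ⨆ j : {j : Fin n // j ≠ i}, F j.1

theorem le_MM {i j : Fin n} (h : j ≠ i) : F j ≤ MM F i :=
  le_iSup (fun j : {j : Fin n // j ≠ i} => F j.1) ⟨j, h⟩

theorem cur_MM [hF : ∀ i, IsFF k (F i)] (hsup : ⨆ i, F i = ⊤) (hn : Algebra.trdeg k L = n)
    (i : Fin n) : Cur (MM F i) (F i) := by
  classical
  refine ⟨inferInstance, ?_, ?_⟩
  · intro x hx halg
    choose y hy using fun j => IsFF.exists_transcendental (k := k) (K := F j)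
    let x' : ∀ j, F j := Function.update y i x
    have hxi : x' i = x := Function.update_self i x y
    have hx' : ∀ j, Transcendental k (x' j) := by
      intro j
      by_cases h : j = i
      · subst h; rw [hxi]; exact hx
      · rw [show x' j = y j from Function.update_of_ne h x y]; exact hy j
    have hb := basis_of_iSup F hsup hn x' hx'
    have h1 := hb.1.transcendental_adjoin (s := {j | j ≠ i}) (i := i) (by simp)
    apply h1
    set T : Set L := (fun j => (x' j : L)) '' {j | j ≠ i} with hT
    open scoped algebraAdjoinAdjoin in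
    rw [IsFractionRing.isAlgebraic_iff (Algebra.adjoin k T) (IntermediateField.adjoin k T) L]
    rw [hxi]
    let S := IntermediateField.adjoin k T
    let A : IntermediateField S L := algebraicClosure S L
    have hMA : ∀ z ∈ MM F i, z ∈ A := by
      intro z hz
      rw [mem_algebraicClosure_iff]
      have h2 := alg_iSup (fun j : {j : Fin n // j ≠ i} => F j.1) (fun j => x' j.1)
        (fun j => hx' j.1) hz
      have h3 : Set.range (fun j : {j : Fin n // j ≠ i} => (x' j.1 : L)) = T := by
        rw [hT]; ext z
        constructor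
        · rintro ⟨⟨j, hj⟩, rfl⟩; exact ⟨j, hj, rfl⟩
        · rintro ⟨j, hj, rfl⟩; exact ⟨⟨j, hj⟩, rfl⟩
      rw [h3] at h2
      exact h2
    let f : MM F i →+* A := (algebraMap (MM F i) L).codRestrict A fun z => hMA z z.2
    have htA : IsAlgebraic A (x : L) :=
      halg.ringHom_of_comp_eq f (RingHom.id L) f.injective (by ext z; rfl)
    exact htA.restrictScalars S
  · rw [eq_top_iff, ← hsup]
    refine iSup_le fun j => ?_
    by_cases h : j = i
    · subst h; exact le_sup_right
    · exact (le_MM F h).trans le_sup_left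

end

section

variable {k K L : Type*} [Field k] [CharZero k] [IsAlgClosed k] [Field K] [Field L] [Algebra k K]
  [Algebra k L] [Algebra K L] [IsScalarTower k K L] {n : ℕ}
  (F : Fin n → IntermediateField k L) [∀ i, IsFF k (F i)]
  {E0 : Fin n → Type*} [∀ i, Field (E0 i)] [∀ i, Algebra k (E0 i)] [∀ i, Algebra (E0 i) (F i)]
  [∀ i, Algebra (E0 i) K] [∀ i, Algebra (E0 i) L] [∀ i, IsScalarTower k (E0 i) (F i)]
  [∀ i, IsScalarTower k (E0 i) L] [∀ i, IsScalarTower k (E0 i) K]
  [∀ i, IsScalarTower (E0 i) (F i) L] [∀ i, IsScalarTower (E0 i) K L] [∀ i, IsFF k (E0 i)]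

/-- The coordinate vector fields. -/
structure Fr (x : ∀ i, E0 i) (dK : Fin n → Derivation k K K) (dL : Fin n → Derivation k L L)
    (dF : ∀ i, Derivation k (F i) (F i)) : Prop where
  xt : ∀ i, Transcendental k (x i)
  basisK : IsTranscendenceBasis k fun i => algebraMap (E0 i) K (x i)
  dKx : ∀ i j, dK i (algebraMap (E0 j) K (x j)) = if j = i then 1 else 0
  comp : ∀ i f, dL i (algebraMap K L f) = algebraMap K L (dK i f)
  self : ∀ i (β : F i), dL i (β : L) = (dF i β : L)
  ne : ∀ i, dF i ≠ 0
  other : ∀ i j, j ≠ i → ∀ β : F j, dL i (β : L) = 0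

variable {F}

theorem exists_fr (hsup : ⨆ i, F i = ⊤) (hn : Algebra.trdeg k L = n) (x : ∀ i, E0 i)
    (hx : ∀ i, Transcendental k (x i)) :
    ∃ (dK : Fin n → Derivation k K K) (dL : Fin n → Derivation k L L)
      (dF : ∀ i, Derivation k (F i) (F i)), Fr F x dK dL dF := by
  classical
  have hxF : ∀ i, Transcendental k (algebraMap (E0 i) (F i) (x i)) := fun i =>
    transcendental_map (E := F i) (hx i)
  have hbL := basis_of_iSup F hsup hn (fun i => algebraMap (E0 i) (F i) (x i)) hxF
  have hcoe : ∀ i, ((algebraMap (E0 i) (F i) (x i) : F i) : L) =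
      algebraMap K L (algebraMap (E0 i) K (x i)) := by
    intro i
    change algebraMap (F i) L (algebraMap (E0 i) (F i) (x i)) = _
    rw [← IsScalarTower.algebraMap_apply, ← IsScalarTower.algebraMap_apply]
  have hbL2 : IsTranscendenceBasis k fun i => algebraMap K L (algebraMap (E0 i) K (x i)) := by
    have h := hbL
    simp only [hcoe] at h
    exact h
  have hbK : IsTranscendenceBasis k fun i => algebraMap (E0 i) K (x i) :=
    basis_down (L := L) hn (fun i => algebraMap (E0 i) K (x i)) hbL2
  choose dK hdK using fun j => exists_dual (fun i => algebraMap (E0 i) K (x i)) hbK j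
  choose dL hdL using fun j =>
    exists_dual (fun i => algebraMap K L (algebraMap (E0 i) K (x i))) hbL2 j
  choose dF hdF hdFx using fun i => exists_ddx (hxF i)
  have hLx : ∀ i j, dL i ((algebraMap (E0 j) (F j) (x j) : F j) : L) = if j = i then 1 else 0 :=
    fun i j => by rw [hcoe]; exact hdL i j
  refine ⟨dK, dL, dF, hx, hbK, hdK, ?_, ?_, hdF, ?_⟩
  · intro i f
    refine der_comp (dK i) (dL i) _ hbK (fun j => ?_) f
    rw [hdL, hdK]
    split_ifs <;> simp
  · intro i β
    obtain ⟨r, hr1, hr2⟩ := ratio' (K := L) (hxF i) β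
    have h1 := hr1 (dF i)
    rw [hdFx, mul_one] at h1
    have h2 := hr2 (dL i)
    change dL i (β : L) = (r : L) * dL i ((algebraMap (E0 i) (F i) (x i) : F i) : L) at h2
    rw [hLx, if_pos rfl, mul_one] at h2
    rw [h2, h1]
  · intro i j hij β
    obtain ⟨r, hr1, hr2⟩ := ratio' (K := L) (hxF j) β
    have h2 := hr2 (dL i)
    change dL i (β : L) = (r : L) * dL i ((algebraMap (E0 j) (F j) (x j) : F j) : L) at h2
    rwa [hLx, if_neg hij, mul_zero] at h2

end

end Pool.Agent.W619.TW
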