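import Pool.Agent.W619.TW.NDefs

/-! Definitions: elliptic curves; varieties covered by images of open curves which are not of log
general type. -/

set_option autoImplicit false
set_option linter.overlappingInstances false
set_option linter.unusedSectionVars false

universe u v

open FF IntermediateField Pool.Agent.W619.PQ

namespace Pool.Agent.W619.TW

section

variable {k : Type u} {L : Type v} [Field k] [Field L] [Algebra k L]

/-- The curve `E` minus the set `T` of points is the projective line minus at most two points, or
an elliptic curve (`E` has a vector field without zeros and poles, and `T` is empty). -/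
def IsLow (E : IntermediateField k L) (T : Set (Place k E)) : Prop :=
  ((∃ t : E, k⟮t⟯ = ⊤) ∧ ∀ q₁ ∈ T, ∀ q₂ ∈ T, ∀ q₃ ∈ T, q₁ = q₂ ∨ q₁ = q₃ ∨ q₂ = q₃) ∨
    (T = ∅ ∧ ∃ D : Derivation k E E, ∀ w : Place k E, ∀ t : E, w.ord t = 1 →
      D t ≠ 0 ∧ w.ord (D t) = 0)

variable (k) (K : Type v) [Field K] [Algebra k K]

/-- The variety `U` of dimension `n` with function field `K`, where `Bd` is the set of places whose
centre is not on `U`, is covered by images of an open curve which is not of log general type:
there is a dominant rational map from the product of a variety `Y` of dimension `n - 1` (with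
function field `M`) and a curve (with function field `E`) minus a set `T` of points as in
`IsLow`, which is a morphism to `U` on the generic fibre over `Y`: no closed point of the
open curve over `M` is sent to the boundary. -/
def IsLowCovered (n : ℕ) (Bd : Place k K → Prop) : Prop :=
  ∃ (L : Type v) (_ : Field L) (_ : Algebra k L) (M E : IntermediateField k L)
    (T : Set (Place k E)) (φ : K →ₐ[k] L),
    Algebra.EssFiniteType k M ∧ Algebra.trdeg k M + 1 = n ∧ IsFF k E ∧ M ⊔ E = ⊤ ∧
    Algebra.trdeg k L = n ∧ IsLow E T ∧
    ∀ w : Place M L, (∀ q ∈ T, ∀ e : ℕ, 0 < e → ¬ ∀ f : E, w.ord (f : L) = e * q.ord f) →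
      ∀ (v : Place k K) (e : ℕ), 0 < e → (∀ f : K, w.ord (φ f) = e * v.ord f) → ¬ Bd v

end

end Pool.Agent.W619.TW
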