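import Pool.Agent.W619.TW.KNStm
import Pool.Agent.W619.TW.SDefs

/-! Quotients of products of open curves: log general type, or covered by images of open curves
which are not of log general type. -/

set_option autoImplicit false
set_option linter.overlappingInstances false
set_option linter.unusedSectionVars false

universe u v

open FF IntermediateField Pool.Agent.W619.PQ Pool.Agent.W619.PL

namespace Pool.Agent.W619.TW

open Pool.Agent.W603.LV

variable {k : Type v} {L : Type u} [Field k] [Field L] [Algebra k L]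

/-- The points of the factor over the boundary. -/
def TT (F : IntermediateField k L) {Q : IntermediateField k L} (h : Q ≤ F)
    (B : Set (Place k Q)) : Set (Place k F) := {w | ∃ p ∈ B, ∃ e, LiesOver h w p e}

theorem low_of_negative {Q F : IntermediateField k L} (h : Q ≤ F) {B : Set (Place k Q)}
    (hn : IsNegative h B) : IsLow F (TT F h B) := by
  left
  exact ⟨hn.1, fun q₁ h₁ q₂ h₂ q₃ _ => Or.inl (hn.2 q₁ q₂ h₁ h₂)⟩

theorem low_of_flat [CharZero k] [IsAlgClosed k] {Q F : IntermediateField k L} [IsFF k F]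
    (h : Q ≤ F) {B : Set (Place k Q)} (hfin : (TT F h B).Finite) (hn : IsFlat h B) :
    IsLow F (TT F h B) := by
  classical
  obtain ⟨D, hD⟩ := hn
  have hD0 : D ≠ 0 := by
    rintro rfl
    obtain ⟨w, -⟩ := exists_place (k := k) (K := F)
    obtain ⟨t, -, ht⟩ := w.surj
    exact (hD w t ht).1 rfl
  have hvo : ∀ w : Place k F, vo w D = if w ∈ TT F h B then 1 else 0 := by
    intro w
    obtain ⟨t, -, ht⟩ := w.surj
    rw [← vo_eq w ht hD0]
    exact (hD w t ht).2
  have h1 : ∑ q ∈ hfin.toFinset, vo q D = - canDeg k F := canDeg_finset hD0 _ fun q hq => by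
    rw [Set.Finite.mem_toFinset]
    by_contra hcon
    apply hq
    rw [hvo, if_neg hcon]
  have h2 : ∑ q ∈ hfin.toFinset, vo q D = (TT F h B).ncard := by
    rw [Set.ncard_eq_toFinset_card _ hfin, Finset.card_eq_sum_ones, Nat.cast_sum]
    refine Finset.sum_congr rfl fun q hq => ?_
    rw [hvo, if_pos ((hfin.mem_toFinset).1 hq)]
    rfl
  by_cases hrat : ∃ t : F, k⟮t⟯ = ⊤
  · left
    refine ⟨hrat, fun q₁ h₁ q₂ h₂ q₃ h₃ => ?_⟩
    obtain ⟨t, ht⟩ := hrat
    rw [canDeg_rational ht, h2] at h1
    by_contra hcon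
    push Not at hcon
    have h3 : 2 < (TT F h B).ncard :=
      (Set.two_lt_ncard_iff hfin).2 ⟨q₁, q₂, q₃, h₁, h₂, h₃, hcon.1, hcon.2.1, hcon.2.2⟩
    omega
  · right
    have h3 := canDeg_nonneg hrat
    have h4 : (TT F h B).ncard = 0 := by omega
    have h5 : TT F h B = ∅ := (Set.ncard_eq_zero hfin).1 h4
    refine ⟨h5, D, fun w t ht => ⟨(hD w t ht).1, ?_⟩⟩
    have h6 := (hD w t ht).2
    rw [if_neg] at h6
    · exact h6
    · intro h7
      have : w ∈ TT F h B := h7
      rw [h5] at this
      exact this

theorem TT_finite [CharZero k] [IsAlgClosed k] (G : Subgroup (L ≃ₐ[k] L)) [Finite G]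
    (F : IntermediateField k L) [IsFF k F]
    {B : Set (Place k ↥(F ⊓ fixedField G))} (hB : B.Finite) : (TT F inf_le_left B).Finite := by
  choose x hx0 hx using fun p : Place k ↥(F ⊓ fixedField G) => p.surj
  refine Set.Finite.subset (hB.biUnion fun p _ =>
    finite_support (k := k) (inclusion (inf_le_left : F ⊓ fixedField G ≤ F) (x p))) ?_
  rintro w ⟨p, hp, r, hr, hw⟩
  simp only [Set.mem_iUnion, Set.mem_ofPred_eq]
  refine ⟨p, hp, ?_⟩
  rw [hw, hx, mul_one]
  omega

theorem covered_of_low [CharZero k] [IsAlgClosed k] (n : ℕ) (hn : Algebra.trdeg k L = n)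
    (F : Fin n → IntermediateField k L) [hF : ∀ i, IsFF k (F i)] (hsup : ⨆ i, F i = ⊤)
    (G : Subgroup (L ≃ₐ[k] L)) (B : ∀ i, Set (Place k ↥(F i ⊓ fixedField G))) (i : Fin n)
    (hlow : IsLow (F i) (TT (F i) inf_le_left (B i))) :
    IsLowCovered k (fixedField G) n (QBd F G B) := by
  have hcur := cur_MM F hsup hn i
  have hFF : IsFF (MM F i) L := hcur.isFF
  refine ⟨L, inferInstance, inferInstance, MM F i, F i, TT (F i) inf_le_left (B i),
    (fixedField G).val, ?_, ?_, hF i, hcur.sup, hn, hlow, ?_⟩
  · exact essFiniteType_iff.2 (fg_iSup fun j => essFiniteType_iff.1 (IsFF.ess))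
  · rw [← hn, ← trdeg_add_eq k (MM F i) (A := L), hFF.trdeg]
  · rintro w hw v e he hwv ⟨j, p, hpB, e', hvp⟩
    obtain ⟨s, hs0, hs⟩ := p.surj
    have h1 : w.ord (s : L) = e * e' := by
      have h2 := hwv (inclusion inf_le_right s)
      rw [hvp.2, hs, mul_one] at h2
      exact h2
    have h3 : (0 : ℤ) < e * e' := by
      have := hvp.1
      positivity
    by_cases hj : j = i
    · subst hj
      let wL : Place k L :=
        { ord := w.ord
          ord_zero := w.ord_zero
          ord_mul := w.ord_mul
          ord_add := w.ord_add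
          ord_const := fun {c} hc => by
            rw [IsScalarTower.algebraMap_apply k (MM F j) L]
            exact w.ord_const (by simpa using hc)
          surj := w.surj }
      have hs1 : wL.ord (algebraMap (F j) L (inclusion inf_le_left s)) = e * e' := h1
      obtain ⟨b, q, hq⟩ := exists_over (K := F j) wL ⟨inclusion inf_le_left s, by
        rw [hs1]; exact h3.ne'⟩
      have hb : (0 : ℤ) < b := by exact_mod_cast hq.1
      have hqs : (b : ℤ) * q.ord (inclusion inf_le_left s) = e * e' := by
        rw [← hq.2, hs1]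
      have hr0 : 0 < q.ord (inclusion inf_le_left s) := by
        by_contra hcon
        push Not at hcon
        have := mul_nonpos_of_nonneg_of_nonpos hb.le hcon
        omega
      have hall : ∀ f : ↥(F j ⊓ fixedField G), q.ord (inclusion inf_le_left f) =
          q.ord (inclusion inf_le_left s) * p.ord f := by
        intro f
        have h4 : wL.ord (algebraMap (F j) L (inclusion inf_le_left f)) =
            e * (e' * p.ord f) := by
          rw [← hvp.2]
          exact hwv (inclusion inf_le_right f)
        rw [hq.2] at h4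
        have h5 : (b : ℤ) * q.ord (inclusion inf_le_left f) =
            b * (q.ord (inclusion inf_le_left s) * p.ord f) := by
          rw [h4, ← mul_assoc, ← mul_assoc, hqs]
        exact mul_left_cancel₀ hb.ne' h5
      refine hw q ⟨p, hpB, (q.ord (inclusion inf_le_left s)).toNat, ?_, fun f => ?_⟩ b hq.1
        fun f => hq.2 f
      · omega
      · rw [hall f, Int.toNat_of_nonneg hr0.le]
    · have h4 : (s : L) ∈ MM F i := le_MM F hj s.2.1
      have h5 : w.ord (algebraMap (MM F i) L ⟨_, h4⟩) = 0 := by
        apply w.ord_const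
        intro h
        apply hs0
        apply Subtype.ext
        have h6 : (s : L) = 0 := congrArg (fun z : MM F i => (z : L)) h
        exact h6
      change w.ord (s : L) = 0 at h5
      omega

theorem gt_main [CharZero k] [IsAlgClosed k] (n : ℕ) (hn : Algebra.trdeg k L = n)
    (F : Fin n → IntermediateField k L) (hF : ∀ i, IsFF k (F i)) (hsup : ⨆ i, F i = ⊤)
    (G : Subgroup (L ≃ₐ[k] L)) [Finite G] (hst : ∀ i, ∀ g ∈ G, ∀ z ∈ F i, g z ∈ F i)
    (B : ∀ i, Set (Place k ↥(F i ⊓ fixedField G))) (hB : ∀ i, (B i).Finite) (N : Fin n → ℕ)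
    (hN : ∀ i, StrictAdmissible inf_le_left (B i) (N i) ∨
      (IsFlat inf_le_left (B i) ∧ Admissible inf_le_left (B i) (N i)))
    (hrot : RotCond G F B N) :
    KodGe k (fixedField G) n (QBd F G B) n ∨ IsLowCovered k (fixedField G) n (QBd F G B) := by
  obtain ⟨h1, h2⟩ := kn_main n hn F hF hsup G hst B hB N hN hrot
  by_cases hneg : ∃ i, IsNegative inf_le_left (B i)
  · obtain ⟨i, hi⟩ := hneg
    exact Or.inr (covered_of_low n hn F hsup G B i (low_of_negative _ hi))
  · by_cases hfl : ∃ i, IsFlat inf_le_left (B i)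
    · obtain ⟨i, hi⟩ := hfl
      exact Or.inr (covered_of_low n hn F hsup G B i (low_of_flat _ (TT_finite G (F i) (hB i)) hi))
    · left
      push Not at hneg hfl
      have h3 : {i | ¬ IsFlat inf_le_left (B i)} = Set.univ :=
        Set.eq_univ_of_forall fun i => hfl i
      have h4 := (h2 hneg).1
      rw [h3, Set.ncard_univ, Nat.card_eq_fintype_card, Fintype.card_fin] at h4
      exact h4

end Pool.Agent.W619.TW
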