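import Pool.Agent.W619.TW.GT
import Pool.Agent.W619.TW.KNCompact

/-! Quotients of products of curves: general type, or covered by images of a rational or elliptic
curve. -/

set_option autoImplicit false
set_option linter.overlappingInstances false
set_option linter.unusedSectionVars false

universe u v

open FF IntermediateField Pool.Agent.W619.PQ Pool.Agent.W619.PL

namespace Pool.Agent.W619.TW

section

variable (k : Type v) (K : Type u) [Field k] [Field K] [Algebra k K]

/-- The variety of dimension `n` with function field `K` is covered by images of a fixed curve which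
is rational or elliptic: there is a dominant rational map to it from the product of a variety `Y`
of dimension `n - 1` (with function field `M`) and such a curve (with function field `E`); `L` is
the function field of the product. -/
def IsRatEllCovered (n : ℕ) : Prop :=
  ∃ (L : Type u) (_ : Field L) (_ : Algebra k L) (M E : IntermediateField k L),
    Algebra.EssFiniteType k M ∧ Algebra.trdeg k M + 1 = n ∧ IsFF k E ∧ M ⊔ E = ⊤ ∧
    Algebra.trdeg k L = n ∧ ((∃ t : E, k⟮t⟯ = ⊤) ∨ IsElliptic E) ∧ Nonempty (K →ₐ[k] L)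

end

variable {k : Type v} {L : Type u} [Field k] [Field L] [Algebra k L]

theorem gt_compact [CharZero k] [IsAlgClosed k] (n : ℕ) (hn : Algebra.trdeg k L = n)
    (F : Fin n → IntermediateField k L) (hF : ∀ i, IsFF k (F i)) (hsup : ⨆ i, F i = ⊤)
    (G : Subgroup (L ≃ₐ[k] L)) [Finite G] (hst : ∀ i, ∀ g ∈ G, ∀ z ∈ F i, g z ∈ F i)
    (N : Fin n → ℕ)
    (hN : ∀ i, StrictAdmissible (inf_le_left : F i ⊓ fixedField G ≤ F i) ∅ (N i) ∨
      (IsElliptic (F i) ∧ Admissible (inf_le_left : F i ⊓ fixedField G ≤ F i) ∅ (N i)))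
    (hrot : RotCond G F (fun _ => ∅) N) :
    KodGe k (fixedField G) n (fun _ => False) n ∨ IsRatEllCovered k (fixedField G) n := by
  obtain ⟨-, h2⟩ := kn_compact n hn F hF hsup G hst N hN hrot
  have key : ∀ i, ((∃ t : F i, k⟮t⟯ = ⊤) ∨ IsElliptic (F i)) →
      IsRatEllCovered k (fixedField G) n := by
    intro i hi
    have hcur := cur_MM F hsup hn i
    have hFF : IsFF (MM F i) L := hcur.isFF
    refine ⟨L, inferInstance, inferInstance, MM F i, F i, ?_, ?_, hF i, hcur.sup, hn, hi,
      ⟨(fixedField G).val⟩⟩
    · exact essFiniteType_iff.2 (fg_iSup fun j => essFiniteType_iff.1 (IsFF.ess))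
    · rw [← hn, ← trdeg_add_eq k (MM F i) (A := L), hFF.trdeg]
  by_cases hrat : ∃ i, ∃ t : F i, k⟮t⟯ = ⊤
  · obtain ⟨i, hi⟩ := hrat
    exact Or.inr (key i (Or.inl hi))
  · by_cases hell : ∃ i, IsElliptic (F i)
    · obtain ⟨i, hi⟩ := hell
      exact Or.inr (key i (Or.inr hi))
    · left
      have h3 : {i | ¬ IsElliptic (F i)} = Set.univ :=
        Set.eq_univ_of_forall fun i hi => hell ⟨i, hi⟩
      have h4 := (h2 fun i hi => hrat ⟨i, hi⟩).1
      rw [h3, Set.ncard_univ, Nat.card_eq_fintype_card, Fintype.card_fin] at h4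
      exact h4

end Pool.Agent.W619.TW
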