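import Pool.Agent.W619.TW.Frame

/-! Intersection of the spans over the composita. -/

set_option autoImplicit false
set_option linter.overlappingInstances false
set_option linter.unusedSectionVars false

open Polynomial FF IntermediateField IsDedekindDomain

namespace Pool.Agent.W619.TW

open Pool.Agent.W603.LV Pool.Agent.W619.PQ

section

variable {k L : Type*} [Field k] [Field L] [Algebra k L] [CharZero k] [IsAlgClosed k]
  {M F : IntermediateField k L}

/-- `M` and `F` are linearly disjoint. -/
theorem Cur.linDisj (h : Cur M F) {ι : Type*} (m : ι → M) (hm : LinearIndependent k m) :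
    LinearIndependent F (fun i => (m i : L)) := by
  have hff := h.ff
  obtain ⟨q, -⟩ := exists_place (k := k) (K := F)
  obtain ⟨w, hw⟩ := h.exists_ext q
  rw [linearIndependent_iff']
  intro s g hg i hi
  by_contra hne
  have h1 := res' w q 1 one_pos (fun β => by rw [hw]; simp) s m hm g (q.ord (g i) + 1) (by
    left
    rw [← hg]
    refine Finset.sum_congr rfl fun i _ => ?_
    rw [Algebra.smul_def, mul_comm]
    rfl) i hi
  have := h1.resolve_left hne
  omega

/-- Disjoint subspaces of `M` generate disjoint spaces over `F`. -/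
theorem Cur.disj (h : Cur M F) (Q C : Submodule k L) (hQ : ∀ z ∈ Q, z ∈ M) (hC : ∀ z ∈ C, z ∈ M)
    (hd : Disjoint Q C) :
    Disjoint (Submodule.span F (Q : Set L)) (Submodule.span F (C : Set L)) := by
  classical
  let bQ := Module.Basis.ofVectorSpace k Q
  let bC := Module.Basis.ofVectorSpace k C
  let v : (Module.Basis.ofVectorSpaceIndex k Q) ⊕ (Module.Basis.ofVectorSpaceIndex k C) → M :=
    Sum.elim (fun i => ⟨(bQ i : L), hQ _ (bQ i).2⟩) (fun i => ⟨(bC i : L), hC _ (bC i).2⟩)
  have hvL : LinearIndependent k (fun i => (v i : L)) := by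
    rw [linearIndependent_sum]
    refine ⟨?_, ?_, ?_⟩
    · exact bQ.linearIndependent.map' Q.subtype (Submodule.ker_subtype Q)
    · exact bC.linearIndependent.map' C.subtype (Submodule.ker_subtype C)
    · refine hd.mono ?_ ?_
      · rw [Submodule.span_le]
        rintro _ ⟨i, rfl⟩
        exact (bQ i).2
      · rw [Submodule.span_le]
        rintro _ ⟨i, rfl⟩
        exact (bC i).2
  have hv : LinearIndependent k v :=
    LinearIndependent.of_comp (M.val.toLinearMap) hvL
  have h1 := h.linDisj v hv
  rw [linearIndependent_sum] at h1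
  have key : ∀ (Q : Submodule k L), Submodule.span F (Q : Set L) ≤
      Submodule.span F (Set.range fun i => ((Module.Basis.ofVectorSpace k Q i : Q) : L)) := by
    intro Q
    rw [Submodule.span_le]
    intro z hz
    have h2 : (⟨z, hz⟩ : Q) ∈ Submodule.span k (Set.range (Module.Basis.ofVectorSpace k Q)) := by
      rw [(Module.Basis.ofVectorSpace k Q).span_eq]; trivial
    have h3 : ∀ y : Q, y ∈ Submodule.span k (Set.range (Module.Basis.ofVectorSpace k Q)) →
        (y : L) ∈ Submodule.span F
          (Set.range fun i => ((Module.Basis.ofVectorSpace k Q i : Q) : L)) := by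
      intro y hy
      induction hy using Submodule.span_induction with
      | mem x hx =>
        obtain ⟨i, rfl⟩ := hx
        exact Submodule.subset_span ⟨i, rfl⟩
      | zero => exact Submodule.zero_mem _
      | add x y _ _ hx hy => exact Submodule.add_mem _ hx hy
      | smul c x _ hx =>
        have := Submodule.smul_mem _ (algebraMap k F c) hx
        convert this using 1
        change (c • (x : L)) = _
        rw [Algebra.smul_def, Algebra.smul_def]
        rfl
    exact h3 _ h2
  exact h1.2.2.mono (key Q) (key C)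

/-- An intermediate field as a subspace. -/
def sm (P : IntermediateField k L) : Submodule k L := Subalgebra.toSubmodule P.toSubalgebra

theorem mem_sm {P : IntermediateField k L} {z : L} : z ∈ sm P ↔ z ∈ P := Iff.rfl

theorem span_mul_mem (P : IntermediateField k L) (Q : Submodule k L)
    (hQ : ∀ p ∈ P, ∀ z ∈ Q, p * z ∈ Q) {a : L} (ha : a ∈ RR P F) {z : L}
    (hz : z ∈ Submodule.span F (Q : Set L)) : a * z ∈ Submodule.span F (Q : Set L) := by
  have h1 := RR.mem_span ha
  clear ha
  induction h1 using Submodule.span_induction with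
  | mem p hp =>
    induction hz using Submodule.span_induction with
    | mem x hx => exact Submodule.subset_span (hQ p hp x hx)
    | zero => rw [mul_zero]; exact zero_mem _
    | add x y _ _ hx hy => rw [mul_add]; exact add_mem hx hy
    | smul c x _ hx =>
      have h2 : p * (c • x) = c • (p * x) := by rw [Algebra.smul_def, Algebra.smul_def]; ring
      rw [h2]; exact Submodule.smul_mem _ _ hx
  | zero => rw [zero_mul]; exact zero_mem _
  | add x y _ _ hx hy => rw [add_mul]; exact add_mem hx hy
  | smul c x _ hx => rw [smul_mul_assoc]; exact Submodule.smul_mem _ _ hx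

/-- An element of the product of the spaces lies in the span over `F`. -/
theorem mul_le_span (Q V : Submodule k L) (hV : ∀ z ∈ V, z ∈ F) {z : L} (hz : z ∈ Q * V) :
    z ∈ Submodule.span F (Q : Set L) := by
  induction hz using Submodule.mul_induction_on' with
  | mem_mul_mem a ha b hb =>
    have h1 : a * b = (⟨b, hV b hb⟩ : F) • a := by rw [Algebra.smul_def, mul_comm]; rfl
    rw [h1]
    exact Submodule.smul_mem _ _ (Submodule.subset_span ha)
  | add x _ y _ hx hy => exact add_mem hx hy

/-- Fractions of the ring generated by `P` and `F`. -/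
theorem frac_sup {P F : IntermediateField k L} {z : L} (hz : z ∈ P ⊔ F) :
    ∃ a ∈ RR P F, ∃ b ∈ RR P F, b ≠ 0 ∧ z = a / b := by
  have hz : z ∈ IntermediateField.adjoin F (P : Set L) := by
    have h1 : P ⊔ F ≤ (IntermediateField.adjoin F (P : Set L)).restrictScalars k := by
      rw [sup_le_iff]
      constructor
      · intro y hy
        rw [mem_restrictScalars]
        exact subset_adjoin F _ hy
      · intro y hy
        rw [mem_restrictScalars]
        exact (IntermediateField.adjoin F (P : Set L)).algebraMap_mem ⟨y, hy⟩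
    exact h1 hz
  rw [IntermediateField.mem_adjoin_iff_div] at hz
  obtain ⟨a, ha, b, hb, rfl⟩ := hz
  by_cases hb0 : b = 0
  · exact ⟨0, zero_mem _, 1, one_mem _, one_ne_zero, by rw [hb0]; simp⟩
  · exact ⟨a, ha, b, hb, hb0, rfl⟩

/-- A common denominator. -/
theorem common_den {P F : IntermediateField k L} (U : Submodule k L) {z : L}
    (hz : z ∈ sm (P ⊔ F) * U) : ∃ δ ∈ RR P F, δ ≠ 0 ∧
      δ * z ∈ Submodule.span F ((sm P * U : Submodule k L) : Set L) := by
  induction hz using Submodule.mul_induction_on' with
  | mem_mul_mem a ha b hb =>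
    obtain ⟨x, hx, y, hy, hy0, rfl⟩ := frac_sup (mem_sm.1 ha)
    refine ⟨y, hy, hy0, ?_⟩
    have h1 : y * (x / y * b) = x * b := by field_simp
    rw [h1]
    refine span_mul_mem P (sm P * U) ?_ hx (Submodule.subset_span ?_)
    · intro p hp z hz
      induction hz using Submodule.mul_induction_on' with
      | mem_mul_mem a ha b hb =>
        rw [← mul_assoc]
        exact Submodule.mul_mem_mul (mem_sm.2 (mul_mem hp (mem_sm.1 ha))) hb
      | add x _ y _ hx hy => rw [mul_add]; exact add_mem hx hy
    · have := Submodule.mul_mem_mul (mem_sm.2 (one_mem P)) hb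
      rwa [one_mul] at this
  | add x _ y _ hx hy =>
    obtain ⟨δ, hδ, hδ0, h1⟩ := hx
    obtain ⟨ε, hε, hε0, h2⟩ := hy
    refine ⟨δ * ε, mul_mem hδ hε, mul_ne_zero hδ0 hε0, ?_⟩
    have hst : ∀ p ∈ P, ∀ z ∈ sm P * U, p * z ∈ sm P * U := by
      intro p hp z hz
      induction hz using Submodule.mul_induction_on' with
      | mem_mul_mem a ha b hb =>
        rw [← mul_assoc]
        exact Submodule.mul_mem_mul (mem_sm.2 (mul_mem hp (mem_sm.1 ha))) hb
      | add x _ y _ hx hy => rw [mul_add]; exact add_mem hx hy
    have h3 : δ * ε * (x + y) = ε * (δ * x) + δ * (ε * y) := by ring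
    rw [h3]
    exact add_mem (span_mul_mem P _ hst hε h1) (span_mul_mem P _ hst hδ h2)

/-- The basic step: intersection of the spans. -/
theorem Cur.step (h : Cur M F) {P : IntermediateField k L} (hP : P ≤ M) (U V : Submodule k L)
    (hU : ∀ z ∈ U, z ∈ M) (hV : ∀ z ∈ V, z ∈ F) {z : L} (h1 : z ∈ sm (P ⊔ F) * U)
    (h2 : z ∈ sm M * V) : z ∈ sm P * (U * V) := by
  classical
  -- the `P`-spaces
  let Q : Submodule P L := Submodule.span P (U : Set L)
  let MP : Submodule P L :=
    { carrier := {z | z ∈ M}
      add_mem' := fun ha hb => add_mem (S := IntermediateField k L) ha hb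
      zero_mem' := zero_mem M
      smul_mem' := fun c x hx => by
        change c • x ∈ M
        rw [Algebra.smul_def]
        exact mul_mem (hP c.2) hx }
  have hQM : Q ≤ MP := Submodule.span_le.2 fun z hz => hU z hz
  obtain ⟨C', hC'⟩ := Submodule.exists_isCompl Q
  let C : Submodule P L := C' ⊓ MP
  have hQC : Q ⊔ C = MP := by
    have := sup_inf_assoc_of_le (x := Q) C' (z := MP) hQM
    rw [hC'.sup_eq_top, top_inf_eq] at this
    exact this.symm
  have hdisj : Disjoint Q C := hC'.disjoint.mono_right inf_le_left
  let Qk : Submodule k L := Q.restrictScalars k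
  let Ck : Submodule k L := C.restrictScalars k
  have hQk : Qk = sm P * U := by
    apply le_antisymm
    · have hst : ∀ p ∈ P, ∀ z ∈ sm P * U, p * z ∈ sm P * U := by
        intro p hp z hz
        induction hz using Submodule.mul_induction_on' with
        | mem_mul_mem a ha b hb =>
          rw [← mul_assoc]
          exact Submodule.mul_mem_mul (mem_sm.2 (mul_mem hp (mem_sm.1 ha))) hb
        | add x _ y _ hx hy => rw [mul_add]; exact add_mem hx hy
      have key : ∀ y, y ∈ Submodule.span P (U : Set L) → y ∈ sm P * U := by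
        intro y hy
        induction hy using Submodule.span_induction with
        | mem x hx =>
          have := Submodule.mul_mem_mul (mem_sm.2 (one_mem P)) hx
          rwa [one_mul] at this
        | zero => exact zero_mem _
        | add x y _ _ hx hy => exact add_mem hx hy
        | smul c x _ hx =>
          rw [Algebra.smul_def]
          exact hst _ c.2 _ hx
      exact fun y hy => key y hy
    · rw [Submodule.mul_le]
      intro a ha b hb
      exact Q.smul_mem (⟨a, mem_sm.1 ha⟩ : P) (Submodule.subset_span hb)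
  have hstab : ∀ p ∈ P, ∀ z ∈ Qk, p * z ∈ Qk := fun p hp z hz => Q.smul_mem (⟨p, hp⟩ : P) hz
  have hstabC : ∀ p ∈ P, ∀ z ∈ Ck, p * z ∈ Ck := fun p hp z hz => C.smul_mem (⟨p, hp⟩ : P) hz
  have hdk : Disjoint Qk Ck := by
    rw [Submodule.disjoint_def]
    intro y hy1 hy2
    exact (Submodule.disjoint_def.1 hdisj) y hy1 hy2
  have hspan := h.disj Qk Ck (fun z hz => hQM hz) (fun z hz => (inf_le_right : C ≤ MP) hz) hdk
  -- decomposition of `z`
  obtain ⟨z', hz', z'', hz'', hsum⟩ : ∃ z' ∈ Qk * V, ∃ z'' ∈ Ck * V, z' + z'' = z := by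
    clear h1
    induction h2 using Submodule.mul_induction_on' with
    | mem_mul_mem a ha b hb =>
      have h3 : a ∈ Q ⊔ C := by rw [hQC]; exact mem_sm.1 ha
      obtain ⟨a1, ha1, a2, ha2, rfl⟩ := Submodule.mem_sup.1 h3
      exact ⟨a1 * b, Submodule.mul_mem_mul ha1 hb, a2 * b, Submodule.mul_mem_mul ha2 hb, by ring⟩
    | add x _ y _ hx hy =>
      obtain ⟨x1, hx1, x2, hx2, rfl⟩ := hx
      obtain ⟨y1, hy1, y2, hy2, rfl⟩ := hy
      exact ⟨x1 + y1, add_mem hx1 hy1, x2 + y2, add_mem hx2 hy2, by ring⟩
  obtain ⟨δ, hδ, hδ0, h3⟩ := common_den U h1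
  rw [← hQk] at h3
  have h4 : δ * z' ∈ Submodule.span F (Qk : Set L) :=
    span_mul_mem P Qk hstab hδ (mul_le_span Qk V hV hz')
  have h5 : δ * z'' ∈ Submodule.span F (Ck : Set L) :=
    span_mul_mem P Ck hstabC hδ (mul_le_span Ck V hV hz'')
  have h6 : δ * z'' ∈ Submodule.span F (Qk : Set L) := by
    have : δ * z'' = δ * z - δ * z' := by rw [← hsum]; ring
    rw [this]
    exact sub_mem h3 h4
  have h7 := Submodule.disjoint_def.1 hspan _ h6 h5
  have h8 : z'' = 0 := (mul_eq_zero.1 h7).resolve_left hδ0
  rw [← hsum, h8, add_zero, ← mul_assoc, ← hQk]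
  exact hz'

open scoped Pointwise in
/-- A finite set spanning a product. -/
theorem exists_span_prod {ι : Type*} [DecidableEq ι] (T : Finset ι) (V : ι → Submodule k L) (d : ι → ℕ)
    (hV : ∀ i ∈ T, ∃ t : Finset L, t.card ≤ d i ∧ V i = Submodule.span k (t : Set L)) :
    ∃ t : Finset L, t.card ≤ ∏ i ∈ T, d i ∧ ∏ i ∈ T, V i = Submodule.span k (t : Set L) := by
  classical
  induction T using Finset.induction_on with
  | empty => exact ⟨{1}, by simp, by simp [Submodule.one_eq_span]⟩
  | insert a T ha ih =>
    obtain ⟨t, ht, ht2⟩ := ih fun i hi => hV i (Finset.mem_insert_of_mem hi)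
    obtain ⟨u, hu, hu2⟩ := hV a (Finset.mem_insert_self a T)
    refine ⟨u * t, ?_, ?_⟩
    · rw [Finset.prod_insert ha]
      exact Finset.card_mul_le.trans (Nat.mul_le_mul hu ht)
    · rw [Finset.prod_insert ha, ht2, hu2, Submodule.span_mul_span, Finset.coe_mul]

end

section

variable {k L : Type*} [Field k] [Field L] [Algebra k L] [CharZero k] [IsAlgClosed k] {n : ℕ}
  {F : Fin n → IntermediateField k L} [∀ i, IsFF k (F i)]

/-- Intersection of all the spans. -/
theorem inter_all (hsup : ⨆ i, F i = ⊤) (hn : Algebra.trdeg k L = n) (V : Fin n → Submodule k L)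
    (hV : ∀ i, ∀ z ∈ V i, z ∈ F i) (z : L) (hz : ∀ i, z ∈ sm (MM F i) * V i) :
    z ∈ ∏ i, V i := by
  classical
  have key : ∀ T : Finset (Fin n), z ∈ sm (⨆ j : {j : Fin n // j ∉ T}, F j.1) * ∏ i ∈ T, V i := by
    intro T
    induction T using Finset.induction_on with
    | empty =>
      have h1 : (⨆ j : {j : Fin n // j ∉ (∅ : Finset (Fin n))}, F j.1) = ⊤ := by
        rw [eq_top_iff, ← hsup]
        exact iSup_le fun j =>
          le_iSup (fun j : {j : Fin n // j ∉ (∅ : Finset (Fin n))} => F j.1) ⟨j, by simp⟩
      rw [h1, Finset.prod_empty, mul_one]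
      trivial
    | insert a T ha ih =>
      rw [Finset.prod_insert ha, mul_comm (V a)]
      refine (cur_MM F hsup hn a).step (P := ⨆ j : {j : Fin n // j ∉ insert a T}, F j.1) ?_
        (∏ i ∈ T, V i) (V a) ?_ (hV a) ?_ (hz a)
      · refine iSup_le fun j => le_MM F fun h => j.2 ?_
        rw [h]; exact Finset.mem_insert_self _ _
      · have h2 : ∀ T' : Finset (Fin n), T' ⊆ T → (∏ i ∈ T', V i) ≤ sm (MM F a) := by
          intro T'
          induction T' using Finset.induction_on with
          | empty =>
            intro _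
            rw [Finset.prod_empty, Submodule.one_le]
            exact mem_sm.2 (one_mem _)
          | insert b T' hb ih2 =>
            intro hsub
            rw [Finset.prod_insert hb, Submodule.mul_le]
            intro x hx y hy
            have hbT : b ∈ T := hsub (Finset.mem_insert_self _ _)
            have hba : b ≠ a := fun h => ha (h ▸ hbT)
            exact mem_sm.2 (mul_mem (le_MM F hba (hV b x hx))
              (mem_sm.1 (ih2 (fun c hc => hsub (Finset.mem_insert_of_mem hc)) hy)))
        exact fun y hy => mem_sm.1 (h2 T (Finset.Subset.refl _) hy)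
      · have h3 : (⨆ j : {j : Fin n // j ∉ T}, F j.1) ≤
            (⨆ j : {j : Fin n // j ∉ insert a T}, F j.1) ⊔ F a := by
          refine iSup_le fun j => ?_
          by_cases hj : j.1 = a
          · rw [hj]; exact le_sup_right
          · exact (le_iSup (fun j : {j : Fin n // j ∉ insert a T} => F j.1)
              ⟨j.1, by simp [hj, j.2]⟩).trans le_sup_left
        have h4 : sm (⨆ j : {j : Fin n // j ∉ T}, F j.1) ≤
            sm ((⨆ j : {j : Fin n // j ∉ insert a T}, F j.1) ⊔ F a) :=
          fun y hy => mem_sm.2 (h3 (mem_sm.1 hy))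
        exact (mul_le_mul' h4 le_rfl) ih
  have h1 := key Finset.univ
  have h2 : (⨆ j : {j : Fin n // j ∉ (Finset.univ : Finset (Fin n))}, F j.1) = ⊥ := by
    rw [eq_bot_iff]
    exact iSup_le fun j => absurd (Finset.mem_univ _) j.2
  rw [h2] at h1
  have h3 : sm (⊥ : IntermediateField k L) = 1 := by
    ext y
    rw [mem_sm, IntermediateField.mem_bot, Submodule.mem_one]
    rfl
  rw [h3, one_mul] at h1
  exact h1

end

end Pool.Agent.W619.TW
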