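import Pool.Agent.W619.TW.Bound
import Pool.Agent.W619.TW.Inter

/-! The global bound for sections of `m (K_X + D) + j A`. -/

set_option autoImplicit false
set_option linter.overlappingInstances false
set_option linter.unusedSectionVars false

open Polynomial FF IntermediateField IsDedekindDomain

namespace Pool.Agent.W619.TW

open Pool.Agent.W603.LV Pool.Agent.W619.PQ

section

variable {k L : Type*} [Field k] [Field L] [Algebra k L] {n : ℕ}
  (F : Fin n → IntermediateField k L)

/-- The ring generated by all the factors. -/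
def RT : Subalgebra k L := Algebra.adjoin k (⋃ i, (F i : Set L))

variable {F}

theorem frac_RT (hsup : ⨆ i, F i = ⊤) (z : L) : ∃ b ∈ RT F, b ≠ 0 ∧ b * z ∈ RT F := by
  have hz : z ∈ IntermediateField.adjoin k (⋃ i, (F i : Set L)) := by
    have h1 : (⨆ i, F i) ≤ IntermediateField.adjoin k (⋃ i, (F i : Set L)) :=
      iSup_le fun i y hy => subset_adjoin k _ (Set.mem_iUnion.2 ⟨i, hy⟩)
    apply h1
    rw [hsup]; trivial
  rw [IntermediateField.mem_adjoin_iff_div] at hz
  obtain ⟨a, ha, b, hb, rfl⟩ := hz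
  by_cases hb0 : b = 0
  · exact ⟨1, one_mem _, one_ne_zero, by rw [hb0]; simp⟩
  · exact ⟨b, hb, hb0, by rw [mul_div_cancel₀ _ hb0]; exact ha⟩

theorem RT_le (i : Fin n) {z : L} (hz : z ∈ RT F) : z ∈ RR (MM F i) (F i) := by
  have h : (⋃ i, (F i : Set L)) ⊆ (((RR (MM F i) (F i)).restrictScalars k : Subalgebra k L) :
      Set L) := by
    rintro y hy
    obtain ⟨l, hl⟩ := Set.mem_iUnion.1 hy
    by_cases h : l = i
    · subst h; exact RR.right hl
    · exact RR.left (le_MM F h hl)
  exact (Algebra.adjoin_le h) hz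

theorem exists_den (hsup : ⨆ i, F i = ⊤) {K : Type*} [Field K] [Algebra K L] (S : Finset K) :
    ∃ b ∈ RT F, b ≠ 0 ∧ ∀ s ∈ S, b * algebraMap K L s ∈ RT F := by
  classical
  induction S using Finset.induction_on with
  | empty => exact ⟨1, one_mem _, one_ne_zero, by simp⟩
  | insert a S _ ih =>
    obtain ⟨b, hb, hb0, hbS⟩ := ih
    obtain ⟨c, hc, hc0, hca⟩ := frac_RT hsup (algebraMap K L a)
    refine ⟨b * c, mul_mem hb hc, mul_ne_zero hb0 hc0, fun s hs => ?_⟩
    rcases Finset.mem_insert.1 hs with rfl | hs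
    · rw [mul_assoc]; exact mul_mem hb hca
    · rw [mul_comm b c, mul_assoc]; exact mul_mem hc (hbS s hs)

end

section

variable {k L : Type*} [Field k] [Field L] [Algebra k L] [CharZero k] [IsAlgClosed k]
  {M F : IntermediateField k L}

/-- Elements of the ring: no poles at the places which are trivial on `F`, poles bounded by a
divisor of `F` at the others. -/
theorem bound_RR [IsFF k F] {z : L} (hz : z ∈ RR M F) :
    (∀ w : Place M L, (∀ β : F, w.ord (β : L) = 0) → Ge w 0 z) ∧
    ∃ A : Place k F →₀ ℤ, 0 ≤ A ∧ ∀ (w : Place M L) (q : Place k F),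
      (∀ β : F, w.ord (β : L) = q.ord β) → Ge w (-A q) z := by
  classical
  obtain ⟨s, β, hs⟩ := RR.expand hz
  constructor
  · intro w hw
    rw [hs]
    refine Ge.sum s _ fun i _ => ?_
    have h1 : Ge w 0 ((β i : F) : L) := Or.inr (hw _).ge
    simpa using (ge_M w (Module.Basis.ofVectorSpace k M i).2).mul h1
  · refine ⟨∑ i ∈ s, polar (k := k) (β i), Finset.sum_nonneg fun i _ => polar_nonneg _,
      fun w q hw => ?_⟩
    rw [hs]
    refine Ge.sum s _ fun i hi => ?_
    have h1 : Ge w (-(∑ i ∈ s, polar (k := k) (β i)) q) ((β i : F) : L) := by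
      right
      rw [hw, Finsupp.finsetSum_apply]
      have h2 := Finset.single_le_sum (f := fun i => polar (k := k) (β i) q)
        (fun i _ => polar_nonneg (β i) q) hi
      have h3 : -q.ord (β i) ≤ polar (k := k) (β i) q := by
        rw [polar_apply]; exact le_max_left _ _
      linarith
    simpa using (ge_M w (Module.Basis.ofVectorSpace k M i).2).mul h1

end

section

variable {k K L : Type*} [Field k] [CharZero k] [IsAlgClosed k] [Field K] [Field L] [Algebra k K]
  [Algebra k L] [Algebra K L] [IsScalarTower k K L] [FiniteDimensional K L] {n : ℕ}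
  {F : Fin n → IntermediateField k L} [∀ i, IsFF k (F i)]
  {E0 : Fin n → Type*} [∀ i, Field (E0 i)] [∀ i, Algebra k (E0 i)] [∀ i, Algebra (E0 i) (F i)]
  [∀ i, Algebra (E0 i) K] [∀ i, Algebra (E0 i) L] [∀ i, IsScalarTower k (E0 i) (F i)]
  [∀ i, IsScalarTower k (E0 i) L] [∀ i, IsScalarTower k (E0 i) K]
  [∀ i, IsScalarTower (E0 i) (F i) L] [∀ i, IsScalarTower (E0 i) K L] [∀ i, IsFF k (E0 i)]
  [∀ i, FiniteDimensional (E0 i) (F i)]

theorem exists_place_below (i : Fin n) (q : Place k (F i)) :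
    ∃ (p : Place k (E0 i)) (r : ℕ), Over q p r := by
  obtain ⟨r, p, h⟩ := exists_over (K := E0 i) q (by
    by_contra hcon
    push Not at hcon
    obtain ⟨t, ht0, ht⟩ := q.surj
    have h1 : q.ord (algebraMap (F i) (F i) t) = 0 :=
      ord_eq_zero_of_alg (K0 := E0 i) (K1 := F i) (K2 := F i) q hcon t
    change q.ord t = 0 at h1
    omega)
  exact ⟨p, r, h⟩

/-- The space of functions with poles bounded by a divisor of the `i`-th curve, in `L`. -/
noncomputable def VL (i : Fin n) (D : Place k (F i) →₀ ℤ) : Submodule k L :=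
  (LL D).map (F i).val.toLinearMap

theorem VL_le (i : Fin n) (D : Place k (F i) →₀ ℤ) : ∀ z ∈ VL i D, z ∈ F i := by
  rintro _ ⟨y, _, rfl⟩
  exact y.2

/-- The coefficient of a section, multiplied by the denominators, is a combination of functions on
the `i`-th curve with poles bounded by `m C + j A`. -/
theorem section_mem {x : ∀ i, E0 i} {dK : Fin n → Derivation k K K}
    {dL : Fin n → Derivation k L L} {dF : ∀ i, Derivation k (F i) (F i)}
    (hfr : Fr F x dK dL dF) (hsup : ⨆ i, F i = ⊤) (hn : Algebra.trdeg k L = n)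
    {B : ∀ i, Place k (E0 i) → Prop} {Bd : Place k K → Prop}
    (hBd : ∀ v, Bd v ↔ ∃ (i : Fin n) (p : Place k (E0 i)) (a : ℕ), Over v p a ∧ B i p)
    (i : Fin n) (C : Place k (F i) →₀ ℤ)
    (hC : ∀ (q : Place k (F i)) (p : Place k (E0 i)) (r : ℕ), Over q p r →
      (¬ B i p → C q = - vo q (dF i)) ∧ (B i p → C q = - (vo q (dF i) - 1)))
    (S : Finset K) {b : L} (hb0 : b ≠ 0)
    (hbS : ∀ s ∈ S, b * algebraMap K L s ∈ RT F) :
    ∃ A : Place k (F i) →₀ ℤ, ∀ (m j : ℕ) (ω : (Fin n → Derivation k K K) → K),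
      IsSec k K n Bd S m j ω →
        b ^ j * algebraMap K L (ω dK) ∈ sm (MM F i) * VL i (m • C + j • A) := by
  classical
  have hA : ∀ s : K, ∃ A : Place k (F i) →₀ ℤ, 0 ≤ A ∧ (s ∈ S → ∀ (w : Place (MM F i) L)
      (q : Place k (F i)), (∀ β : F i, w.ord (β : L) = q.ord β) →
        Ge w (-A q) (b * algebraMap K L s)) := by
    intro s
    by_cases hs : s ∈ S
    · obtain ⟨A, hA, h⟩ := (bound_RR (RT_le i (hbS s hs))).2
      exact ⟨A, hA, fun _ => h⟩
    · exact ⟨0, le_rfl, fun h => absurd h hs⟩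
  choose A hA0 hA using hA
  refine ⟨∑ s ∈ S, A s, fun m j ω hω => ?_⟩
  set D : Place k (F i) →₀ ℤ := m • C + j • ∑ s ∈ S, A s with hD
  -- the local bounds
  have hloc : ∀ (w : Place (MM F i) L) (c : ℤ) (N : ℤ),
      (((∀ β : F i, w.ord (β : L) = 0) ∧ c = 0) ∨
      ∃ q : Place k (F i), (∀ β : F i, w.ord (β : L) = q.ord β) ∧
        ∃ (p : Place k (E0 i)) (r : ℕ), Over q p r ∧
          ((¬ B i p ∧ c = vo q (dF i)) ∨ (B i p ∧ c = vo q (dF i) - 1))) →
      (∀ s ∈ S, s ≠ 0 → N ≤ m * c + j * w.ord (b * algebraMap K L s)) →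
      Ge w N (b ^ j * algebraMap K L (ω dK)) := by
    intro w c N hc hN
    rcases local_bound hfr hsup hn hBd hω i w c hc with h | ⟨s, hs, hs0, h⟩
    · left; rw [h, mul_zero]
    · by_cases h0 : algebraMap K L (ω dK) = 0
      · left; rw [h0, mul_zero]
      right
      have h1 := hN s hs hs0
      have hsL : algebraMap K L s ≠ 0 := by simpa using hs0
      rw [w.ord_mul hb0 hsL] at h1
      rw [w.ord_mul (pow_ne_zero _ hb0) h0, w.ord_pow]
      linarith
  obtain ⟨s, β, hs, hβ⟩ := (cur_MM F hsup hn i).mem_span D (b ^ j * algebraMap K L (ω dK))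
    (fun w hw => hloc w 0 0 (Or.inl ⟨hw, rfl⟩) (by
      intro s hs hs0
      have h1 := (bound_RR (RT_le i (hbS s hs))).1 w hw
      have h2 := h1.resolve_left (mul_ne_zero hb0 (by simpa using hs0))
      have : (0 : ℤ) ≤ j * w.ord (b * algebraMap K L s) := mul_nonneg (by positivity) h2
      linarith))
    (fun w q hw => by
      obtain ⟨p, r, hp⟩ := exists_place_below (E0 := E0) i q
      have hDq : D q = m * C q + j * ∑ s ∈ S, A s q := by
        rw [hD, Finsupp.add_apply, Finsupp.smul_apply, Finsupp.smul_apply,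
          Finsupp.finsetSum_apply, nsmul_eq_mul, nsmul_eq_mul]
      have hstep : ∀ c : ℤ, C q = -c → ∀ s ∈ S, s ≠ 0 →
          -D q ≤ m * c + j * w.ord (b * algebraMap K L s) := by
        intro c hc s hs hs0
        have h1 := hA s hs w q hw
        have h2 := h1.resolve_left (mul_ne_zero hb0 (by simpa using hs0))
        have h3 := Finset.single_le_sum (f := fun s => A s q) (fun s _ => hA0 s q) hs
        have h4 : -(∑ s ∈ S, A s q) ≤ w.ord (b * algebraMap K L s) := by linarith
        have h5 := mul_le_mul_of_nonneg_left h4 (by positivity : (0 : ℤ) ≤ j)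
        rw [hDq, hc]
        linarith
      by_cases hB : B i p
      · exact hloc w (vo q (dF i) - 1) _ (Or.inr ⟨q, hw, p, r, hp, Or.inr ⟨hB, rfl⟩⟩)
          (hstep _ ((hC q p r hp).2 hB))
      · exact hloc w (vo q (dF i)) _ (Or.inr ⟨q, hw, p, r, hp, Or.inl ⟨hB, rfl⟩⟩)
          (hstep _ ((hC q p r hp).1 hB)))
  rw [hs]
  refine Submodule.sum_mem _ fun l hl => Submodule.mul_mem_mul ?_ ?_
  · exact mem_sm.2 (Subtype.property _)
  · exact ⟨β l, hβ l hl, rfl⟩

end

end Pool.Agent.W619.TW
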