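import Pool.Agent.W619.TW.Upper
import Pool.Agent.W619.TW.Arith

/-! Two good forms on the quotient of a hyperbolic curve. -/

set_option autoImplicit false
set_option linter.overlappingInstances false
set_option linter.unusedSectionVars false

open Polynomial FF IntermediateField

namespace Pool.Agent.W619.TW

open Pool.Agent.W603.LV Pool.Agent.W619.PQ Pool.Agent.W619.PL

section

variable {k : Type*} [Field k] [CharZero k] [IsAlgClosed k]
  {E0 E : Type*} [Field E0] [Field E] [Algebra k E0] [Algebra k E] [Algebra E0 E]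
  [IsScalarTower k E0 E] [IsFF k E0] [IsFF k E] [FiniteDimensional E0 E]

/-- The places over the boundary. -/
def UB1 (E : Type*) [Field E] [Algebra k E] [Algebra E0 E] (B : Place k E0 → Prop) :
    Set (Place k E) := {q | ∃ (p : Place k E0) (r : ℕ), Over q p r ∧ B p}

theorem exists_C1 {B : Place k E0 → Prop} {d : Derivation k E E} (hd : d ≠ 0)
    (hfin : (UB1 E B).Finite) :
    ∃ C : Place k E →₀ ℤ, (∀ (q : Place k E) (p : Place k E0) (r : ℕ), Over q p r →
      (¬ B p → C q = - vo q d) ∧ (B p → C q = - (vo q d - 1))) ∧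
      ddeg C = canDeg k E + (UB1 E B).ncard := by
  classical
  set T : Finset (Place k E) := (vo_finite hd).toFinset ∪ hfin.toFinset with hT
  have hsupp : ∀ q, (- vo q d + if q ∈ UB1 E B then 1 else 0) ≠ 0 → q ∈ T := by
    intro q hq
    by_contra hqT
    rw [hT, Finset.mem_union] at hqT
    push Not at hqT
    have h1 : vo q d = 0 := by
      by_contra h
      exact hqT.1 ((vo_finite hd).mem_toFinset.2 h)
    have h2 : q ∉ UB1 E B := fun h => hqT.2 (hfin.mem_toFinset.2 h)
    apply hq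
    rw [h1, if_neg h2]; rfl
  let C : Place k E →₀ ℤ := Finsupp.ofSupportFinite
    (fun q => - vo q d + if q ∈ UB1 E B then 1 else 0)
    (T.finite_toSet.subset fun q hq => hsupp q hq)
  have hCq : ∀ q, C q = - vo q d + if q ∈ UB1 E B then 1 else 0 := fun q => rfl
  refine ⟨C, ?_, ?_⟩
  · intro q p r hqp
    constructor
    · intro hB
      rw [hCq, if_neg, add_zero]
      rintro ⟨p', r', h', hB'⟩
      exact hB ((over_unique' hqp h').1 ▸ hB')
    · intro hB
      rw [hCq, if_pos ⟨p, r, hqp, hB⟩]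
      ring
  · unfold ddeg
    rw [Finsupp.sum_of_support_subset (s := T) _ (fun q hq => hsupp q (by
      rw [← hCq]; exact Finsupp.mem_support_iff.1 hq)) _ (by intros; simp)]
    have h1 : ∀ q ∈ T, C q * (q.deg : ℤ) = - vo q d + if q ∈ UB1 E B then 1 else 0 := by
      intro q _
      rw [deg_one, hCq]; simp
    rw [Finset.sum_congr rfl h1, Finset.sum_add_distrib, Finset.sum_neg_distrib,
      canDeg_finset hd T fun q hq => Finset.mem_union_left _ ((vo_finite hd).mem_toFinset.2 hq),
      neg_neg]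
    congr 1
    rw [Finset.sum_boole, Set.ncard_eq_toFinset_card _ hfin]
    congr 1
    congr 1
    ext q
    simp only [Finset.mem_filter, Set.Finite.mem_toFinset, hT, Finset.mem_union]
    constructor
    · exact fun h => h.2
    · exact fun h => ⟨Or.inr h, h⟩

open scoped Classical in
/-- The orbifold Euler characteristic of the quotient of a hyperbolic curve is negative. -/
theorem strict_ineq {H : Type*} [Group H] [Finite H] (ρ : H →* (E ≃ₐ[k] E))
    (hfix : ∀ (h : H) (z : E0), ρ h (algebraMap E0 E z) = algebraMap E0 E z)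
    (hinv : ∀ z : E, (∀ h, ρ h z = z) → ∃ z0, algebraMap E0 E z0 = z)
    (B0 : Place k E0 → Prop) (hfin : (UB1 E B0).Finite)
    (hpos : 0 < canDeg k E + (UB1 E B0).ncard) :
    ∃ (T : Finset (Place k E0)) (r : Place k E0 → ℕ),
      (∀ q, 1 ≤ r q ∧ ∀ (w : Place k E) (e : ℕ), Over w q e → r q ≤ e) ∧
      (0 : ℚ) < canDeg k E0 + ∑ q ∈ T, (if B0 q then 1 else 1 - 1 / (r q : ℚ)) := by
  set D0 : Derivation k E0 E0 := der k E0 with hD0def
  have hD0 : D0 ≠ 0 := der_ne
  obtain ⟨D, hD, hext⟩ := exists_ext (E := E) D0 hD0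
  obtain ⟨t, ht⟩ := IsFF.exists_transcendental (k := k) (K := E0)
  have htE := transcendental_map (E := E) ht
  have hcomm : ∀ (h : H) (z : E), ρ h (D z) = D (ρ h z) := by
    intro h z
    have h1 : conjDer (ρ h) D (algebraMap E0 E t) = D (algebraMap E0 E t) := by
      rw [conjDer_apply]
      have h2 : (ρ h).symm (algebraMap E0 E t) = algebraMap E0 E t := by
        rw [AlgEquiv.symm_apply_eq, hfix]
      rw [h2, hext, hfix]
    have h2 := der_ext htE h1 (ρ h z)
    rw [conjDer_apply, AlgEquiv.symm_apply_apply] at h2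
    exact h2
  -- the minimal ramification index
  have hex : ∀ q : Place k E0, ∃ e, ∃ w : Place k E, Over w q e := fun q => exists_place_over q
  let r : Place k E0 → ℕ := fun q => Nat.find (hex q)
  have hr1 : ∀ q, ∃ w : Place k E, Over w q (r q) := fun q => Nat.find_spec (hex q)
  have hr2 : ∀ (q : Place k E0) (w : Place k E) (e : ℕ), Over w q e → r q ≤ e :=
    fun q w e h => Nat.find_min' (hex q) ⟨w, h⟩
  choose W hW using hr1
  have hrpos : ∀ q, 1 ≤ r q := fun q => (hW q).1
  obtain ⟨q0, -⟩ := exists_place (k := k) (K := E0)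
  -- a form with an additional zero at `W q0`
  obtain ⟨C, hC, hCdeg⟩ := exists_C1 (B := B0) hD hfin
  obtain ⟨γ, N, h1, -⟩ := riemann (k := k) (K := E)
  set a : ℕ := (γ + 2).toNat + 1 with ha
  have ha1 : γ + 2 ≤ a := by
    have := Int.self_le_toNat (γ + 2)
    rw [ha]; push_cast; omega
  have ha0 : (0 : ℤ) < a := by rw [ha]; push_cast; positivity
  have h2 := h1 (a • C - Finsupp.single (W q0) 1)
  rw [ddeg_sub, ddeg_nsmul, ddeg_single, deg_one, hCdeg] at h2
  have h3 : (a : ℤ) * 1 ≤ a * (canDeg k E + (UB1 E B0).ncard) :=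
    mul_le_mul_of_nonneg_left (by omega) ha0.le
  obtain ⟨f, hf, hf0⟩ := exists_ne_zero_of_ell_pos
    (D := a • C - Finsupp.single (W q0) 1) (by push_cast at h2; linarith)
  have hf := (mem_LL.1 hf).resolve_left hf0
  -- orders of `f`
  let b : Place k E0 → ℤ := fun q => if B0 q then 1 else 0
  have hford : ∀ (w : Place k E) (q : Place k E0) (e : ℕ), Over w q e →
      a * (vo w D - b q) ≤ w.ord f ∧ (w = W q0 → a * (vo w D - b q) + 1 ≤ w.ord f) := by
    intro w q e hwq
    have h4 := hf w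
    have h5 : C w = -(vo w D - b q) := by
      by_cases hq : B0 q
      · rw [(hC w q e hwq).2 hq]; simp only [b, if_pos hq]
      · rw [(hC w q e hwq).1 hq]; simp only [b, if_neg hq]; ring
    rw [Finsupp.sub_apply, Finsupp.smul_apply, nsmul_eq_mul, h5] at h4
    constructor
    · by_cases hw : w = W q0
      · rw [hw] at h4 ⊢
        rw [Finsupp.single_eq_same] at h4
        linarith
      · rw [Finsupp.single_eq_of_ne hw] at h4
        linarith
    · intro hw
      rw [hw] at h4 ⊢
      rw [Finsupp.single_eq_same] at h4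
      linarith
  -- the norm
  have hFin : Fintype H := Fintype.ofFinite H
  obtain ⟨c, hc⟩ := hinv (∏ h : H, ρ h f) (by
    intro g
    rw [map_prod]
    refine Fintype.prod_equiv (Equiv.mulLeft g) _ _ fun h => ?_
    simp only [Equiv.coe_mulLeft, map_mul]
    rfl)
  have hN0 : ∏ h : H, ρ h f ≠ 0 := Finset.prod_ne_zero_iff.2 fun h _ => by simpa using hf0
  have hc0 : c ≠ 0 := by
    rintro rfl
    rw [map_zero] at hc
    exact hN0 hc.symm
  set M := Nat.card H with hM
  have hMpos : 0 < M := Nat.card_pos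
  have hnorm : ∀ q : Place k E0, (M : ℤ) * (a * (vo (W q) D - b q)) +
      (if q = q0 then 1 else 0) ≤ (W q).ord (∏ h : H, ρ h f) := by
    intro q
    have hconj : ∀ h : H, Over ((W q).comp (ρ h)) q (r q) := by
      intro h
      refine ⟨(hW q).1, fun z => ?_⟩
      rw [Place.comp_ord, hfix, (hW q).2]
    have hterm : ∀ h ∈ (Finset.univ : Finset H), a * (vo (W q) D - b q) +
        (if h = 1 ∧ q = q0 then 1 else 0) ≤ (W q).ord (ρ h f) := by
      intro h _
      have h4 := hford _ q _ (hconj h)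
      rw [vo_comp (W q) (ρ h) hD (hcomm h), Place.comp_ord] at h4
      split_ifs with h5
      · obtain ⟨rfl, rfl⟩ := h5
        exact h4.2 (by
          apply Place.ext
          funext z
          rw [Place.comp_ord, map_one]; rfl)
      · rw [add_zero]; exact h4.1
    rw [ord_prod _ _ _ fun h _ => by simpa using hf0]
    refine le_trans (le_of_eq ?_) (Finset.sum_le_sum hterm)
    rw [Finset.sum_add_distrib, Finset.sum_const, Finset.card_univ, nsmul_eq_mul,
      ← Nat.card_eq_fintype_card]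
    congr 1
    by_cases hq : q = q0
    · simp [hq]
    · simp [hq]
  -- the inequality at each place
  have hineq : ∀ q : Place k E0, (M : ℚ) * a * (vo q D0 -
      (if B0 q then 1 else 1 - 1 / (r q : ℚ))) + (if q = q0 then 1 / (r q : ℚ) else 0) ≤
        q.ord c := by
    intro q
    have h4 := hnorm q
    rw [← hc, (hW q).2, vo_over (hW q) hD0 hD hext] at h4
    have h5 : ((M : ℚ) * (a * ((r q * vo q D0 - r q + 1) - b q)) +
      (if q = q0 then 1 else 0)) ≤ r q * q.ord c := by exact_mod_cast h4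
    have h6 : (0 : ℚ) < r q := by exact_mod_cast hrpos q
    have h7 : (r q : ℚ) * ((M : ℚ) * a * (vo q D0 -
      (if B0 q then 1 else 1 - 1 / (r q : ℚ))) + (if q = q0 then 1 / (r q : ℚ) else 0)) =
      ((M : ℚ) * (a * ((r q * vo q D0 - r q + 1) - b q)) +
      (if q = q0 then 1 else 0)) := by
      have hb : (b q : ℚ) = if B0 q then 1 else 0 := by
        by_cases hq : B0 q
        · simp only [b]; rw [if_pos hq, if_pos hq]; rfl
        · simp only [b]; rw [if_neg hq, if_neg hq]; rfl
      rw [hb]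
      have h6' := h6.ne'
      by_cases hq : B0 q
      · by_cases hq0 : q = q0
        · rw [if_pos hq, if_pos hq0, if_pos hq0, if_pos hq]
          field_simp
          ring
        · rw [if_pos hq, if_neg hq0, if_neg hq0, if_pos hq]
          field_simp
          ring
      · by_cases hq0 : q = q0
        · rw [if_neg hq, if_pos hq0, if_pos hq0, if_neg hq]
          field_simp
          ring
        · rw [if_neg hq, if_neg hq0, if_neg hq0, if_neg hq]
          field_simp
          ring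
    rw [← h7] at h5
    exact le_of_mul_le_mul_left h5 h6
  refine ⟨insert q0 ((finite_support (k := k) c).toFinset ∪ (vo_finite hD0).toFinset), r,
    fun q => ⟨hrpos q, hr2 q⟩, ?_⟩
  set T := insert q0 ((finite_support (k := k) c).toFinset ∪ (vo_finite hD0).toFinset) with hT
  have hs1 : ∑ q ∈ T, q.ord c = 0 := sum_ord_finset c T fun q hq =>
    Finset.mem_insert_of_mem (Finset.mem_union_left _
      ((finite_support (k := k) c).mem_toFinset.2 hq))
  have hs2 : ∑ q ∈ T, vo q D0 = - canDeg k E0 := canDeg_finset hD0 T fun q hq =>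
    Finset.mem_insert_of_mem (Finset.mem_union_right _ ((vo_finite hD0).mem_toFinset.2 hq))
  have h4 := Finset.sum_le_sum fun q (_ : q ∈ T) => hineq q
  rw [Finset.sum_add_distrib, ← Finset.mul_sum, Finset.sum_sub_distrib,
    Finset.sum_ite_eq' T q0 (fun q => 1 / (r q : ℚ)),
    if_pos (Finset.mem_insert_self _ _)] at h4
  have h5 : ∑ q ∈ T, (q.ord c : ℚ) = 0 := by exact_mod_cast hs1
  have h6 : ∑ q ∈ T, (vo q D0 : ℚ) = - canDeg k E0 := by exact_mod_cast hs2
  rw [h5, h6] at h4
  have h7 : (0 : ℚ) < 1 / (r q0 : ℚ) := by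
    have : (0 : ℚ) < r q0 := by exact_mod_cast hrpos q0
    positivity
  have h8 : (0 : ℚ) < (M : ℚ) * a := by
    have : (0 : ℚ) < a := by exact_mod_cast ha0
    have : (0 : ℚ) < M := by exact_mod_cast hMpos
    positivity
  by_contra hcon
  push Not at hcon
  have h9 : 0 ≤ (M : ℚ) * a * (-(canDeg k E0 : ℚ) -
      ∑ q ∈ T, (if B0 q then 1 else 1 - 1 / (r q : ℚ))) :=
    mul_nonneg h8.le (by linarith)
  linarith

/-- An algebraic element is constant. -/
theorem transcendental_of_not_const {K : Type*} [Field K] [Algebra k K] {z : K}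
    (h : ∀ a : k, algebraMap k K a ≠ z) : Transcendental k z := by
  intro halg
  have h2 := IsAlgClosed.degree_eq_one_of_irreducible k (minpoly.irreducible halg.isIntegral)
  obtain ⟨c, hc⟩ := minpoly.mem_range_of_degree_eq_one k z h2
  exact h c hc

/-- Two independent elements of `L(D)`. -/
theorem exists_two {F : Type*} [Field F] [Algebra k F] [IsFF k F] (D : Place k F →₀ ℤ)
    (h : 2 ≤ ell D) : ∃ f ∈ LL D, ∃ f' ∈ LL D, f ≠ 0 ∧ f' ≠ 0 ∧ Transcendental k (f' / f) := by
  have h1 : 1 < Module.finrank k (LL D) := by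
    unfold ell at h
    omega
  obtain ⟨f, hf, hf0⟩ := exists_ne_zero_of_ell_pos (D := D) (by omega)
  obtain ⟨y, hy⟩ := exists_linearIndependent_pair_of_one_lt_finrank h1
    (x := (⟨f, hf⟩ : LL D)) (fun h => hf0 (congrArg Subtype.val h))
  rw [LinearIndependent.pair_iff] at hy
  have hy0 : (y : F) ≠ 0 := by
    intro h0
    have h3 := hy 0 1 (by
      rw [zero_smul, one_smul, zero_add]
      exact Subtype.ext h0)
    exact one_ne_zero h3.2
  refine ⟨f, hf, y, y.2, hf0, hy0, transcendental_of_not_const fun a ha => ?_⟩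
  have h3 := hy a (-1) (by
    apply Subtype.ext
    have : algebraMap k F a * f = (y : F) := by rw [ha]; field_simp
    simp only [Submodule.coe_add, SetLike.val_smul, neg_smul, one_smul, Submodule.coe_neg,
      ZeroMemClass.coe_zero, Algebra.smul_def]
    rw [this, add_neg_cancel])
  have h4 := h3.2
  norm_num at h4

open scoped Classical in
/-- Two good forms from a strict signature. -/
theorem two_good_of_signature (B0 : Place k E0 → Prop) {N : ℕ} (hN : 1 ≤ N)
    (S : Finset (Place k E0)) (ν : Place k E0 → ℕ)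
    (hν : ∀ q ∈ S, ¬ B0 q → 1 ≤ ν q ∧ ν q ≤ N ∧
      ∀ (w : Place k E) (e : ℕ), Over w q e → ν q ≤ e)
    (hsum : (0 : ℚ) < canDeg k E0 + ∑ q ∈ S, (if B0 q then 1 else 1 - 1 / (ν q : ℚ))) :
    ∃ (m : ℕ) (D0 : Derivation k E0 E0) (c c' : E0), 1 ≤ m ∧ D0 ≠ 0 ∧ c ≠ 0 ∧ c' ≠ 0 ∧
      Good E B0 N m D0 c ∧ Good E B0 N m D0 c' ∧ Transcendental k (c' / c) := by
  set D : Derivation k E0 E0 := der k E0
  have hD : D ≠ 0 := der_ne
  obtain ⟨γ, N', hrr, -⟩ := riemann (k := k) (K := E0)
  set m0 : ℕ := ∏ q ∈ S.filter (fun q => ¬ B0 q), ν q with hm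
  have hm1 : 1 ≤ m0 := Nat.one_le_iff_ne_zero.2 (Finset.prod_ne_zero_iff.2 fun q hq => by
    have h1 := Finset.mem_filter.1 hq
    have := hν q h1.1 h1.2
    omega)
  set a : ℕ := (γ + 2).toNat + 1 with ha
  have ha1 : γ + 2 ≤ a := by
    have := Int.self_le_toNat (γ + 2)
    rw [ha]; push_cast; omega
  set m : ℕ := a * m0 with hmdef
  have hdvd : ∀ q ∈ S, ¬ B0 q → ν q ∣ m := fun q hq hq2 =>
    Dvd.dvd.mul_left (Finset.dvd_prod_of_mem _ (Finset.mem_filter.2 ⟨hq, hq2⟩)) _
  let r : Place k E0 → ℤ := fun q => if B0 q then m else m - (m / ν q : ℕ)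
  have hr : ∀ q ∈ S, ¬ B0 q → (ν q : ℤ) * (m - r q) = m := by
    intro q hq hq2
    have h1 : ν q * (m / ν q) = m := Nat.mul_div_cancel' (hdvd q hq hq2)
    simp only [r, if_neg hq2]
    have h2 : (ν q : ℤ) * ((m / ν q : ℕ) : ℤ) = m := by exact_mod_cast h1
    linarith
  have hrQ : ∀ q ∈ S, (r q : ℚ) = m * (if B0 q then 1 else 1 - 1 / (ν q : ℚ)) := by
    intro q hq
    by_cases hq2 : B0 q
    · simp only [r, if_pos hq2]
      push_cast; ring
    · rw [if_neg hq2]
      have h1 := hr q hq hq2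
      have h2 : (ν q : ℚ) ≠ 0 := by
        have := (hν q hq hq2).1
        exact_mod_cast (by omega : ν q ≠ 0)
      have h3 : (ν q : ℚ) * ((m : ℚ) - r q) = m := by exact_mod_cast h1
      field_simp
      linarith
  -- the integrality of `m0` times the sum
  have hδ : ∃ δ : ℤ, (m0 : ℚ) * (canDeg k E0 +
      ∑ q ∈ S, (if B0 q then 1 else 1 - 1 / (ν q : ℚ))) = δ := by
    have h1 : ∀ q ∈ S, ∃ z : ℤ, (m0 : ℚ) * (if B0 q then 1 else 1 - 1 / (ν q : ℚ)) = z := by
      intro q hq
      by_cases hq2 : B0 q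
      · exact ⟨m0, by rw [if_pos hq2]; push_cast; ring⟩
      · have h2 : ν q ∣ m0 := Finset.dvd_prod_of_mem _ (Finset.mem_filter.2 ⟨hq, hq2⟩)
        obtain ⟨s, hs⟩ := h2
        refine ⟨m0 - s, ?_⟩
        rw [if_neg hq2]
        have h3 : (ν q : ℚ) ≠ 0 := by
          have := (hν q hq hq2).1
          exact_mod_cast (by omega : ν q ≠ 0)
        have h4 : (m0 : ℚ) = ν q * s := by exact_mod_cast hs
        push_cast
        rw [mul_sub, mul_one, h4]
        field_simp
    choose! z hz using h1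
    refine ⟨m0 * canDeg k E0 + ∑ q ∈ S, z q, ?_⟩
    rw [mul_add, Finset.mul_sum, Finset.sum_congr rfl hz]
    push_cast
    ring
  obtain ⟨δ, hδ⟩ := hδ
  have hδ1 : 1 ≤ δ := by
    have h1 : (0 : ℚ) < m0 := by exact_mod_cast hm1
    have h2 := mul_pos h1 hsum
    rw [hδ] at h2
    exact_mod_cast h2
  -- the divisor
  set T : Finset (Place k E0) := (vo_finite hD).toFinset ∪ S with hT
  have hsupp : ∀ q, (- m * vo q D + if q ∈ S then r q else 0) ≠ 0 → q ∈ T := by
    intro q hq
    by_contra hqT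
    rw [hT, Finset.mem_union] at hqT
    push Not at hqT
    have h1 : vo q D = 0 := by
      by_contra h
      exact hqT.1 ((vo_finite hD).mem_toFinset.2 h)
    apply hq
    rw [h1, if_neg hqT.2]; ring
  let C : Place k E0 →₀ ℤ := Finsupp.ofSupportFinite
    (fun q => - m * vo q D + if q ∈ S then r q else 0)
    (T.finite_toSet.subset fun q hq => hsupp q hq)
  have hCq : ∀ q, C q = - m * vo q D + if q ∈ S then r q else 0 := fun q => rfl
  have hdeg : ddeg C = m * canDeg k E0 + ∑ q ∈ S, r q := by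
    unfold ddeg
    rw [Finsupp.sum_of_support_subset (s := T) _ (fun q hq => hsupp q (by
      rw [← hCq]; exact Finsupp.mem_support_iff.1 hq)) _ (by intros; simp)]
    have h1 : ∀ q ∈ T, C q * (q.deg : ℤ) = - m * vo q D + if q ∈ S then r q else 0 := by
      intro q _
      rw [deg_one, hCq]; simp
    rw [Finset.sum_congr rfl h1, Finset.sum_add_distrib, ← Finset.mul_sum,
      canDeg_finset hD T fun q hq => Finset.mem_union_left _ ((vo_finite hD).mem_toFinset.2 hq),
      Finset.sum_ite_mem, Finset.inter_eq_right.2 Finset.subset_union_right]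
    ring
  have hdeg2 : ddeg C = a * δ := by
    have h1 : ((ddeg C : ℤ) : ℚ) = a * δ := by
      rw [hdeg, ← hδ]
      push_cast
      rw [Finset.sum_congr rfl hrQ, ← Finset.mul_sum, hmdef]
      push_cast
      ring
    exact_mod_cast h1
  have hell : 2 ≤ ell C := by
    have h1 := hrr C
    have h2 : (a : ℤ) * 1 ≤ a * δ := mul_le_mul_of_nonneg_left hδ1 (by positivity)
    rw [hdeg2] at h1
    omega
  obtain ⟨f, hf, f', hf', hf0, hf0', htr⟩ := exists_two C hell
  have hm1' : 1 ≤ m := by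
    rw [hmdef]
    exact Nat.one_le_iff_ne_zero.2 (mul_ne_zero (by omega) (by omega))
  have hmz : (0 : ℤ) ≤ m := by positivity
  have hgood : ∀ g ∈ LL C, g ≠ 0 → Good E B0 N m D g := by
    intro g hg hg0 q
    have h1 := (mem_LL.1 hg).resolve_left hg0 q
    rw [hCq] at h1
    constructor
    · intro hq
      by_cases hqS : q ∈ S
      · rw [if_pos hqS] at h1
        simp only [r, if_pos hq] at h1
        linarith
      · rw [if_neg hqS] at h1
        linarith
    · intro hq
      by_cases hqS : q ∈ S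
      · rw [if_pos hqS] at h1
        obtain ⟨a1, a2, a3⟩ := hν q hqS hq
        refine ⟨ν q, a1, a2, a3, ?_⟩
        have h3 : (0 : ℤ) ≤ ν q := by positivity
        have h4 : (m : ℤ) - r q ≤ q.ord g + m * (1 - vo q D) := by linarith
        have h5 := mul_le_mul_of_nonneg_left h4 h3
        rw [hr q hqS hq] at h5
        exact h5
      · rw [if_neg hqS] at h1
        exact ⟨1, le_rfl, hN, one_le_ram q, by push_cast; linarith⟩
  exact ⟨m, D, f, f', hm1', hD, hf0, hf0', hgood f hf hf0, hgood f' hf' hf0', htr⟩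

theorem canDeg_nonneg (h : ¬ ∃ t : E0, k⟮t⟯ = ⊤) : 0 ≤ canDeg k E0 := by
  classical
  have hD : der k E0 ≠ 0 := der_ne
  obtain ⟨f, hf0, hf⟩ := exists_regular h hD
  set T : Finset (Place k E0) := (finite_support (k := k) f).toFinset ∪ (vo_finite hD).toFinset
  have hs1 : ∑ q ∈ T, q.ord f = 0 := sum_ord_finset f T fun q hq =>
    Finset.mem_union_left _ ((finite_support (k := k) f).mem_toFinset.2 hq)
  have hs2 : ∑ q ∈ T, vo q (der k E0) = - canDeg k E0 := canDeg_finset hD T fun q hq =>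
    Finset.mem_union_right _ ((vo_finite hD).mem_toFinset.2 hq)
  have h1 := Finset.sum_le_sum fun q (_ : q ∈ T) => hf q
  rw [hs1, hs2] at h1
  omega

open scoped Classical in
/-- Truncation of a strict signature. -/
theorem truncate (B0 : Place k E0 → Prop) (T : Finset (Place k E0)) (r : Place k E0 → ℕ)
    (hr : ∀ q, 1 ≤ r q)
    (hsum : (0 : ℚ) < canDeg k E0 + ∑ q ∈ T, (if B0 q then 1 else 1 - 1 / (r q : ℚ))) (N : ℕ)
    (hN : 7 ≤ N ∨ (3 ≤ N ∧ ∃ q, B0 q) ∨
      (2 ≤ N ∧ ((∃ q q', q ≠ q' ∧ B0 q ∧ B0 q') ∨ ¬ ∃ t : E0, k⟮t⟯ = ⊤))) :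
    ∃ S : Finset (Place k E0), (0 : ℚ) < canDeg k E0 +
      ∑ q ∈ S, (if B0 q then 1 else 1 - 1 / ((min (r q) N : ℕ) : ℚ)) := by
  have hN2 : 2 ≤ N := by omega
  have hterm : ∀ q, (0 : ℚ) ≤ if B0 q then 1 else 1 - 1 / (r q : ℚ) := by
    intro q
    by_cases hq : B0 q
    · rw [if_pos hq]; norm_num
    · rw [if_neg hq]
      have h1 : (1 : ℚ) ≤ r q := by exact_mod_cast hr q
      have h2 : 1 / (r q : ℚ) ≤ 1 := by
        rw [div_le_one (by linarith)]; exact h1
      linarith
  have hpos : ∀ q, (0 : ℚ) < (if B0 q then 1 else 1 - 1 / (r q : ℚ)) →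
      (1 / 2 : ℚ) ≤ if B0 q then 1 else 1 - 1 / ((min (r q) N : ℕ) : ℚ) := by
    intro q hq
    by_cases hB : B0 q
    · rw [if_pos hB]; norm_num
    · rw [if_neg hB] at hq ⊢
      refine half_le (r q) N ?_ hN2
      by_contra hcon
      have h1 : r q = 1 := by
        have := hr q
        omega
      rw [h1] at hq
      norm_num at hq
  by_cases hrat : ∃ t : E0, k⟮t⟯ = ⊤
  swap
  · have h0 := canDeg_nonneg hrat
    rcases h0.lt_or_eq with h1 | h1
    · refine ⟨∅, ?_⟩
      rw [Finset.sum_empty, add_zero]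
      exact_mod_cast h1
    · rw [← h1, Int.cast_zero, zero_add] at hsum
      obtain ⟨q, -, hq⟩ : ∃ q ∈ T, (0 : ℚ) < if B0 q then 1 else 1 - 1 / (r q : ℚ) := by
        by_contra hcon
        push Not at hcon
        exact absurd (Finset.sum_nonpos hcon) (not_le.2 hsum)
      refine ⟨{q}, ?_⟩
      rw [Finset.sum_singleton, ← h1, Int.cast_zero, zero_add]
      have := hpos q hq
      linarith
  obtain ⟨t, ht⟩ := hrat
  have hcd : (canDeg k E0 : ℚ) = -2 := by rw [canDeg_rational ht]; norm_num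
  rw [hcd] at hsum ⊢
  by_cases htwo : ∃ q q', q ≠ q' ∧ B0 q ∧ B0 q'
  · obtain ⟨q, q', hne, hq, hq'⟩ := htwo
    obtain ⟨p, hpT, hpq, hpq', hp⟩ : ∃ p ∈ T, p ≠ q ∧ p ≠ q' ∧
        (0 : ℚ) < if B0 p then 1 else 1 - 1 / (r p : ℚ) := by
      by_contra hcon
      push Not at hcon
      have h1 : ∑ p ∈ T, (if B0 p then 1 else 1 - 1 / (r p : ℚ)) ≤
          ∑ p ∈ ({q, q'} : Finset (Place k E0)), (if B0 p then 1 else 1 - 1 / (r p : ℚ)) := by
        rw [← Finset.sum_filter_add_sum_filter_not T (fun p => p = q ∨ p = q')]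
        have h2 : ∑ p ∈ T.filter (fun p => ¬ (p = q ∨ p = q')),
            (if B0 p then 1 else 1 - 1 / (r p : ℚ)) ≤ 0 := by
          refine Finset.sum_nonpos fun p hp => ?_
          obtain ⟨h3, h4⟩ := Finset.mem_filter.1 hp
          push Not at h4
          exact hcon p h3 h4.1 h4.2
        have h3 : ∑ p ∈ T.filter (fun p => p = q ∨ p = q'),
            (if B0 p then 1 else 1 - 1 / (r p : ℚ)) ≤
            ∑ p ∈ ({q, q'} : Finset (Place k E0)), (if B0 p then 1 else 1 - 1 / (r p : ℚ)) := by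
          refine Finset.sum_le_sum_of_subset_of_nonneg ?_ fun p _ _ => hterm p
          intro p hp
          rw [Finset.mem_insert, Finset.mem_singleton]
          exact (Finset.mem_filter.1 hp).2
        linarith
      rw [Finset.sum_pair hne, if_pos hq, if_pos hq'] at h1
      linarith
    refine ⟨{p, q, q'}, ?_⟩
    rw [Finset.sum_insert (by simp [hpq, hpq']), Finset.sum_pair hne, if_pos hq, if_pos hq']
    have := hpos p hp
    linarith
  · have huniq : ∀ q q', B0 q → B0 q' → q = q' := by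
      intro q q' h1 h2
      by_contra h3
      exact htwo ⟨q, q', h3, h1, h2⟩
    by_cases hone : ∃ q, B0 q
    · obtain ⟨q0, hq0⟩ := hone
      have hN3 : 3 ≤ N := by
        rcases hN with h | ⟨h, -⟩ | ⟨-, h | h⟩
        · omega
        · exact h
        · exact absurd h htwo
        · exact absurd ⟨t, ht⟩ h
      have h1 : (1 : ℚ) < ∑ q ∈ (T.erase q0).filter (fun q => 2 ≤ r q), (1 - 1 / (r q : ℚ)) := by
        have h2 : ∑ q ∈ (T.erase q0).filter (fun q => 2 ≤ r q), (1 - 1 / (r q : ℚ)) =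
            ∑ q ∈ T.erase q0, (1 - 1 / (r q : ℚ)) := by
          rw [Finset.sum_filter_of_ne]
          intro q _ hne
          by_contra hcon
          apply hne
          have h1 : r q = 1 := by
            have := hr q
            omega
          rw [h1]; norm_num
        rw [h2]
        have h3 : ∑ q ∈ T, (if B0 q then 1 else 1 - 1 / (r q : ℚ)) ≤
            1 + ∑ q ∈ T.erase q0, (1 - 1 / (r q : ℚ)) := by
          have h4 : ∑ q ∈ T.erase q0, (1 - 1 / (r q : ℚ)) =
              ∑ q ∈ T.erase q0, (if B0 q then 1 else 1 - 1 / (r q : ℚ)) := by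
            refine Finset.sum_congr rfl fun q hq => ?_
            rw [if_neg fun h => Finset.ne_of_mem_erase hq (huniq q q0 h hq0)]
          rw [h4]
          have h5 : ∑ q ∈ T, (if B0 q then 1 else 1 - 1 / (r q : ℚ)) ≤
              ∑ q ∈ insert q0 (T.erase q0), (if B0 q then 1 else 1 - 1 / (r q : ℚ)) := by
            refine Finset.sum_le_sum_of_subset_of_nonneg ?_ fun p _ _ => hterm p
            intro p hp
            by_cases hpq : p = q0
            · simp [hpq]
            · exact Finset.mem_insert_of_mem (Finset.mem_erase.2 ⟨hpq, hp⟩)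
          rw [Finset.sum_insert (by simp), if_pos hq0] at h5
          exact h5
        linarith
      have h2 := one_bd _ r N hN3 (fun q hq => (Finset.mem_filter.1 hq).2) h1
      refine ⟨insert q0 ((T.erase q0).filter (fun q => 2 ≤ r q)), ?_⟩
      rw [Finset.sum_insert (by simp), if_pos hq0]
      have h3 : ∑ q ∈ (T.erase q0).filter (fun q => 2 ≤ r q),
          (1 - 1 / ((min (r q) N : ℕ) : ℚ)) =
          ∑ q ∈ (T.erase q0).filter (fun q => 2 ≤ r q),
          (if B0 q then 1 else 1 - 1 / ((min (r q) N : ℕ) : ℚ)) := by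
        refine Finset.sum_congr rfl fun q hq => ?_
        rw [if_neg fun h => Finset.ne_of_mem_erase (Finset.mem_filter.1 hq).1 (huniq q q0 h hq0)]
      rw [← h3]
      linarith
    · push Not at hone
      have hN7 : 7 ≤ N := by
        rcases hN with h | ⟨-, q, h⟩ | ⟨-, h | h⟩
        · exact h
        · exact absurd h (hone q)
        · exact absurd h htwo
        · exact absurd ⟨t, ht⟩ h
      simp only [hone, if_false] at hsum ⊢
      have h1 : (2 : ℚ) < ∑ q ∈ T.filter (fun q => 2 ≤ r q), (1 - 1 / (r q : ℚ)) := by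
        rw [Finset.sum_filter_of_ne]
        · linarith
        · intro q _ hne
          by_contra hcon
          apply hne
          have h1 : r q = 1 := by
            have := hr q
            omega
          rw [h1]; norm_num
      have h2 := seven _ r N hN7 (fun q hq => (Finset.mem_filter.1 hq).2) h1
      exact ⟨_, by linarith⟩

open scoped Classical in
/-- Two good forms on the quotient of a hyperbolic curve. -/
theorem exists_two_good {H : Type*} [Group H] [Finite H] (ρ : H →* (E ≃ₐ[k] E))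
    (hfix : ∀ (h : H) (z : E0), ρ h (algebraMap E0 E z) = algebraMap E0 E z)
    (hinv : ∀ z : E, (∀ h, ρ h z = z) → ∃ z0, algebraMap E0 E z0 = z)
    (B0 : Place k E0 → Prop) (hfin : (UB1 E B0).Finite)
    (hpos : 0 < canDeg k E + (UB1 E B0).ncard) (N : ℕ)
    (hN : 7 ≤ N ∨ (3 ≤ N ∧ ∃ q, B0 q) ∨
      (2 ≤ N ∧ ((∃ q q', q ≠ q' ∧ B0 q ∧ B0 q') ∨ ¬ ∃ t : E0, k⟮t⟯ = ⊤)) ∨
      ∃ (S : Finset (Place k E0)) (ν : Place k E0 → ℕ),
        1 ≤ N ∧ (∀ q ∈ S, ¬ B0 q → 1 ≤ ν q ∧ ν q ≤ N ∧
          ∀ (w : Place k E) (e : ℕ), Over w q e → ν q ≤ e) ∧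
        (0 : ℚ) < canDeg k E0 + ∑ q ∈ S, (if B0 q then 1 else 1 - 1 / (ν q : ℚ))) :
    ∃ (m : ℕ) (D0 : Derivation k E0 E0) (c c' : E0), 1 ≤ m ∧ D0 ≠ 0 ∧ c ≠ 0 ∧ c' ≠ 0 ∧
      Good E B0 N m D0 c ∧ Good E B0 N m D0 c' ∧ Transcendental k (c' / c) := by
  have key : (7 ≤ N ∨ (3 ≤ N ∧ ∃ q, B0 q) ∨
      (2 ≤ N ∧ ((∃ q q', q ≠ q' ∧ B0 q ∧ B0 q') ∨ ¬ ∃ t : E0, k⟮t⟯ = ⊤))) →
      ∃ (m : ℕ) (D0 : Derivation k E0 E0) (c c' : E0), 1 ≤ m ∧ D0 ≠ 0 ∧ c ≠ 0 ∧ c' ≠ 0 ∧
      Good E B0 N m D0 c ∧ Good E B0 N m D0 c' ∧ Transcendental k (c' / c) := by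
    intro hN'
    obtain ⟨T, r, hr, hsum⟩ := strict_ineq ρ hfix hinv B0 hfin hpos
    obtain ⟨S, hS⟩ := truncate B0 T r (fun q => (hr q).1) hsum N hN'
    refine two_good_of_signature B0 (by omega) S (fun q => min (r q) N) (fun q _ _ => ?_) hS
    exact ⟨le_min (hr q).1 (by omega), min_le_right _ _,
      fun w e h => (min_le_left _ _).trans ((hr q).2 w e h)⟩
  rcases hN with h | h | h | ⟨S, ν, h1, h2, h3⟩
  · exact key (Or.inl h)
  · exact key (Or.inr (Or.inl h))
  · exact key (Or.inr (Or.inr h))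
  · exact two_good_of_signature B0 h1 S ν h2 h3

end

end Pool.Agent.W619.TW
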