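import Pool.Agent.W619.TW.Cur

/-! A curve over the function field of a variety: the integral closure of `M[x]`. -/

set_option autoImplicit false
set_option linter.overlappingInstances false
set_option linter.unusedSectionVars false

open Polynomial FF IntermediateField IsDedekindDomain

namespace Pool.Agent.W619.TW

open Pool.Agent.W603.LV Pool.Agent.W619.PQ

section

variable {k F : Type*} [Field k] [Field F] [Algebra k F] [CharZero k]

/-- A primitive element which is integral over `k[x]`. -/
theorem exists_integral_primitive [IsFF k F] {x : F} (hx : Transcendental k x) :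
    ∃ y : F, IsIntegral (Algebra.adjoin k {x}) y ∧ k⟮x⟯⟮y⟯ = ⊤ := by
  open scoped algebraAdjoinAdjoin in
  have hfin := IsFF.finite hx
  have hchar : CharZero k⟮x⟯ := charZero_of_injective_algebraMap (algebraMap k k⟮x⟯).injective
  obtain ⟨y0, hy0⟩ := Field.exists_primitive_element k⟮x⟯ F
  have halg : IsAlgebraic (Algebra.adjoin k {x}) y0 :=
    (IsFractionRing.isAlgebraic_iff (Algebra.adjoin k {x}) k⟮x⟯ F).2
      (Algebra.IsAlgebraic.isAlgebraic y0)
  obtain ⟨a, ha, hint⟩ := halg.exists_integral_multiple
  refine ⟨_, hint, ?_⟩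
  apply top_unique
  rw [← hy0, adjoin_simple_le_iff]
  have ha0 : ((a : F)) ≠ 0 := fun h => ha (Subtype.ext h)
  have h1 : (a : F) ∈ k⟮x⟯ := by
    have h2 : Algebra.adjoin k {x} ≤ k⟮x⟯.toSubalgebra := algebra_adjoin_le_adjoin k _
    exact h2 a.2
  have h2 : y0 = ((⟨(a : F), h1⟩ : k⟮x⟯)⁻¹ : k⟮x⟯) • (a • y0) := by
    rw [Algebra.smul_def, Algebra.smul_def]
    change y0 = (a : F)⁻¹ * ((a : F) * y0)
    field_simp
  have h3 := (k⟮x⟯⟮a • y0⟯).smul_mem (x := ((⟨(a : F), h1⟩ : k⟮x⟯)⁻¹ : k⟮x⟯))
    (mem_adjoin_simple_self k⟮x⟯ (a • y0))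
  rw [← h2] at h3
  exact h3

end

section

variable {k L : Type*} [Field k] [Field L] [Algebra k L] [CharZero k] [IsAlgClosed k]
  {M F : IntermediateField k L}

theorem adjoin_le_RR {x : L} (hx : x ∈ F) {z : L} (hz : z ∈ Algebra.adjoin M {x}) : z ∈ RR M F := by
  induction hz using Algebra.adjoin_induction with
  | mem a ha => rw [Set.mem_singleton_iff] at ha; rw [ha]; exact RR.right hx
  | algebraMap r => exact RR.left r.2
  | add a b _ _ ha hb => exact add_mem ha hb
  | mul a b _ _ ha hb => exact mul_mem ha hb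

/-- Elements integral over `M[x]` lie in the ring generated by `M` and `F`. -/
theorem Cur.integral_mem (h : Cur M F) {x : F} (hx : Transcendental k x) {z : L}
    (hz : IsIntegral (Algebra.adjoin M {(x : L)}) z) : z ∈ RR M F := by
  open scoped algebraAdjoinAdjoin in
  classical
  have hF := h.ff
  have hL := h.isFF
  have hxM := h.tr x hx
  obtain ⟨y, hy, hytop⟩ := exists_integral_primitive hx
  let A0 := Algebra.adjoin k {x}
  let A := Algebra.adjoin M {(x : L)}
  let e := Polynomial.algEquivOfTranscendental M (x : L) hxM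
  have hpid : IsPrincipalIdealRing A := IsPrincipalIdealRing.of_surjective e.toRingEquiv e.surjective
  let e0 := Polynomial.algEquivOfTranscendental k x hx
  have hpid0 : IsPrincipalIdealRing A0 :=
    IsPrincipalIdealRing.of_surjective e0.toRingEquiv e0.surjective
  have hfin := IsFF.finite hxM
  have hfin0 := IsFF.finite hx
  have hcharM : CharZero M := charZero_of_injective_algebraMap (algebraMap k M).injective
  have hchar : CharZero M⟮(x : L)⟯ :=
    charZero_of_injective_algebraMap (algebraMap M M⟮(x : L)⟯).injective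
  have hchar0 : CharZero k⟮x⟯ := charZero_of_injective_algebraMap (algebraMap k k⟮x⟯).injective
  have hic : IsIntegrallyClosed A := inferInstance
  have hic0 : IsIntegrallyClosed A0 := inferInstance
  -- the map from k[x] to M[x]
  have hmem : ∀ a : A0, ((a : F) : L) ∈ A := by
    rintro ⟨a, ha⟩
    change (a : L) ∈ A
    induction ha using Algebra.adjoin_induction with
    | mem a ha =>
      rw [Set.mem_singleton_iff] at ha; rw [ha]
      exact Algebra.self_mem_adjoin_singleton _ _
    | algebraMap r => exact A.algebraMap_mem (algebraMap k M r)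
    | add a b _ _ ha hb => exact add_mem ha hb
    | mul a b _ _ ha hb => exact mul_mem ha hb
  let φ : A0 →+* A := ((F.val : F →+* L).comp (algebraMap A0 F)).codRestrict A hmem
  have hφ : ∀ P : A0[X], aeval (y : L) (P.map φ) = ((aeval y P : F) : L) := by
    intro P
    rw [aeval_def, eval₂_map, aeval_def]
    have h1 : (algebraMap A L).comp φ = (F.val : F →+* L).comp (algebraMap A0 F) := by
      ext a; rfl
    rw [h1]
    exact (hom_eval₂ P (algebraMap A0 F) (F.val : F →+* L) y).symm
  have hyA : IsIntegral A (y : L) := by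
    refine ⟨(minpoly A0 y).map φ, (minpoly.monic hy).map _, ?_⟩
    have := hφ (minpoly A0 y)
    rw [minpoly.aeval] at this
    exact this
  obtain ⟨P, hP⟩ := (minpoly.isIntegrallyClosed_dvd hyA (p := (minpoly A0 y).map φ) (by
    rw [hφ, minpoly.aeval]; rfl))
  have hder : ((aeval y (derivative (minpoly A0 y)) : F) : L) =
      aeval (y : L) (derivative (minpoly A (y : L))) * aeval (y : L) P := by
    rw [← hφ, ← derivative_map, hP, derivative_mul, map_add, map_mul, map_mul, minpoly.aeval,
      zero_mul, add_zero]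
  have hder0 : aeval y (derivative (minpoly A0 y)) ≠ 0 := by
    have h1 : aeval y (derivative (minpoly k⟮x⟯ y)) ≠ 0 :=
      (Algebra.IsSeparable.isSeparable _ _).aeval_derivative_ne_zero (minpoly.aeval _ _)
    rwa [minpoly.isIntegrallyClosed_eq_field_fractions' k⟮x⟯ hy, derivative_map,
      aeval_map_algebraMap] at h1
  -- the dual of M[x][y]
  have htop : Algebra.adjoin M⟮(x : L)⟯ {(y : L)} = ⊤ := by
    rw [← IntermediateField.adjoin_simple_toSubalgebra_of_isAlgebraic
      (Algebra.IsAlgebraic.isAlgebraic (y : L))]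
    have h1 : (⊤ : IntermediateField k L) ≤
        ((M⟮(x : L)⟯⟮(y : L)⟯).restrictScalars M).restrictScalars k := by
      rw [← h.sup, sup_le_iff]
      constructor
      · intro z hz
        exact ((M⟮(x : L)⟯⟮(y : L)⟯).restrictScalars M).algebraMap_mem ⟨z, hz⟩
      · intro z hz
        have h3 : ∀ a ∈ k⟮x⟯, (a : L) ∈ M⟮(x : L)⟯⟮(y : L)⟯ := by
          intro a ha
          have h4 : k⟮x⟯ ≤ (M⟮(x : L)⟯.restrictScalars k).comap F.val := by
            rw [adjoin_simple_le_iff]
            exact mem_adjoin_simple_self M _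
          exact (M⟮(x : L)⟯⟮(y : L)⟯).algebraMap_mem ⟨a, h4 ha⟩
        have h2 : ∀ a : F, a ∈ k⟮x⟯⟮y⟯ → (a : L) ∈ M⟮(x : L)⟯⟮(y : L)⟯ := by
          intro a ha
          induction ha using IntermediateField.adjoin_induction with
          | mem a ha =>
            rw [Set.mem_singleton_iff] at ha
            rw [ha]
            exact mem_adjoin_simple_self _ _
          | algebraMap a => exact h3 _ a.2
          | add a b _ _ ha hb => exact add_mem ha hb
          | inv a _ ha => exact inv_mem ha
          | mul a b _ _ ha hb => exact mul_mem ha hb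
        exact h2 ⟨z, hz⟩ (by rw [hytop]; trivial)
    have h5 : M⟮(x : L)⟯⟮(y : L)⟯ = ⊤ := by
      rw [eq_top_iff]
      intro z _
      exact h1 (by trivial : z ∈ (⊤ : IntermediateField k L))
    rw [h5]
    rfl
  have hdual := traceForm_dualSubmodule_adjoin A M⟮(x : L)⟯ (L := L) htop hyA
  have hz2 : z ∈ (Algebra.traceForm M⟮(x : L)⟯ L).dualSubmodule
      (Subalgebra.toSubmodule (Algebra.adjoin A {(y : L)})) := by
    rw [LinearMap.BilinForm.mem_dualSubmodule]
    intro a ha
    have haint : IsIntegral A a := by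
      rw [Subalgebra.mem_toSubmodule] at ha
      exact (IsIntegral.of_mem_of_fg (Algebra.adjoin A {(y : L)}) (hyA.fg_adjoin_singleton) _ ha)
    have h6 := Algebra.isIntegral_trace (L := M⟮(x : L)⟯) (hz.mul haint)
    rw [Algebra.traceForm_apply, Submodule.mem_one]
    exact IsIntegrallyClosed.isIntegral_iff.1 h6
  rw [hdual] at hz2
  obtain ⟨u, hu, hzu⟩ := hz2
  have hu' : u ∈ Algebra.adjoin A {(y : L)} := hu
  have hRR : ∀ u ∈ Algebra.adjoin A {(y : L)}, u ∈ RR M F := by
    intro u hu
    induction hu using Algebra.adjoin_induction with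
    | mem a ha => rw [Set.mem_singleton_iff] at ha; rw [ha]; exact RR.right y.2
    | algebraMap r => exact adjoin_le_RR x.2 r.2
    | add a b _ _ ha hb => exact add_mem ha hb
    | mul a b _ _ ha hb => exact mul_mem ha hb
  have hg0 : aeval (y : L) (derivative (minpoly A (y : L))) ≠ 0 := by
    intro h0
    rw [h0, zero_mul] at hder
    exact hder0 (Subtype.ext hder)
  have hzu' : aeval (y : L) (derivative (minpoly A (y : L))) * z = u := by
    rw [minpoly.isIntegrallyClosed_eq_field_fractions' M⟮(x : L)⟯ hyA, derivative_map,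
      aeval_map_algebraMap] at hzu
    change (aeval (y : L) (derivative (minpoly A (y : L))))⁻¹ • u = z at hzu
    rw [← hzu, smul_eq_mul, mul_inv_cancel_left₀ hg0]
  have hP' : aeval (y : L) P ∈ Algebra.adjoin A {(y : L)} := aeval_mem_adjoin_singleton _ _
  have h7 : z = ((aeval y (derivative (minpoly A0 y)) : F) : L)⁻¹ * (aeval (y : L) P * u) := by
    have h8 : ((aeval y (derivative (minpoly A0 y)) : F) : L) ≠ 0 :=
      fun h => hder0 (Subtype.ext h)
    rw [eq_inv_mul_iff_mul_eq₀ h8, hder, ← hzu']
    ring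
  rw [h7]
  have h9 : ((aeval y (derivative (minpoly A0 y)) : F) : L)⁻¹ ∈ F := inv_mem (Subtype.property _)
  exact mul_mem (RR.right h9) (mul_mem (hRR _ hP') (hRR _ hu'))

end

end Pool.Agent.W619.TW
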