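import Pool.Agent.W619.TW.Lower

/-! Kodaira dimension equals numerical dimension: abstract form. -/

set_option autoImplicit false
set_option linter.overlappingInstances false
set_option linter.unusedSectionVars false

open Polynomial FF IntermediateField

namespace Pool.Agent.W619.TW

open Pool.Agent.W603.LV Pool.Agent.W619.PQ Pool.Agent.W619.PL

section

variable {k : Type*} [Field k] [CharZero k] [IsAlgClosed k]
  {E0 E : Type*} [Field E0] [Field E] [Algebra k E0] [Algebra k E] [Algebra E0 E]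
  [IsScalarTower k E0 E] [IsFF k E0] [IsFF k E] [FiniteDimensional E0 E]

theorem UB1_finite {B0 : Place k E0 → Prop} (h : {p | B0 p}.Finite) : (UB1 E B0).Finite := by
  choose x hx0 hx using fun p : Place k E0 => p.surj
  refine Set.Finite.subset (h.biUnion fun p _ =>
    finite_support (k := k) (algebraMap E0 E (x p))) ?_
  rintro w ⟨p, r, hw, hp⟩
  simp only [Set.mem_iUnion, Set.mem_ofPred_eq]
  refine ⟨p, hp, ?_⟩
  rw [hw.2, hx, mul_one]
  have := hw.1
  omega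

theorem flat_of_der {B0 : Place k E0 → Prop} (hfin : (UB1 E B0).Finite) {D : Derivation k E E}
    (h : ∀ w : Place k E, ∀ t : E, w.ord t = 1 → D t ≠ 0 ∧
      (w ∈ UB1 E B0 → w.ord (D t) = 1) ∧ (w ∉ UB1 E B0 → w.ord (D t) = 0)) :
    canDeg k E + (UB1 E B0).ncard = 0 := by
  classical
  have hD : D ≠ 0 := by
    rintro rfl
    obtain ⟨w, -⟩ := exists_place (k := k) (K := E)
    obtain ⟨t, -, ht⟩ := w.surj
    exact (h w t ht).1 rfl
  have hvo : ∀ w : Place k E, vo w D = if w ∈ UB1 E B0 then 1 else 0 := by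
    intro w
    obtain ⟨t, -, ht⟩ := w.surj
    rw [← vo_eq w ht hD]
    split_ifs with hw
    · exact (h w t ht).2.1 hw
    · exact (h w t ht).2.2 hw
  have h1 : ∑ q ∈ hfin.toFinset, vo q D = - canDeg k E := canDeg_finset hD _ fun q hq => by
    rw [Set.Finite.mem_toFinset]
    by_contra hcon
    apply hq
    rw [hvo, if_neg hcon]
  have h2 : ∑ q ∈ hfin.toFinset, vo q D = (UB1 E B0).ncard := by
    rw [Set.ncard_eq_toFinset_card _ hfin, Finset.card_eq_sum_ones, Nat.cast_sum]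
    refine Finset.sum_congr rfl fun q hq => ?_
    rw [hvo, if_pos ((hfin.mem_toFinset).1 hq)]
    rfl
  omega

theorem log_of_nonneg {B0 : Place k E0 → Prop} (hfin : (UB1 E B0).Finite)
    (h0 : 0 ≤ canDeg k E + (UB1 E B0).ncard) : (¬ ∃ t : E, k⟮t⟯ = ⊤) ∨
      ∃ (w1 w2 : Place k E) (q1 q2 : Place k E0) (e1 e2 : ℕ), w1 ≠ w2 ∧
        Over w1 q1 e1 ∧ Over w2 q2 e2 ∧ B0 q1 ∧ B0 q2 := by
  by_cases hrat : ∃ t : E, k⟮t⟯ = ⊤
  · right
    obtain ⟨t, ht⟩ := hrat
    rw [canDeg_rational ht] at h0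
    have h1 : 1 < (UB1 E B0).ncard := by omega
    have : Finite (UB1 E B0) := hfin.to_subtype
    obtain ⟨w1, ⟨q1, e1, a1, b1⟩, w2, ⟨q2, e2, a2, b2⟩, hne⟩ :=
      (Set.one_lt_ncard_iff_nontrivial (s := UB1 E B0)).1 h1
    exact ⟨w1, w2, q1, q2, e1, e2, hne, a1, a2, b1, b2⟩
  · exact Or.inl hrat

theorem hasLog_of_nonneg {B0 : Place k E0 → Prop} (hfin : (UB1 E B0).Finite)
    (h0 : 0 ≤ canDeg k E + (UB1 E B0).ncard) : HasLog E B0 := by
  rcases log_of_nonneg hfin h0 with h | ⟨w1, w2, q1, q2, e1, e2, h0, h1, h2, h3, h4⟩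
  · exact hasLog_of_nonrational _ h
  · exact hasLog_of_two _ h0 h1 h2 h3 h4

/-- The log degree is negative only for the projective line with at most one boundary point. -/
theorem neg_iff {B0 : Place k E0 → Prop} (hfin : (UB1 E B0).Finite) :
    canDeg k E + (UB1 E B0).ncard < 0 ↔ (∃ t : E, k⟮t⟯ = ⊤) ∧
      ∀ w ∈ UB1 E B0, ∀ w' ∈ UB1 E B0, w = w' := by
  constructor
  · intro h
    by_cases hrat : ∃ t : E, k⟮t⟯ = ⊤
    · refine ⟨hrat, ?_⟩
      obtain ⟨t, ht⟩ := hrat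
      rw [canDeg_rational ht] at h
      exact (Set.ncard_le_one hfin).1 (by omega)
    · have := canDeg_nonneg hrat
      omega
  · rintro ⟨⟨t, ht⟩, h⟩
    rw [canDeg_rational ht]
    have := (Set.ncard_le_one hfin).2 h
    omega

/-- A logarithmic form on a curve of log degree zero has no zeros. -/
theorem der_of_flat {B0 : Place k E0 → Prop} (hfin : (UB1 E B0).Finite) (hlog : HasLog E B0)
    (h0 : canDeg k E + (UB1 E B0).ncard = 0) : ∃ D : Derivation k E E, ∀ w : Place k E, ∀ t : E,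
      w.ord t = 1 → D t ≠ 0 ∧ (w ∈ UB1 E B0 → w.ord (D t) = 1) ∧
        (w ∉ UB1 E B0 → w.ord (D t) = 0) := by
  classical
  obtain ⟨D, f, hD, hf0, hf⟩ := hlog
  have hle : ∀ w : Place k E, vo w D - (if w ∈ UB1 E B0 then 1 else 0) ≤ w.ord f := by
    intro w
    obtain ⟨t, -, ht⟩ := w.surj
    by_cases hw : w ∈ UB1 E B0
    · obtain ⟨q, e, h1, h2⟩ := hw
      have := (hf q w e h1).2 h2
      rw [if_pos ⟨q, e, h1, h2⟩]
      exact this
    · rw [if_neg hw, sub_zero]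
      obtain ⟨r, q, hq⟩ := exists_over (K := E0) w (by
        by_contra hcon
        push Not at hcon
        obtain ⟨t, ht0, ht⟩ := w.surj
        have h1 : w.ord (algebraMap E E t) = 0 :=
          ord_eq_zero_of_alg (K0 := E0) (K1 := E) (K2 := E) w hcon t
        change w.ord t = 0 at h1
        omega)
      exact (hf q w r hq).1 fun hB => hw ⟨q, r, hq, hB⟩
  set T : Finset (Place k E) := ((finite_support (k := k) f).toFinset ∪
    (vo_finite hD).toFinset) ∪ hfin.toFinset with hT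
  have hs1 : ∑ q ∈ T, q.ord f = 0 := sum_ord_finset f T fun q hq =>
    Finset.mem_union_left _ (Finset.mem_union_left _
      ((finite_support (k := k) f).mem_toFinset.2 hq))
  have hs2 : ∑ q ∈ T, vo q D = - canDeg k E := canDeg_finset hD T fun q hq =>
    Finset.mem_union_left _ (Finset.mem_union_right _ ((vo_finite hD).mem_toFinset.2 hq))
  have hs3 : ∑ q ∈ T, (if q ∈ UB1 E B0 then (1 : ℤ) else 0) = (UB1 E B0).ncard := by
    rw [Finset.sum_boole, Set.ncard_eq_toFinset_card _ hfin]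
    congr 2
    ext q
    simp only [Finset.mem_filter, Set.Finite.mem_toFinset, hT, Finset.mem_union]
    constructor
    · exact fun h => h.2
    · exact fun h => ⟨Or.inr h, h⟩
  have heq : ∀ w : Place k E, w.ord f = vo w D - (if w ∈ UB1 E B0 then 1 else 0) := by
    intro w
    by_cases hw : w ∈ T
    · have h1 : ∑ q ∈ T, (q.ord f - (vo q D - (if q ∈ UB1 E B0 then 1 else 0))) = 0 := by
        rw [Finset.sum_sub_distrib, Finset.sum_sub_distrib, hs1, hs2, hs3]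
        linarith
      have h2 := (Finset.sum_eq_zero_iff_of_nonneg fun q _ => by
        have := hle q
        linarith).1 h1 w hw
      linarith
    · rw [hT, Finset.mem_union, Finset.mem_union] at hw
      push Not at hw
      have h1 : w.ord f = 0 := by
        by_contra h
        exact hw.1.1 ((finite_support (k := k) f).mem_toFinset.2 h)
      have h2 : vo w D = 0 := by
        by_contra h
        exact hw.1.2 ((vo_finite hD).mem_toFinset.2 h)
      have h3 : w ∉ UB1 E B0 := fun h => hw.2 (hfin.mem_toFinset.2 h)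
      rw [h1, h2, if_neg h3]
      rfl
  have hD' : f⁻¹ • D ≠ 0 := by
    intro h
    apply hD
    have h1 : f • (f⁻¹ • D) = D := by rw [smul_smul, mul_inv_cancel₀ hf0, one_smul]
    rw [← h1, h, smul_zero]
  refine ⟨f⁻¹ • D, fun w t ht => ?_⟩
  have h1 := vo_eq w ht hD'
  rw [vo_smul w hD (inv_ne_zero hf0), w.ord_inv, heq w] at h1
  refine ⟨der_pi_ne_zero hD' w ht, fun hw => ?_, fun hw => ?_⟩
  · rw [h1, if_pos hw]; ring
  · rw [h1, if_neg hw]; ring

end

section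

variable {k L : Type*} [Field k] [CharZero k] [IsAlgClosed k] [Field L] [Algebra k L]

theorem num_neg {K : Type*} [Field K] [Algebra k K] [Algebra K L] [IsScalarTower k K L]
    [FiniteDimensional K L] (n : ℕ) (hn : Algebra.trdeg k L = n)
    (F : Fin n → IntermediateField k L) [hF : ∀ i, IsFF k (F i)] (hsup : ⨆ i, F i = ⊤)
    {E0 : Fin n → Type*} [∀ i, Field (E0 i)]
    [∀ i, Algebra k (E0 i)] [∀ i, Algebra (E0 i) (F i)] [∀ i, Algebra (E0 i) K]
    [∀ i, Algebra (E0 i) L] [∀ i, IsScalarTower k (E0 i) (F i)] [∀ i, IsScalarTower k (E0 i) L]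
    [∀ i, IsScalarTower k (E0 i) K] [∀ i, IsScalarTower (E0 i) (F i) L]
    [∀ i, IsScalarTower (E0 i) K L] [∀ i, IsFF k (E0 i)]
    [∀ i, FiniteDimensional (E0 i) (F i)]
    (B : ∀ i, Place k (E0 i) → Prop) (Bd : Place k K → Prop)
    (hBd : ∀ v, Bd v ↔ ∃ (i : Fin n) (p : Place k (E0 i)) (a : ℕ), Over v p a ∧ B i p)
    (hUB : ∀ i, (UB F B i).Finite) (i : Fin n) (hi : ld F B i < 0) :
    NumNeg k K n Bd := by
  have hcard := card_le (K := K) (B := B) (Bd := Bd) hsup hn hBd hUB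
  intro S
  obtain ⟨A, hA⟩ := hcard S
  refine ⟨(A i + 1).toNat, fun m hm => ?_⟩
  rintro ⟨ω, hω, hsec⟩
  have h1 := hA m 1 1 ω hω hsec
  have h2 : (m * ld F B i + (1 : ℕ) * A i + 1).toNat = 0 := by
    rw [Int.toNat_eq_zero]
    have h3 : A i + 1 ≤ m := by
      have := Int.self_le_toNat (A i + 1)
      omega
    have h4 : (m : ℤ) * ld F B i ≤ m * (-1) := mul_le_mul_of_nonneg_left (by omega) (by positivity)
    push_cast
    linarith
  rw [Finset.prod_eq_zero (Finset.mem_univ i) h2] at h1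
  omega

open scoped Classical in
theorem num_le {K : Type*} [Field K] [Algebra k K] [Algebra K L] [IsScalarTower k K L]
    [FiniteDimensional K L] (n : ℕ) (hn : Algebra.trdeg k L = n)
    (F : Fin n → IntermediateField k L) [hF : ∀ i, IsFF k (F i)] (hsup : ⨆ i, F i = ⊤)
    {E0 : Fin n → Type*} [∀ i, Field (E0 i)]
    [∀ i, Algebra k (E0 i)] [∀ i, Algebra (E0 i) (F i)] [∀ i, Algebra (E0 i) K]
    [∀ i, Algebra (E0 i) L] [∀ i, IsScalarTower k (E0 i) (F i)] [∀ i, IsScalarTower k (E0 i) L]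
    [∀ i, IsScalarTower k (E0 i) K] [∀ i, IsScalarTower (E0 i) (F i) L]
    [∀ i, IsScalarTower (E0 i) K L] [∀ i, IsFF k (E0 i)]
    [∀ i, FiniteDimensional (E0 i) (F i)]
    (B : ∀ i, Place k (E0 i) → Prop) (Bd : Place k K → Prop)
    (hBd : ∀ v, Bd v ↔ ∃ (i : Fin n) (p : Place k (E0 i)) (a : ℕ), Over v p a ∧ B i p)
    (hUB : ∀ i, (UB F B i).Finite) (hneg : ∀ i, 0 ≤ ld F B i) :
    NumLe k K n Bd (Finset.univ.filter fun i => 0 < ld F B i).card := by
  have hcard := card_le (K := K) (B := B) (Bd := Bd) hsup hn hBd hUB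
  set H : Finset (Fin n) := Finset.univ.filter fun i => 0 < ld F B i with hH
  intro S
  obtain ⟨A, hA⟩ := hcard S
  refine ⟨∏ i, (ld F B i + |A i| + 1).toNat, fun m N' hm => ?_⟩
  rintro ⟨ω, hω, hsec⟩
  refine (hA m 1 N' ω hω hsec).trans ?_
  have h1 : ∀ i ∈ (Finset.univ : Finset (Fin n)), (m * ld F B i + (1 : ℕ) * A i + 1).toNat ≤
      (ld F B i + |A i| + 1).toNat * (if i ∈ H then m else 1) := by
    intro i _
    have h2 := le_abs_self (A i)
    have h3 := abs_nonneg (A i)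
    have h4 := hneg i
    by_cases hi : i ∈ H
    · rw [if_pos hi]
      have h5 : (m : ℤ) * ld F B i + (1 : ℕ) * A i + 1 ≤ (ld F B i + |A i| + 1) * m := by
        have h6 : (|A i| + 1) * 1 ≤ (|A i| + 1) * m :=
          mul_le_mul_of_nonneg_left (by exact_mod_cast hm) (by linarith)
        push_cast
        linarith
      have h6 : ((ld F B i + |A i| + 1).toNat * m : ℕ) =
          ((ld F B i + |A i| + 1) * m).toNat := by
        rw [Int.toNat_mul (by linarith) (by positivity)]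
        rfl
      rw [h6]
      exact Int.toNat_le_toNat h5
    · rw [if_neg hi, mul_one]
      have h5 : ld F B i = 0 := by
        have h6 : ¬ 0 < ld F B i := fun h => hi (Finset.mem_filter.2 ⟨Finset.mem_univ i, h⟩)
        omega
      rw [h5]
      refine Int.toNat_le_toNat ?_
      push_cast
      linarith
  refine (Finset.prod_le_prod' h1).trans (le_of_eq ?_)
  rw [Finset.prod_mul_distrib]
  congr 1
  rw [Finset.prod_ite, Finset.prod_const_one, mul_one, Finset.prod_const]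
  congr 2
  ext i
  simp

open scoped Classical in
theorem kod_ge (n : ℕ) (hn : Algebra.trdeg k L = n)
    (F : Fin n → IntermediateField k L) [hF : ∀ i, IsFF k (F i)] (hsup : ⨆ i, F i = ⊤)
    (G : Subgroup (L ≃ₐ[k] L)) [Finite G] {E0 : Fin n → Type*} [∀ i, Field (E0 i)]
    [∀ i, Algebra k (E0 i)] [∀ i, Algebra (E0 i) (F i)] [∀ i, Algebra (E0 i) (fixedField G)]
    [∀ i, Algebra (E0 i) L] [∀ i, IsScalarTower k (E0 i) (F i)] [∀ i, IsScalarTower k (E0 i) L]
    [∀ i, IsScalarTower k (E0 i) (fixedField G)] [∀ i, IsScalarTower (E0 i) (F i) L]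
    [∀ i, IsScalarTower (E0 i) (fixedField G) L] [∀ i, IsFF k (E0 i)]
    [∀ i, FiniteDimensional (E0 i) (F i)] (ρ : ∀ i, G →* (F i ≃ₐ[k] F i))
    (hcomp : ∀ i (g : G) z, ((ρ i g z : F i) : L) = (g : L ≃ₐ[k] L) (z : L))
    (hfix : ∀ i g (z : E0 i), ρ i g (algebraMap (E0 i) (F i) z) = algebraMap (E0 i) (F i) z)
    (hinv : ∀ i (z : F i), (∀ g, ρ i g z = z) → ∃ z0, algebraMap (E0 i) (F i) z0 = z)
    (B : ∀ i, Place k (E0 i) → Prop) (hBfin : ∀ i, {p | B i p}.Finite) (N : Fin n → ℕ)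
    (hN : ∀ i, (7 ≤ N i ∨ (3 ≤ N i ∧ ∃ q, B i q) ∨
        (2 ≤ N i ∧ ((∃ q q', q ≠ q' ∧ B i q ∧ B i q') ∨ ¬ ∃ t : E0 i, k⟮t⟯ = ⊤)) ∨
        ∃ (S : Finset (Place k (E0 i))) (ν : Place k (E0 i) → ℕ),
          1 ≤ N i ∧ (∀ q ∈ S, ¬ B i q → 1 ≤ ν q ∧ ν q ≤ N i ∧
            ∀ (w : Place k (F i)) (e : ℕ), Over w q e → ν q ≤ e) ∧
          (0 : ℚ) < canDeg k (E0 i) + ∑ q ∈ S, (if B i q then 1 else 1 - 1 / (ν q : ℚ))) ∨
      (ld F B i = 0 ∧ (6 ≤ N i ∨ (2 ≤ N i ∧ ∃ q, B i q) ∨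
        (1 ≤ N i ∧ ∃ q q', q ≠ q' ∧ B i q ∧ B i q') ∨ (1 ≤ N i ∧ ¬ ∃ t : E0 i, k⟮t⟯ = ⊤) ∨
        ∃ (S : Finset (Place k (E0 i))) (ν : Place k (E0 i) → ℕ),
          1 ≤ N i ∧ (∀ q ∈ S, ¬ B i q → 1 ≤ ν q ∧ ν q ≤ N i ∧
            ∀ (w : Place k (F i)) (e : ℕ), Over w q e → ν q ≤ e) ∧
          (2 : ℚ) ≤ ∑ q ∈ S, (if B i q then 1 else 1 - 1 / (ν q : ℚ)))))
    (hrot : ∀ g : G, g ≠ 1 → ∀ ζ : k, IsPrimitiveRoot ζ (orderOf (g : L ≃ₐ[k] L)) →
      ∀ a : Fin n → ℕ, (∀ i, (a i = 0 ∧ ρ i g = 1) ∨ (0 < a i ∧ a i < orderOf (g : L ≃ₐ[k] L) ∧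
        ∃ q : Place k (F i), (∀ p r, Over q p r → ¬ B i p) ∧ ∀ z : F i, q.ord z = 1 →
          Ge q 2 (ρ i g z - algebraMap k (F i) (ζ ^ a i) * z))) →
      (1 : ℚ) ≤ ∑ i, if a i = 0 then 0 else
        max ((a i : ℚ) / orderOf (g : L ≃ₐ[k] L)) (1 / (N i : ℚ))) (hneg : ∀ i, 0 ≤ ld F B i) :
    KodGe k (fixedField G) n (Bdry B) (Finset.univ.filter fun i => 0 < ld F B i).card := by
  have hUB : ∀ i, (UB F B i).Finite := fun i => UB1_finite (hBfin i)
  set H : Finset (Fin n) := Finset.univ.filter fun i => 0 < ld F B i with hH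
  refine lower_abstract n hn F hsup G ρ hcomp B N hrot H fun i => ?_
  by_cases hi : 0 < ld F B i
  · obtain ⟨m, D0, c, c', h1, h2, h3, h4, h5, h6, h7⟩ := exists_two_good (ρ i) (hfix i)
      (hinv i) (B i) (hUB i) hi (N i) ((hN i).resolve_right fun h => hi.ne' h.1)
    exact ⟨m, D0, c, c', h1, h2, h3, h4, h5, h6, fun _ => h7⟩
  · have h0 : ld F B i = 0 := le_antisymm (not_lt.1 hi) (hneg i)
    have hlog := log_of_nonneg (E := F i) (B0 := B i) (hUB i) h0.ge
    have hl : HasLog (F i) (B i) := by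
      rcases hlog with h | ⟨w1, w2, q1, q2, e1, e2, h0, h1, h2, h3, h4⟩
      · exact hasLog_of_nonrational _ h
      · exact hasLog_of_two _ h0 h1 h2 h3 h4
    have hemp : (∀ q, ¬ B i q) → ¬ ∃ t : F i, k⟮t⟯ = ⊤ := by
      intro hemp
      rcases hlog with h | ⟨w1, w2, q1, q2, e1, e2, h0, h1, h2, h3, h4⟩
      · exact h
      · exact absurd h3 (hemp q1)
    have hNold : 6 ≤ N i ∨ (2 ≤ N i ∧ ∃ q, B i q) ∨
        (1 ≤ N i ∧ ∃ q q', q ≠ q' ∧ B i q ∧ B i q') ∨ (1 ≤ N i ∧ ¬ ∃ t : E0 i, k⟮t⟯ = ⊤) ∨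
        ∃ (S : Finset (Place k (E0 i))) (ν : Place k (E0 i) → ℕ),
          1 ≤ N i ∧ (∀ q ∈ S, ¬ B i q → 1 ≤ ν q ∧ ν q ≤ N i ∧
            ∀ (w : Place k (F i)) (e : ℕ), Over w q e → ν q ≤ e) ∧
          (2 : ℚ) ≤ ∑ q ∈ S, (if B i q then 1 else 1 - 1 / (ν q : ℚ)) := by
      rcases hN i with (h | ⟨h, h'⟩ | ⟨h, h' | h'⟩ | ⟨S, ν, h, h', h''⟩) | ⟨-, h⟩
      · exact Or.inl (by omega)
      · exact Or.inr (Or.inl ⟨by omega, h'⟩)
      · exact Or.inr (Or.inr (Or.inl ⟨by omega, h'⟩))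
      · exact Or.inr (Or.inr (Or.inr (Or.inl ⟨by omega, h'⟩)))
      · by_cases hr : ∃ t : E0 i, k⟮t⟯ = ⊤
        · refine Or.inr (Or.inr (Or.inr (Or.inr ⟨S, ν, h, h', ?_⟩)))
          obtain ⟨t, ht⟩ := hr
          rw [canDeg_rational ht] at h''
          push_cast at h''
          linarith
        · exact Or.inr (Or.inr (Or.inr (Or.inl ⟨h, hr⟩)))
      · exact h
    obtain ⟨m, D0, c, h1, h2, h3, h4⟩ := exists_good (ρ i) (hfix i) (hinv i) (B i) hl hemp
      (N i) hNold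
    exact ⟨m, D0, c, c, h1, h2, h3, h3, h4, h4, fun hiH =>
      absurd (Finset.mem_filter.1 hiH).2 hi⟩

end

end Pool.Agent.W619.TW
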