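import Pool.Agent.W619.TW.KN
import Pool.Agent.W619.PL.LStm

/-! Kodaira dimension equals numerical dimension for quotients of products of curves. -/

set_option autoImplicit false
set_option linter.overlappingInstances false
set_option linter.unusedSectionVars false

universe u v

open FF IntermediateField Pool.Agent.W619.PQ Pool.Agent.W619.PL

namespace Pool.Agent.W619.TW

open Pool.Agent.W603.LV

section

variable {k : Type*} [Field k] [CharZero k] [IsAlgClosed k]
  {E0 : Type*} [Field E0] [Algebra k E0] [IsFF k E0]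

open scoped Classical in
theorem strict_sum (B : Set (Place k E0)) (D : Derivation k E0 E0) (hD : D ≠ 0)
    (o : Place k E0 → ℤ) (ho : ∀ q, ∀ t, q.ord t = 1 → q.ord (D t) = o q)
    (S : Finset (Place k E0)) (hS : ∀ q, q ∉ S → o q ≤ 0) (ν : Place k E0 → ℕ)
    (h : (0 : ℚ) < ∑ q ∈ S, ((if q ∈ B then 1 else 1 - 1 / (ν q : ℚ)) - o q)) :
    (0 : ℚ) < canDeg k E0 + ∑ q ∈ S, (if q ∈ B then 1 else 1 - 1 / (ν q : ℚ)) := by
  have hvo : ∀ q, vo q D = o q := by
    intro q
    obtain ⟨t, -, ht⟩ := q.surj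
    rw [← vo_eq q ht hD, ho q t ht]
  set T : Finset (Place k E0) := S ∪ (vo_finite hD).toFinset
  have h1 : ∑ q ∈ T, vo q D = - canDeg k E0 := canDeg_finset hD T fun q hq =>
    Finset.mem_union_right _ ((vo_finite hD).mem_toFinset.2 hq)
  have h2 : ∑ q ∈ S, (- o q) ≤ canDeg k E0 := by
    have h3 : ∑ q ∈ S, (- o q) ≤ ∑ q ∈ T, (- o q) := by
      refine Finset.sum_le_sum_of_subset_of_nonneg Finset.subset_union_left fun q _ hq => ?_
      have := hS q hq
      omega
    rw [Finset.sum_neg_distrib (s := T), Finset.sum_congr rfl fun q _ => (hvo q).symm, h1,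
      neg_neg] at h3
    exact h3
  have h3 : ((∑ q ∈ S, (- o q) : ℤ) : ℚ) ≤ canDeg k E0 := by exact_mod_cast h2
  rw [Finset.sum_sub_distrib] at h
  push_cast at h3
  rw [Finset.sum_neg_distrib] at h3
  linarith

end

variable {k : Type v} {L : Type u} [Field k] [Field L] [Algebra k L]

theorem kn_main [CharZero k] [IsAlgClosed k] (n : ℕ) (hn : Algebra.trdeg k L = n)
    (F : Fin n → IntermediateField k L) (hF : ∀ i, IsFF k (F i)) (hsup : ⨆ i, F i = ⊤)
    (G : Subgroup (L ≃ₐ[k] L)) [Finite G] (hst : ∀ i, ∀ g ∈ G, ∀ z ∈ F i, g z ∈ F i)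
    (B : ∀ i, Set (Place k ↥(F i ⊓ fixedField G))) (hB : ∀ i, (B i).Finite) (N : Fin n → ℕ)
    (hN : ∀ i, StrictAdmissible inf_le_left (B i) (N i) ∨
      (IsFlat inf_le_left (B i) ∧ Admissible inf_le_left (B i) (N i)))
    (hrot : RotCond G F B N) :
    ((∃ i, IsNegative inf_le_left (B i)) → NumNeg k (fixedField G) n (QBd F G B)) ∧
    ((∀ i, ¬ IsNegative inf_le_left (B i)) →
      KodGe k (fixedField G) n (QBd F G B) {i | ¬ IsFlat inf_le_left (B i)}.ncard ∧
      NumLe k (fixedField G) n (QBd F G B) {i | ¬ IsFlat inf_le_left (B i)}.ncard) := by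
  classical
  let E0 : Fin n → Type u := fun i => ↥(F i ⊓ fixedField G)
  let _ : ∀ i, Field (E0 i) := fun i => inferInstanceAs (Field ↥(F i ⊓ fixedField G))
  let _ : ∀ i, Algebra k (E0 i) := fun i => inferInstanceAs (Algebra k ↥(F i ⊓ fixedField G))
  let _ : ∀ i, Algebra (E0 i) (F i) := fun i =>
    (inclusion (inf_le_left : F i ⊓ fixedField G ≤ F i)).toRingHom.toAlgebra
  let _ : ∀ i, Algebra (E0 i) (fixedField G) := fun i =>
    (inclusion (inf_le_right : F i ⊓ fixedField G ≤ fixedField G)).toRingHom.toAlgebra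
  let _ : ∀ i, Algebra (E0 i) L := fun i => inferInstanceAs (Algebra ↥(F i ⊓ fixedField G) L)
  have t1 : ∀ i, IsScalarTower k (E0 i) (F i) := fun i =>
    IsScalarTower.of_algebraMap_eq fun c => rfl
  have t2 : ∀ i, IsScalarTower k (E0 i) L := fun i =>
    IsScalarTower.of_algebraMap_eq fun c => rfl
  have t3 : ∀ i, IsScalarTower k (E0 i) (fixedField G) := fun i =>
    IsScalarTower.of_algebraMap_eq fun c => rfl
  have t4 : ∀ i, IsScalarTower (E0 i) (F i) L := fun i =>
    IsScalarTower.of_algebraMap_eq fun c => rfl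
  have t5 : ∀ i, IsScalarTower (E0 i) (fixedField G) L := fun i =>
    IsScalarTower.of_algebraMap_eq fun c => rfl
  have f1 : ∀ i, FiniteDimensional (E0 i) (F i) := fun i => inf_finite G (F i) (hst i) fun z => rfl
  have f2 : ∀ i, IsFF k (E0 i) := fun i => isFF_down (E := F i)
  have hBd : QBd F G B = Bdry (E0 := E0) (fun i q => q ∈ B i) := by
    funext v
    apply propext
    constructor
    · rintro ⟨i, p, hp, e, h⟩
      exact ⟨i, p, e, h, hp⟩
    · rintro ⟨i, p, e, h, hp⟩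
      exact ⟨i, p, hp, e, h⟩
  rw [hBd]
  have hfinL : FiniteDimensional (fixedField G) L := by
    have hGal : IsGaloisGroup G (fixedField G) L := isGaloisGroup_fixed G
    exact IsGaloisGroup.finiteDimensional G (fixedField G) L
  have hUB : ∀ i, (UB F (E0 := E0) (fun i q => q ∈ B i) i).Finite := fun i => UB1_finite (hB i)
  -- negative factors
  have hneg : ∀ i, IsNegative inf_le_left (B i) ↔ ld F (E0 := E0) (fun i q => q ∈ B i) i < 0 := by
    intro i
    refine Iff.trans ?_ (neg_iff (E0 := E0 i) (E := F i) (B0 := fun q => q ∈ B i) (hUB i)).symm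
    refine and_congr_right fun _ => ⟨fun h w hw w' hw' => ?_, fun h w w' hw hw' => ?_⟩
    · obtain ⟨p, r, h1, h2⟩ := hw
      obtain ⟨p', r', h1', h2'⟩ := hw'
      exact h w w' ⟨p, h2, r, h1⟩ ⟨p', h2', r', h1'⟩
    · obtain ⟨p, h2, r, h1⟩ := hw
      obtain ⟨p', h2', r', h1'⟩ := hw'
      exact h w ⟨p, r, h1, h2⟩ w' ⟨p', r', h1', h2'⟩
  -- flat factors
  have hflat1 : ∀ i, IsFlat inf_le_left (B i) → ld F (E0 := E0) (fun i q => q ∈ B i) i = 0 := by
    rintro i ⟨D, hD⟩
    refine flat_of_der (E := F i) (UB1_finite (hB i)) (D := D) fun w t ht => ?_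
    obtain ⟨a1, a2⟩ := hD w t ht
    refine ⟨a1, fun hw => ?_, fun hw => ?_⟩
    · obtain ⟨p, r, hp1, hp2⟩ := hw
      rw [a2, if_pos ⟨p, hp2, r, hp1⟩]
    · rw [a2, if_neg]
      rintro ⟨p, hp2, r, hp1⟩
      exact hw ⟨p, r, hp1, hp2⟩
  have hflat2 : ∀ i, ld F (E0 := E0) (fun i q => q ∈ B i) i = 0 → IsFlat inf_le_left (B i) := by
    intro i h0
    have hlog := hasLog_of_nonneg (E := F i) (hUB i) h0.ge
    obtain ⟨D, hD⟩ := der_of_flat (E := F i) (hUB i) hlog h0
    refine ⟨D, fun w t ht => ?_⟩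
    obtain ⟨a1, a2, a3⟩ := hD w t ht
    refine ⟨a1, ?_⟩
    split_ifs with hw
    · obtain ⟨p, hp2, r, hp1⟩ := hw
      exact a2 ⟨p, r, hp1, hp2⟩
    · refine a3 fun h => hw ?_
      obtain ⟨p, r, hp1, hp2⟩ := h
      exact ⟨p, hp2, r, hp1⟩
  constructor
  · rintro ⟨i, hi⟩
    exact num_neg (K := fixedField G) n hn F hsup (fun i q => q ∈ B i) _ (fun v => Iff.rfl) hUB i
      ((hneg i).1 hi)
  · intro hall
    have hall' : ∀ i, 0 ≤ ld F (E0 := E0) (fun i q => q ∈ B i) i := fun i => by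
      have := hall i
      rw [hneg i] at this
      omega
    have hcard : {i | ¬ IsFlat inf_le_left (B i)}.ncard =
        (Finset.univ.filter fun i => 0 < ld F (E0 := E0) (fun i q => q ∈ B i) i).card := by
      rw [← Set.ncard_coe_finset]
      congr 1
      ext i
      simp only [Set.mem_ofPred_eq, Finset.coe_filter, Finset.mem_univ, true_and]
      constructor
      · intro h
        have h1 := hall' i
        have h2 : ld F (E0 := E0) (fun i q => q ∈ B i) i ≠ 0 := fun h' => h (hflat2 i h')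
        omega
      · intro h h'
        have := hflat1 i h'
        omega
    rw [hcard]
    refine ⟨?_, num_le (K := fixedField G) n hn F hsup (fun i q => q ∈ B i) _ (fun v => Iff.rfl)
      hUB hall'⟩
    refine kod_ge n hn F hsup G (E0 := E0) (fun i => rho G (F i) (hst i))
      (fun i g z => rfl) (fun i g z => ?_) (fun i z hz => ?_) (fun i q => q ∈ B i) hB N
      (fun i => ?_) ?_ hall'
    · apply Subtype.ext
      exact z.2.2 g
    · refine ⟨⟨(z : L), z.2, fun g => ?_⟩, rfl⟩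
      exact congrArg (Subtype.val : F i → L) (hz g)
    · rcases hN i with ⟨h1, h | ⟨h, h'⟩ | ⟨h, h' | h'⟩ | ⟨D, o, S, ν, h2, h3, h4, h5, h6⟩⟩ |
        ⟨hfl, h1, h⟩
      · exact Or.inl (Or.inl h)
      · exact Or.inl (Or.inr (Or.inl ⟨h, h'⟩))
      · obtain ⟨q, hq, q', hq', hne⟩ := h'
        exact Or.inl (Or.inr (Or.inr (Or.inl ⟨h, Or.inl ⟨q, q', hne, hq, hq'⟩⟩)))
      · exact Or.inl (Or.inr (Or.inr (Or.inl ⟨h, Or.inr h'⟩)))
      · exact Or.inl (Or.inr (Or.inr (Or.inr ⟨S, ν, h1, h5,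
          strict_sum (E0 := E0 i) (B i) D h2 o h3 S h4 ν h6⟩)))
      · right
        refine ⟨hflat1 i hfl, ?_⟩
        obtain h | h | h | h | ⟨S, ν, h2, h3⟩ := h
        · exact Or.inl h
        · exact Or.inr (Or.inl h)
        · obtain ⟨q, hq, q', hq', hne⟩ := h
          exact Or.inr (Or.inr (Or.inl ⟨h1, q, q', hne, hq, hq'⟩))
        · exact Or.inr (Or.inr (Or.inr (Or.inl ⟨h1, h⟩)))
        · exact Or.inr (Or.inr (Or.inr (Or.inr ⟨S, ν, h1, h2, h3⟩)))
    · intro g hg ζ hζ a ha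
      refine hrot (g : L ≃ₐ[k] L) g.2 (fun h => hg (Subtype.ext h)) ζ hζ a fun i => ?_
      rcases ha i with ⟨h1, h2⟩ | ⟨h1, h2, q, h3, h4⟩
      · left
        refine ⟨h1, fun z hz => ?_⟩
        have h5 := congrArg (fun φ : F i ≃ₐ[k] F i => ((φ ⟨z, hz⟩ : F i) : L)) h2
        exact h5
      · right
        refine ⟨h1, h2, q, fun p hp e hqp => h3 p e hqp hp, fun z z' hz' hz => ?_⟩
        have h5 : z' = rho G (F i) (hst i) g z := Subtype.ext hz'.symm
        rw [h5, Algebra.smul_def]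
        exact (h4 z hz).imp (fun h => sub_eq_zero.1 h) id

end Pool.Agent.W619.TW
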