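import Pool.Agent.W619.TW.TDefs

/-! Definitions: Kodaira dimension and numerical dimension (growth of sections). -/

set_option autoImplicit false
set_option linter.overlappingInstances false
set_option linter.unusedSectionVars false

universe u v

open FF IntermediateField Pool.Agent.W619.PQ Pool.Agent.W619.PL

namespace Pool.Agent.W619.TW

section

variable (k : Type u) (K : Type v) [Field k] [Field K] [Algebra k K]

/-- There are `N` linearly independent `ω` with the property `P`. -/
def HasIndep (n N : ℕ) (P : ((Fin n → Derivation k K K) → K) → Prop) : Prop :=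
  ∃ ω : Fin N → (Fin n → Derivation k K K) → K, LinearIndependent k ω ∧ ∀ l, P (ω l)

/-- `ν (K_X + D) = -∞`: for every divisor `A` (generated by a finite set `S` of functions),
`m (K_X + D) + A` has no nonzero section for large `m`. -/
def NumNeg (n : ℕ) (Bd : Place k K → Prop) : Prop :=
  ∀ S : Finset K, ∃ m0 : ℕ, ∀ m, m0 ≤ m → ¬ HasIndep k K n 1 (IsSec k K n Bd S m 1)

/-- `ν (K_X + D) ≤ h`: for every divisor `A` (generated by a finite set `S` of functions) there is
a constant `C` with `h⁰ (m (K_X + D) + A) ≤ C m ^ h` for all `m ≥ 1`. -/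
def NumLe (n : ℕ) (Bd : Place k K → Prop) (h : ℕ) : Prop :=
  ∀ S : Finset K, ∃ C : ℕ, ∀ m N : ℕ, 1 ≤ m →
    HasIndep k K n N (IsSec k K n Bd S m 1) → N ≤ C * m ^ h

/-- `κ (K_X + D) ≥ h`: there is `m ≥ 1` with `h⁰ (j m (K_X + D)) ≥ j ^ h` for all `j ≥ 1`. -/
def KodGe (n : ℕ) (Bd : Place k K → Prop) (h : ℕ) : Prop :=
  ∃ m : ℕ, 1 ≤ m ∧ ∀ j : ℕ, 1 ≤ j → HasIndep k K n (j ^ h) (IsSec k K n Bd {1} (j * m) 0)

end

section

variable {k : Type u} {L : Type v} [Field k] [Field L] [Algebra k L]

/-- The automorphism `g` fixes the point `q` of the curve `F` and acts on its cotangent space by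
`c`: for each uniformizer `z` at `q`, the function `g z - c z` vanishes to second order at `q`. -/
def IsRot (F : IntermediateField k L) (g : L ≃ₐ[k] L) (q : Place k F) (c : k) : Prop :=
  ∀ z z' : F, g z = z' → q.ord z = 1 → z' = c • z ∨ 2 ≤ q.ord (z' - c • z)

/-- The numerical condition of Reid-Tai type: let `g ≠ 1` in `G` have order `d`, let `g` fix a
point `q i` outside the boundary on each curve `F i` on which `g` is not trivial, and let `g` act
on the cotangent space at `q i` by `ζ ^ a i`, with `0 < a i < d` (where `ζ` is a primitive `d`-th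
root of unity). Then `1 ≤ ∑ max (a i / d) (1 / N i)`, the sum over these `i`. -/
def RotCond {n : ℕ} (G : Subgroup (L ≃ₐ[k] L)) (F : Fin n → IntermediateField k L)
    (B : ∀ i, Set (Place k ↥(F i ⊓ fixedField G))) (N : Fin n → ℕ) : Prop :=
  ∀ g ∈ G, g ≠ 1 → ∀ ζ : k, IsPrimitiveRoot ζ (orderOf g) → ∀ a : Fin n → ℕ,
    (∀ i, (a i = 0 ∧ ∀ z ∈ F i, g z = z) ∨ (0 < a i ∧ a i < orderOf g ∧ ∃ q : Place k (F i),
      (∀ p ∈ B i, ∀ e, ¬ LiesOver inf_le_left q p e) ∧ IsRot (F i) g q (ζ ^ a i))) →
    (1 : ℚ) ≤ ∑ i, if a i = 0 then 0 else max ((a i : ℚ) / orderOf g) (1 / (N i : ℚ))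

open scoped Classical in
/-- `ν` is a strict signature on the finite set `S` of points of the curve with function field
`Q`, which is a quotient of the one with function field `F`: outside `B` the numbers `ν q` are at
most `N` and at most all ramification indices over `q`, and the divisor
`K_Q + ∑ (1 - 1 / ν q) q`, where the points of `B` count `1`, has positive degree; here `K_Q` is
given by the orders `o` of a vector field `D`, which are not positive outside `S`. -/
def IsStrictSignature {Q F : IntermediateField k L} (h : Q ≤ F) (B : Set (Place k Q)) (N : ℕ)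
    (D : Derivation k Q Q) (o : Place k Q → ℤ) (S : Finset (Place k Q)) (ν : Place k Q → ℕ) :
    Prop :=
  D ≠ 0 ∧ (∀ q, ∀ t, q.ord t = 1 → q.ord (D t) = o q) ∧ (∀ q, q ∉ S → o q ≤ 0) ∧
    (∀ q ∈ S, q ∉ B → 1 ≤ ν q ∧ ν q ≤ N ∧ ∀ w e, LiesOver h w q e → ν q ≤ e) ∧
    (0 : ℚ) < ∑ q ∈ S, ((if q ∈ B then 1 else 1 - 1 / (ν q : ℚ)) - o q)

/-- The bound `N ≥ 1` is strictly admissible for the curve `F` with quotient `Q` and boundary `B`
on `Q`: `N ≥ 7`, or `N ≥ 3` and `B` is not empty, or `N ≥ 2` and `B` has two points or `Q` is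
irrational, or there is a strict signature bounded by `N`. -/
def StrictAdmissible {Q F : IntermediateField k L} (h : Q ≤ F) (B : Set (Place k Q)) (N : ℕ) :
    Prop :=
  1 ≤ N ∧ (7 ≤ N ∨ (3 ≤ N ∧ B.Nonempty) ∨ (2 ≤ N ∧ (B.Nontrivial ∨ ¬ ∃ t : Q, k⟮t⟯ = ⊤)) ∨
    ∃ D o S ν, IsStrictSignature h B N D o S ν)

open scoped Classical in
/-- The curve `F` with the boundary over `B` is flat (an elliptic curve, or the projective line
minus two points): some vector field `D` has a simple zero at each boundary point and no other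
zeros or poles. -/
def IsFlat {Q F : IntermediateField k L} (h : Q ≤ F) (B : Set (Place k Q)) : Prop :=
  ∃ D : Derivation k F F, ∀ w : Place k F, ∀ t : F, w.ord t = 1 →
    D t ≠ 0 ∧ w.ord (D t) = if ∃ p ∈ B, ∃ e, LiesOver h w p e then 1 else 0

/-- The curve `F` minus the points over `B` is the projective line or the affine line. -/
def IsNegative {Q F : IntermediateField k L} (h : Q ≤ F) (B : Set (Place k Q)) : Prop :=
  (∃ t : F, k⟮t⟯ = ⊤) ∧ ∀ w w' : Place k F, (∃ p ∈ B, ∃ e, LiesOver h w p e) →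
    (∃ p ∈ B, ∃ e, LiesOver h w' p e) → w = w'

end

end Pool.Agent.W619.TW
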