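import Pool.Agent.W619.TW.NDefs
import Mathlib.LinearAlgebra.Multilinear.Basic

/-! Definitions: tensor differentials, unirationality. -/

set_option autoImplicit false
set_option linter.overlappingInstances false
set_option linter.unusedSectionVars false

universe u v

open FF IntermediateField Pool.Agent.W619.PQ Pool.Agent.W619.PL

namespace Pool.Agent.W619.TW

section

variable (k : Type u) (K : Type v) [Field k] [Field K] [Algebra k K]

/-- `H⁰ (X, (Ω¹) ^ ⊗ r) = 0` for all `r ≥ 1`, where `X` is a smooth projective variety of dimension
`n` with function field `K`: each `K`-multilinear function of `r` rational vector fields which is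
regular along all divisors `v` (it takes vector fields regular along `v` to functions
regular along `v`) is zero. -/
def TensorVanish (n : ℕ) : Prop :=
  ∀ r : ℕ, 1 ≤ r → ∀ ω : MultilinearMap K (fun _ : Fin r => Derivation k K K) K,
    (∀ v : Place k K, IsDivisorial v n → ∀ D : Fin r → Derivation k K K,
      (∀ j, ∀ f, v.Reg f → v.Reg (D j f)) → v.Reg (ω D)) → ω = 0

/-- The variety with function field `K` is unirational, dominated by `n`-dimensional projective
space: `K` embeds over `k` into the field of rational functions in `n` variables. -/
def IsUnirational (n : ℕ) : Prop :=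
  Nonempty (K →ₐ[k] FractionRing (MvPolynomial (Fin n) k))

end

section

variable {k : Type u} {L : Type v} [Field k] [Field L] [Algebra k L]

/-- The condition of Reid-Tai type for the factors in `J`: let `g` in `G` have order `d`, let `g`
not be trivial on all the curves `F i` with `i` in `J`, and let `g` fix a point `q i` on each such
curve on which it is not trivial, and act on the cotangent space at `q i` by `ζ ^ a i`, with
`0 < a i < d` (where `ζ` is a primitive `d`-th root of unity). Then
`1 ≤ ∑ max (a i / d) (1 / N i)`, the sum over these `i`. -/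
def RotCondOn {n : ℕ} (J : Fin n → Prop) (G : Subgroup (L ≃ₐ[k] L))
    (F : Fin n → IntermediateField k L) (N : Fin n → ℕ) : Prop :=
  ∀ g ∈ G, ∀ ζ : k, IsPrimitiveRoot ζ (orderOf g) → ∀ a : Fin n → ℕ, (∃ i, a i ≠ 0) →
    (∀ i, ¬ J i → a i = 0) →
    (∀ i, J i → (a i = 0 ∧ ∀ z ∈ F i, g z = z) ∨ (0 < a i ∧ a i < orderOf g ∧
      ∃ q : Place k (F i), IsRot (F i) g q (ζ ^ a i))) →
    (1 : ℚ) ≤ ∑ i, if a i = 0 then 0 else max ((a i : ℚ) / orderOf g) (1 / (N i : ℚ))

end

end Pool.Agent.W619.TW
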