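import Pool.Agent.W619.TW.PMain
import Pool.Agent.W619.TW.NVFin

/-! Kodaira dimension equals numerical dimension when the canonical divisor is pseudo-effective. -/

set_option autoImplicit false
set_option linter.overlappingInstances false
set_option linter.unusedSectionVars false

universe u v

open Polynomial FF IntermediateField IsDedekindDomain

namespace Pool.Agent.W619.TW

open Pool.Agent.W603.LV Pool.Agent.W619.PQ Pool.Agent.W619.PL

section

variable {k : Type v} {K : Type u} [Field k] [Field K] [Algebra k K]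

theorem pairSec_zero {n : ℕ} {S : Finset K} {m j : ℕ} {ω : (Fin n → Derivation k K K) → K} :
    IsPairSec k K n (fun _ => 0) S m j ω ↔ IsSec k K n (fun _ => False) S m j ω := by
  unfold IsPairSec IsSec Dom
  constructor
  · rintro ⟨h1, h2⟩
    refine ⟨h1, fun v hv _ D hD => ?_, fun v _ h => h.elim⟩
    rcases h2 v hv D hD with h | ⟨s, hs, hs0, h⟩
    · exact Or.inl h
    · refine Or.inr ⟨s, hs, hs0, ?_⟩
      rw [mul_zero, sub_zero] at h
      exact_mod_cast h
  · rintro ⟨h1, h2, -⟩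
    refine ⟨h1, fun v hv D hD => ?_⟩
    rcases h2 v hv not_false D hD with h | ⟨s, hs, hs0, h⟩
    · exact Or.inl h
    · refine Or.inr ⟨s, hs, hs0, ?_⟩
      rw [mul_zero, sub_zero]
      exact_mod_cast h

end

variable {k : Type v} {L : Type u} [Field k] [Field L] [Algebra k L]

theorem admissible_of_strict [CharZero k] [IsAlgClosed k] {Q F : IntermediateField k L}
    [IsFF k Q] (h : Q ≤ F) {N : ℕ} (hN : StrictAdmissible h (∅ : Set (Place k Q)) N) :
    Admissible h (∅ : Set (Place k Q)) N := by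
  classical
  rcases hN with ⟨h1, h2 | ⟨h2, h3⟩ | ⟨h2, h3 | h3⟩ | ⟨D, o, S, ν, h2, h3, h4, h5, h6⟩⟩
  · exact ⟨h1, Or.inl (by omega)⟩
  · exact absurd h3 Set.not_nonempty_empty
  · exact absurd h3 Set.not_nontrivial_empty
  · exact ⟨h1, Or.inr (Or.inr (Or.inr (Or.inl h3)))⟩
  · refine ⟨h1, Or.inr (Or.inr (Or.inr ?_))⟩
    by_cases hr : ∃ t : Q, k⟮t⟯ = ⊤
    · right
      refine ⟨S, ν, h5, ?_⟩
      have h7 := strict_sum (E0 := Q) ∅ D h2 o h3 S h4 ν h6
      obtain ⟨t, ht⟩ := hr
      rw [canDeg_rational ht] at h7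
      push_cast at h7
      linarith
    · exact Or.inl hr

theorem minimal_main [CharZero k] [IsAlgClosed k] (n : ℕ) (hn : Algebra.trdeg k L = n)
    (F : Fin n → IntermediateField k L) (hF : ∀ i, IsFF k (F i)) (hsup : ⨆ i, F i = ⊤)
    (G : Subgroup (L ≃ₐ[k] L)) [Finite G] (hst : ∀ i, ∀ g ∈ G, ∀ z ∈ F i, g z ∈ F i)
    (N : Fin n → ℕ)
    (hN : ∀ i, (¬ ∃ t : F i, k⟮t⟯ = ⊤) →
      StrictAdmissible (inf_le_left : F i ⊓ fixedField G ≤ F i) ∅ (N i) ∨
      (IsElliptic (F i) ∧ Admissible (inf_le_left : F i ⊓ fixedField G ≤ F i) ∅ (N i)))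
    (hrot : RotCond G F (fun _ => ∅) N) :
    ((∃ i, ∃ t : F i, k⟮t⟯ = ⊤) → ¬ IsPsef k (fixedField G) n fun _ => False) ∧
    ((∀ i, ¬ ∃ t : F i, k⟮t⟯ = ⊤) →
      KodGe k (fixedField G) n (fun _ => False) {i | ¬ IsElliptic (F i)}.ncard ∧
      NumLe k (fixedField G) n (fun _ => False) {i | ¬ IsElliptic (F i)}.ncard) := by
  classical
  have f2 : ∀ i, IsFF k ↥(F i ⊓ fixedField G) := by
    intro i
    let _ : Algebra ↥(F i ⊓ fixedField G) (F i) :=
      (inclusion (inf_le_left : F i ⊓ fixedField G ≤ F i)).toRingHom.toAlgebra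
    have t1 : IsScalarTower k ↥(F i ⊓ fixedField G) (F i) :=
      IsScalarTower.of_algebraMap_eq fun c => rfl
    have f1 : FiniteDimensional ↥(F i ⊓ fixedField G) (F i) :=
      inf_finite G (F i) (hst i) fun z => rfl
    exact isFF_down (E := F i)
  have h := pair_main n hn F hF hsup G hst (fun _ => 0) (fun _ => le_rfl)
    {i | (¬ ∃ t : F i, k⟮t⟯ = ⊤) ∧ ¬ IsElliptic (F i)}
    ⟨{1}, fun t ht => by
      rw [Finset.mem_singleton] at ht
      subst ht
      exact ⟨one_ne_zero, one_mem _⟩, fun v _ => ⟨1, Finset.mem_singleton_self _, by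
        rw [v.ord_one]; simp⟩⟩ N
    (fun i hi => ⟨hi.1, Or.inl ⟨hi.2, (hN i hi.1).resolve_right fun h => hi.2 h.1⟩⟩)
    (fun i hi => by
      by_cases hr : ∃ t : F i, k⟮t⟯ = ⊤
      · exact Or.inl hr
      · have hell : IsElliptic (F i) := by
          by_contra hell
          exact hi ⟨hr, hell⟩
        right
        refine ⟨hell, ?_⟩
        rcases hN i hr with h | h
        · have := f2 i
          exact admissible_of_strict _ h
        · exact h.2) hrot
  have e1 : ∀ S m j, IsPairSec k (fixedField G) n (fun _ => 0) S m j =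
      IsSec k (fixedField G) n (fun _ => False) S m j := fun S m j =>
    funext fun ω => propext pairSec_zero
  have e2 : ∀ h, PairKodGe k (fixedField G) n (fun _ => 0) h ↔
      KodGe k (fixedField G) n (fun _ => False) h := fun h => by
    unfold PairKodGe KodGe
    simp only [e1]
  have e3 : ∀ h, PairNumLe k (fixedField G) n (fun _ => 0) h ↔
      NumLe k (fixedField G) n (fun _ => False) h := fun h => by
    unfold PairNumLe NumLe
    simp only [e1]
  have e4 : PairPsef k (fixedField G) n (fun _ => 0) ↔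
      IsPsef k (fixedField G) n (fun _ => False) := by
    unfold PairPsef IsPsef
    simp only [e1]
  rw [e4] at h
  refine ⟨h.1, fun hirr => ?_⟩
  have h2 := h.2 hirr
  have h3 : {i | (¬ ∃ t : F i, k⟮t⟯ = ⊤) ∧ ¬ IsElliptic (F i)} = {i | ¬ IsElliptic (F i)} := by
    ext i
    exact ⟨fun h => h.2, fun h => ⟨hirr i, h⟩⟩
  rw [h3, e2, e3] at h2
  exact h2

theorem uniruled_of_factor [CharZero k] [IsAlgClosed k] (n : ℕ) (hn : Algebra.trdeg k L = n)
    (F : Fin n → IntermediateField k L) (hF : ∀ i, IsFF k (F i)) (hsup : ⨆ i, F i = ⊤)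
    (G : Subgroup (L ≃ₐ[k] L)) [Finite G] (h : ∃ i, ∃ t : F i, k⟮t⟯ = ⊤) :
    IsUniruled k (fixedField G) n := by
  obtain ⟨i0, t, ht⟩ := h
  obtain ⟨M, h1, h2, h3, h4⟩ := rational_factor F hsup hn i0 t ht
  refine ⟨M, inferInstance, inferInstance, h1, h2, ⟨?_⟩⟩
  let e1 : RatFunc M ≃ₐ[M] M⟮(t : L)⟯ := RatFunc.algEquivOfTranscendental (t : L) h3
  let e2 : M⟮(t : L)⟯ ≃ₐ[M] L := (equivOfEq h4).trans topEquiv
  exact (((e1.trans e2).symm.restrictScalars k : L ≃ₐ[k] RatFunc M) : L →ₐ[k] RatFunc M).comp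
    (fixedField G).val

end Pool.Agent.W619.TW
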