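import Pool.Agent.W619.TW.Tens
import Mathlib.RingTheory.AlgebraicIndependent.Adjoin

/-! Mumford's problem on tensor differentials, for quotients of products of curves. -/

set_option autoImplicit false
set_option linter.overlappingInstances false
set_option linter.unusedSectionVars false

universe u v

open Polynomial FF IntermediateField IsDedekindDomain

namespace Pool.Agent.W619.TW

open Pool.Agent.W603.LV Pool.Agent.W619.PQ Pool.Agent.W619.PL

section

variable {k L : Type*} [Field k] [Field L] [Algebra k L]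

/-- If all the curves are rational then the product is rational. -/
theorem unirational_of_rational [CharZero k] [IsAlgClosed k] (n : ℕ) (hn : Algebra.trdeg k L = n)
    (F : Fin n → IntermediateField k L) [hF : ∀ i, IsFF k (F i)] (hsup : ⨆ i, F i = ⊤)
    (K : IntermediateField k L) (h : ∀ i, ∃ t : F i, k⟮t⟯ = ⊤) : IsUnirational k K n := by
  choose t ht using h
  have htr : ∀ i, Transcendental k (t i) := by
    intro i halg
    obtain ⟨x, hx⟩ := IsFF.exists_transcendental (k := k) (K := F i)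
    apply hx
    have h1 : Algebra.IsAlgebraic k k⟮t i⟯ :=
      IntermediateField.isAlgebraic_adjoin_simple halg.isIntegral
    rw [ht i] at h1
    have h2 := h1.isAlgebraic (⟨x, trivial⟩ : (⊤ : IntermediateField k (F i)))
    exact (isAlgebraic_algebraMap_iff (A := F i)
      (algebraMap (⊤ : IntermediateField k (F i)) (F i)).injective).2 h2
  have hb := basis_of_iSup F hsup hn t htr
  have htop : IntermediateField.adjoin k (Set.range fun i => (t i : L)) = ⊤ := by
    rw [eq_top_iff, ← hsup]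
    refine iSup_le fun i => ?_
    intro z hz
    have h1 : (⟨z, hz⟩ : F i) ∈ k⟮t i⟯ := by rw [ht i]; trivial
    have h2 : (F i).val ⟨z, hz⟩ ∈ (k⟮t i⟯).map (F i).val := ⟨_, h1, rfl⟩
    rw [IntermediateField.adjoin_map, Set.image_singleton] at h2
    exact IntermediateField.adjoin.mono k _ _ (by
      rintro _ rfl
      exact ⟨i, rfl⟩) h2
  let e1 := hb.1.aevalEquivField
  let e2 : (IntermediateField.adjoin k (Set.range fun i => (t i : L))) ≃ₐ[k] L :=
    (IntermediateField.equivOfEq htop).trans IntermediateField.topEquiv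
  exact ⟨((e1.trans e2).symm : L →ₐ[k] _).comp K.val⟩

end

section

variable {k L : Type*} [Field k] [CharZero k] [IsAlgClosed k] [Field L] [Algebra k L]

open scoped Classical in
/-- Existence of a nonzero tensor differential. -/
theorem tens_exists (n : ℕ) (hn : Algebra.trdeg k L = n)
    (F : Fin n → IntermediateField k L) [hF : ∀ i, IsFF k (F i)] (hsup : ⨆ i, F i = ⊤)
    (G : Subgroup (L ≃ₐ[k] L)) [Finite G] {E0 : Fin n → Type*} [∀ i, Field (E0 i)]
    [∀ i, Algebra k (E0 i)] [∀ i, Algebra (E0 i) (F i)] [∀ i, Algebra (E0 i) (fixedField G)]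
    [∀ i, Algebra (E0 i) L] [∀ i, IsScalarTower k (E0 i) (F i)] [∀ i, IsScalarTower k (E0 i) L]
    [∀ i, IsScalarTower k (E0 i) (fixedField G)] [∀ i, IsScalarTower (E0 i) (F i) L]
    [∀ i, IsScalarTower (E0 i) (fixedField G) L] [∀ i, IsFF k (E0 i)]
    [∀ i, FiniteDimensional (E0 i) (F i)] (ρ : ∀ i, G →* (F i ≃ₐ[k] F i))
    (hcomp : ∀ i (g : G) z, ((ρ i g z : F i) : L) = (g : L ≃ₐ[k] L) (z : L))
    (hfix : ∀ i g (z : E0 i), ρ i g (algebraMap (E0 i) (F i) z) = algebraMap (E0 i) (F i) z)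
    (hinv : ∀ i (z : F i), (∀ g, ρ i g z = z) → ∃ z0, algebraMap (E0 i) (F i) z0 = z)
    (N : Fin n → ℕ) {s : ℕ} (e : Fin s → Fin n) (he : Function.Injective e)
    (hN : ∀ j, 6 ≤ N (e j) ∨ (1 ≤ N (e j) ∧ ¬ ∃ t : E0 (e j), k⟮t⟯ = ⊤) ∨
      ∃ (S : Finset (Place k (E0 (e j)))) (ν : Place k (E0 (e j)) → ℕ),
        1 ≤ N (e j) ∧ (∀ q ∈ S, 1 ≤ ν q ∧ ν q ≤ N (e j) ∧
          ∀ (w : Place k (F (e j))) (r : ℕ), Over w q r → ν q ≤ r) ∧
        (2 : ℚ) ≤ ∑ q ∈ S, (1 - 1 / (ν q : ℚ)))
    (hrot : ∀ g : G, ∀ ζ : k, IsPrimitiveRoot ζ (orderOf (g : L ≃ₐ[k] L)) →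
      ∀ a : Fin s → ℕ, (∃ i, a i ≠ 0) →
      (∀ j, (a j = 0 ∧ ρ (e j) g = 1) ∨ (0 < a j ∧ a j < orderOf (g : L ≃ₐ[k] L) ∧
        ∃ q : Place k (F (e j)), ∀ z : F (e j), q.ord z = 1 →
          Ge q 2 (ρ (e j) g z - algebraMap k (F (e j)) (ζ ^ a j) * z))) →
      (1 : ℚ) ≤ ∑ j, if a j = 0 then 0 else
        max ((a j : ℚ) / orderOf (g : L ≃ₐ[k] L)) (1 / (N (e j) : ℚ)))
    (hirr : ∀ j, ¬ ∃ t : F (e j), k⟮t⟯ = ⊤) :
    ∃ m : ℕ, 1 ≤ m ∧ ∃ ω : MultilinearMap (fixedField G)
      (fun _ : Fin m × Fin s => Derivation k (fixedField G) (fixedField G)) (fixedField G),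
      ω ≠ 0 ∧ ∀ v : Place k (fixedField G), ∀ D, (∀ p, Pres v (D p)) → v.Reg (ω D) := by
  have hgood : ∀ j, ∃ (m : ℕ) (D0 : Derivation k (E0 (e j)) (E0 (e j)))
      (c : E0 (e j)), 1 ≤ m ∧ D0 ≠ 0 ∧ c ≠ 0 ∧
        Good (F (e j)) (fun _ => False) (N (e j)) m D0 c := by
    intro j
    refine exists_good (ρ (e j)) (hfix (e j)) (hinv (e j)) (fun _ => False)
      (hasLog_of_nonrational _ (hirr j)) (fun _ => hirr j) (N (e j)) ?_
    rcases hN j with h | h | ⟨S, ν, h1, h2, h3⟩
    · exact Or.inl h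
    · exact Or.inr (Or.inr (Or.inr (Or.inl h)))
    · refine Or.inr (Or.inr (Or.inr (Or.inr ⟨S, ν, h1, fun q hq _ => h2 q hq, ?_⟩)))
      simpa using h3
  choose m0 D0 c0 hm0 hD0 hc0 hg0 using hgood
  -- a common weight
  let m : ℕ := ∏ i, m0 i
  let a : Fin s → ℕ := fun i => ∏ j ∈ Finset.univ.erase i, m0 j
  have ham : ∀ i, a i * m0 i = m := fun i => Finset.prod_erase_mul _ _ (Finset.mem_univ i)
  have hm1 : 1 ≤ m := Finset.one_le_prod' fun i _ => hm0 i
  let c : ∀ i, E0 (e i) := fun i => c0 i ^ a i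
  have hc : ∀ i, c i ≠ 0 := fun i => pow_ne_zero _ (hc0 i)
  have hg : ∀ i, Good (F (e i)) (fun _ => False) (N (e i)) m (D0 i) (c i) := fun i => by
    have := (hg0 i).pow (a i)
    rwa [ham i] at this
  choose x hx using fun i => IsFF.exists_transcendental (k := k) (K := E0 i)
  have hb : IsTranscendenceBasis k fun i => algebraMap (E0 i) (fixedField G) (x i) := by
    apply basis_down (L := L) hn
    have h1 := basis_of_iSup F hsup hn (fun i => algebraMap (E0 i) (F i) (x i)) fun i =>
      transcendental_map (E := F i) (hx i)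
    convert h1 using 2 with i
    change algebraMap (fixedField G) L (algebraMap (E0 i) (fixedField G) (x i)) =
      algebraMap (F i) L (algebraMap (E0 i) (F i) (x i))
    rw [← IsScalarTower.algebraMap_apply, ← IsScalarTower.algebraMap_apply]
  choose D hD using fun i => exists_dual _ hb i
  refine ⟨m, hm1, tensMap m D0 (fun j => x (e j)) c, ?_, ?_⟩
  · intro h0
    have h1 := congrArg (fun ω => ω fun p => D (e p.2)) h0
    change (∏ i, algebraMap (E0 (e i)) (fixedField G) (c i / (D0 i (x (e i))) ^ m)) *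
      ∏ _l : Fin m, Matrix.det (Matrix.of fun j i =>
        D (e j) (algebraMap (E0 (e i)) (fixedField G) (x (e i)))) = 0 at h1
    have h2 : (Matrix.of fun j i => D (e j) (algebraMap (E0 (e i)) (fixedField G) (x (e i)))) =
        (1 : Matrix (Fin s) (Fin s) (fixedField G)) := by
      ext j i
      rw [Matrix.of_apply, hD (e j) (e i), Matrix.one_apply]
      by_cases hij : i = j
      · subst hij
        rw [if_pos rfl, if_pos rfl]
      · rw [if_neg fun h => hij (he h), if_neg fun h => hij h.symm]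
    rw [h2, Matrix.det_one, Finset.prod_const_one, mul_one] at h1
    rw [Finset.prod_eq_zero_iff] at h1
    obtain ⟨i, -, hi⟩ := h1
    rw [_root_.map_eq_zero] at hi
    exact div_ne_zero (hc i) (pow_ne_zero _ (der_ne_zero (hD0 i) (hx (e i)))) hi
  · intro v D hD
    exact tens_regular_of_good (G := G) (E0 := fun j => E0 (e j)) (E := fun j => F (e j))
      (fun j => ρ (e j)) (fun j => hcomp (e j)) (fun j => N (e j)) hrot hD0 hc hg
      (fun j => x (e j)) (fun j => hx (e j)) v (fun l j => D (l, j)) fun l j => hD (l, j)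

end

section

variable {k : Type v} {L : Type u} [Field k] [Field L] [Algebra k L]

theorem mumford_main [CharZero k] [IsAlgClosed k] (n : ℕ) (hn : Algebra.trdeg k L = n)
    (F : Fin n → IntermediateField k L) (hF : ∀ i, IsFF k (F i)) (hsup : ⨆ i, F i = ⊤)
    (G : Subgroup (L ≃ₐ[k] L)) [Finite G] (hst : ∀ i, ∀ g ∈ G, ∀ z ∈ F i, g z ∈ F i)
    (N : Fin n → ℕ)
    (hN : ∀ i, (¬ ∃ t : F i, k⟮t⟯ = ⊤) →
      Admissible (inf_le_left : F i ⊓ fixedField G ≤ F i) ∅ (N i))
    (hrot : RotCondOn (fun i => ¬ ∃ t : F i, k⟮t⟯ = ⊤) G F N)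
    (hT : TensorVanish k (fixedField G) n) :
    (∀ i, ∃ t : F i, k⟮t⟯ = ⊤) ∧ IsUnirational k (fixedField G) n := by
  classical
  by_cases hall : ∀ i, ∃ t : F i, k⟮t⟯ = ⊤
  · exact ⟨hall, unirational_of_rational n hn F hsup (fixedField G) hall⟩
  exfalso
  push Not at hall
  let E0 : Fin n → Type u := fun i => ↥(F i ⊓ fixedField G)
  let _ : ∀ i, Field (E0 i) := fun i => inferInstanceAs (Field ↥(F i ⊓ fixedField G))
  let _ : ∀ i, Algebra k (E0 i) := fun i => inferInstanceAs (Algebra k ↥(F i ⊓ fixedField G))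
  let _ : ∀ i, Algebra (E0 i) (F i) := fun i =>
    (inclusion (inf_le_left : F i ⊓ fixedField G ≤ F i)).toRingHom.toAlgebra
  let _ : ∀ i, Algebra (E0 i) (fixedField G) := fun i =>
    (inclusion (inf_le_right : F i ⊓ fixedField G ≤ fixedField G)).toRingHom.toAlgebra
  let _ : ∀ i, Algebra (E0 i) L := fun i => inferInstanceAs (Algebra ↥(F i ⊓ fixedField G) L)
  have t1 : ∀ i, IsScalarTower k (E0 i) (F i) := fun i =>
    IsScalarTower.of_algebraMap_eq fun c => rfl
  have t2 : ∀ i, IsScalarTower k (E0 i) L := fun i =>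
    IsScalarTower.of_algebraMap_eq fun c => rfl
  have t3 : ∀ i, IsScalarTower k (E0 i) (fixedField G) := fun i =>
    IsScalarTower.of_algebraMap_eq fun c => rfl
  have t4 : ∀ i, IsScalarTower (E0 i) (F i) L := fun i =>
    IsScalarTower.of_algebraMap_eq fun c => rfl
  have t5 : ∀ i, IsScalarTower (E0 i) (fixedField G) L := fun i =>
    IsScalarTower.of_algebraMap_eq fun c => rfl
  have f1 : ∀ i, FiniteDimensional (E0 i) (F i) := fun i => inf_finite G (F i) (hst i) fun z => rfl
  have f2 : ∀ i, IsFF k (E0 i) := fun i => isFF_down (E := F i)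
  let J : Finset (Fin n) := Finset.univ.filter fun i => ¬ ∃ t : F i, k⟮t⟯ = ⊤
  have hJ : ∀ i, i ∈ J ↔ ¬ ∃ t : F i, k⟮t⟯ = ⊤ := fun i => by simp [J]
  let s := J.card
  let e : Fin s ↪o Fin n := J.orderEmbOfFin rfl
  have heJ : ∀ j, e j ∈ J := fun j => J.orderEmbOfFin_mem rfl j
  have hJe : ∀ i ∈ J, ∃ j, e j = i := by
    intro i hi
    have h1 : i ∈ Set.range e := by
      rw [Finset.range_orderEmbOfFin]
      exact hi
    exact h1
  have hs : 0 < s := by
    rw [Finset.card_pos]
    obtain ⟨i, hi⟩ := hall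
    exact ⟨i, (hJ i).2 (by push Not; exact hi)⟩
  obtain ⟨m, hm, ω, hω0, hω⟩ := tens_exists n hn F hsup G (E0 := E0)
    (fun i => rho G (F i) (hst i))
    (fun i g z => rfl) (fun i g z => by
      apply Subtype.ext
      exact z.2.2 g) (fun i z hz => by
      refine ⟨⟨(z : L), z.2, fun g => ?_⟩, rfl⟩
      exact congrArg (Subtype.val : F i → L) (hz g)) N e e.injective (by
      intro j
      obtain ⟨h1, h | h | h | h | ⟨S, ν, h2, h3⟩⟩ := hN (e j) ((hJ _).1 (heJ j))
      · exact Or.inl h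
      · exact absurd h.2 Set.not_nonempty_empty
      · exact absurd h Set.not_nontrivial_empty
      · exact Or.inr (Or.inl ⟨h1, h⟩)
      · refine Or.inr (Or.inr ⟨S, ν, h1, fun q hq => h2 q hq (Set.notMem_empty q), ?_⟩)
        simpa using h3) (by
      intro g ζ hζ a ha0 ha
      have hsum : ∀ f : ℕ → ℕ → ℚ, (∀ N, f 0 N = 0) →
          ∑ i, f (Function.extend e a 0 i) (N i) = ∑ j, f (a j) (N (e j)) := by
        intro f hf
        symm
        refine Fintype.sum_of_injective e e.injective _ _ ?_ ?_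
        · intro i hi
          rw [Function.extend_apply' _ _ _ (by simpa using hi)]
          exact hf _
        · intro j
          rw [e.injective.extend_apply]
      have h1 := hrot (g : L ≃ₐ[k] L) g.2 ζ hζ (Function.extend e a 0) ?_ ?_ ?_
      · rw [hsum (fun a N => if a = 0 then 0 else
          max ((a : ℚ) / orderOf (g : L ≃ₐ[k] L)) (1 / (N : ℚ))) (fun N => if_pos rfl)] at h1
        exact h1
      · obtain ⟨j, hj⟩ := ha0
        exact ⟨e j, by rwa [e.injective.extend_apply]⟩
      · intro i hi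
        rw [Function.extend_apply']
        · rfl
        · rintro ⟨j, rfl⟩
          exact hi ((hJ _).1 (heJ j))
      · intro i hi
        obtain ⟨j, rfl⟩ := hJe i ((hJ i).2 hi)
        rw [e.injective.extend_apply]
        rcases ha j with ⟨h1, h2⟩ | ⟨h1, h2, q, h3⟩
        · left
          refine ⟨h1, fun z hz => ?_⟩
          exact congrArg (fun φ : F (e j) ≃ₐ[k] F (e j) => ((φ ⟨z, hz⟩ : F (e j)) : L)) h2
        · right
          refine ⟨h1, h2, q, fun z z' hz' hz => ?_⟩
          have h5 : z' = rho G (F (e j)) (hst (e j)) g z := Subtype.ext hz'.symm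
          rw [h5, Algebra.smul_def]
          exact (h3 z hz).imp (fun h => sub_eq_zero.1 h) id)
    (fun j => (hJ _).1 (heJ j))
  have h1 := hT (m * s) (Nat.mul_pos hm hs) (ω.domDomCongr finProdFinEquiv) (by
    intro v _ D hD
    rw [MultilinearMap.domDomCongr_apply]
    exact hω v _ fun p => hD _)
  apply hω0
  refine MultilinearMap.ext fun D => ?_
  have h2 := congrArg (fun ω' : MultilinearMap (fixedField G)
    (fun _ : Fin (m * s) => Derivation k (fixedField G) (fixedField G)) (fixedField G) =>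
      ω' fun p => D (finProdFinEquiv.symm p)) h1
  change ω (fun i => D (finProdFinEquiv.symm (finProdFinEquiv i))) = 0 at h2
  rw [show (fun i => D (finProdFinEquiv.symm (finProdFinEquiv i))) = D from
    funext fun i => congrArg D (Equiv.symm_apply_apply _ i)] at h2
  exact h2

end

end Pool.Agent.W619.TW
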