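import Pool.Agent.W619.TW.Canon

/-! Pseudo-effective log canonical divisors on quotients of products of curves are effective:
abstract form. -/

set_option autoImplicit false
set_option linter.overlappingInstances false
set_option linter.unusedSectionVars false

open Polynomial FF IntermediateField IsDedekindDomain

namespace Pool.Agent.W619.TW

open Pool.Agent.W603.LV Pool.Agent.W619.PQ Pool.Agent.W619.PL

section

variable {k L : Type*} [Field k] [CharZero k] [IsAlgClosed k] [Field L] [Algebra k L]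

theorem dom_of_reg {K : Type*} [Field K] [Algebra k K] {v : Place k K} {f : K} (h : v.Reg f) :
    Dom v {1} 0 f := by
  rcases h with h | h
  · exact Or.inl h
  · right
    exact ⟨1, by simp, one_ne_zero, by simpa using h⟩

open scoped Classical in
/-- Existence of a logarithmic pluricanonical form. -/
theorem eff_abstract (n : ℕ) (hn : Algebra.trdeg k L = n)
    (F : Fin n → IntermediateField k L) [hF : ∀ i, IsFF k (F i)] (hsup : ⨆ i, F i = ⊤)
    (G : Subgroup (L ≃ₐ[k] L)) [Finite G] {E0 : Fin n → Type*} [∀ i, Field (E0 i)]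
    [∀ i, Algebra k (E0 i)] [∀ i, Algebra (E0 i) (F i)] [∀ i, Algebra (E0 i) (fixedField G)]
    [∀ i, Algebra (E0 i) L] [∀ i, IsScalarTower k (E0 i) (F i)] [∀ i, IsScalarTower k (E0 i) L]
    [∀ i, IsScalarTower k (E0 i) (fixedField G)] [∀ i, IsScalarTower (E0 i) (F i) L]
    [∀ i, IsScalarTower (E0 i) (fixedField G) L] [∀ i, IsFF k (E0 i)]
    [∀ i, FiniteDimensional (E0 i) (F i)] (ρ : ∀ i, G →* (F i ≃ₐ[k] F i))
    (hcomp : ∀ i (g : G) z, ((ρ i g z : F i) : L) = (g : L ≃ₐ[k] L) (z : L))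
    (hfix : ∀ i g (z : E0 i), ρ i g (algebraMap (E0 i) (F i) z) = algebraMap (E0 i) (F i) z)
    (hinv : ∀ i (z : F i), (∀ g, ρ i g z = z) → ∃ z0, algebraMap (E0 i) (F i) z0 = z)
    (B : ∀ i, Place k (E0 i) → Prop) (N : Fin n → ℕ)
    (hN : ∀ i, 6 ≤ N i ∨ (2 ≤ N i ∧ ∃ q, B i q) ∨ (1 ≤ N i ∧ ∃ q q', q ≠ q' ∧ B i q ∧ B i q') ∨
      (1 ≤ N i ∧ ¬ ∃ t : E0 i, k⟮t⟯ = ⊤) ∨
      ∃ (S : Finset (Place k (E0 i))) (ν : Place k (E0 i) → ℕ),
        1 ≤ N i ∧ (∀ q ∈ S, ¬ B i q → 1 ≤ ν q ∧ ν q ≤ N i ∧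
          ∀ (w : Place k (F i)) (e : ℕ), Over w q e → ν q ≤ e) ∧
        (2 : ℚ) ≤ ∑ q ∈ S, (if B i q then 1 else 1 - 1 / (ν q : ℚ)))
    (hage : ∀ g : G, g ≠ 1 → (1 : ℚ) ≤ ∑ i with ρ i g ≠ 1,
      1 / ((min (orderOf (ρ i g)) (N i) : ℕ) : ℚ))
    (hlog : ∀ i, (¬ ∃ t : F i, k⟮t⟯ = ⊤) ∨
      ∃ (w1 w2 : Place k (F i)) (q1 q2 : Place k (E0 i)) (e1 e2 : ℕ), w1 ≠ w2 ∧
        Over w1 q1 e1 ∧ Over w2 q2 e2 ∧ B i q1 ∧ B i q2) :
    IsEff k (fixedField G) n (Bdry B) := by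
  have hgood : ∀ i, ∃ (m : ℕ) (D0 : Derivation k (E0 i) (E0 i))
      (c : E0 i), 1 ≤ m ∧ D0 ≠ 0 ∧ c ≠ 0 ∧ Good (F i) (B i) (N i) m D0 c := by
    intro i
    have hl : HasLog (F i) (B i) := by
      rcases hlog i with h | ⟨w1, w2, q1, q2, e1, e2, h0, h1, h2, h3, h4⟩
      · exact hasLog_of_nonrational _ h
      · exact hasLog_of_two _ h0 h1 h2 h3 h4
    refine exists_good (ρ i) (hfix i) (hinv i) (B i) hl ?_ (N i) (hN i)
    intro hemp
    rcases hlog i with h | ⟨w1, w2, q1, q2, e1, e2, h0, h1, h2, h3, h4⟩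
    · exact h
    · exact absurd h3 (hemp q1)
  choose m0 D0 c0 hm0 hD0 hc0 hg0 using hgood
  -- a common weight
  let m : ℕ := ∏ i, m0 i
  let a : Fin n → ℕ := fun i => ∏ j ∈ Finset.univ.erase i, m0 j
  have ham : ∀ i, a i * m0 i = m := fun i => Finset.prod_erase_mul _ _ (Finset.mem_univ i)
  have hm1 : 1 ≤ m := Finset.one_le_prod' fun i _ => hm0 i
  let c : ∀ i, E0 i := fun i => c0 i ^ a i
  have hc : ∀ i, c i ≠ 0 := fun i => pow_ne_zero _ (hc0 i)
  have hg : ∀ i, Good (F i) (B i) (N i) m (D0 i) (c i) := fun i => by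
    have := (hg0 i).pow (a i)
    rwa [ham i] at this
  choose x hx using fun i => IsFF.exists_transcendental (k := k) (K := E0 i)
  have hb : IsTranscendenceBasis k fun i => algebraMap (E0 i) (fixedField G) (x i) := by
    apply basis_down (L := L) hn
    have h1 := basis_of_iSup F hsup hn (fun i => algebraMap (E0 i) (F i) (x i)) fun i =>
      transcendental_map (E := F i) (hx i)
    convert h1 using 2 with i
    change algebraMap (fixedField G) L (algebraMap (E0 i) (fixedField G) (x i)) =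
      algebraMap (F i) L (algebraMap (E0 i) (F i) (x i))
    rw [← IsScalarTower.algebraMap_apply, ← IsScalarTower.algebraMap_apply]
  obtain ⟨D, hD⟩ := extForm_ne m D0 x c hc (fun i => der_ne_zero (hD0 i) (hx i)) hb
  refine ⟨m, hm1, extForm m D0 x c, ⟨extForm_pluri m D0 x c, ?_, ?_⟩, D, hD⟩
  · intro v _ hv D hD
    exact dom_of_reg (regular_of_good (G := G) (E0 := E0) (E := fun i => F i)
      ρ hcomp B N hage hD0 hc hg x hx v hv D hD)
  · intro v _ _ D hD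
    exact dom_of_reg (logregular_of_good (G := G) (E0 := E0) (E := fun i => F i)
      B N hD0 hc hg x hx v D hD)

/-- A factor of negative log canonical degree prevents pseudo-effectivity. -/
theorem not_psef {K : Type*} [Field K] [Algebra k K] [Algebra K L] [IsScalarTower k K L]
    [FiniteDimensional K L] (n : ℕ) (hn : Algebra.trdeg k L = n)
    (F : Fin n → IntermediateField k L) [hF : ∀ i, IsFF k (F i)] (hsup : ⨆ i, F i = ⊤)
    {E0 : Fin n → Type*} [∀ i, Field (E0 i)]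
    [∀ i, Algebra k (E0 i)] [∀ i, Algebra (E0 i) (F i)] [∀ i, Algebra (E0 i) K]
    [∀ i, Algebra (E0 i) L] [∀ i, IsScalarTower k (E0 i) (F i)] [∀ i, IsScalarTower k (E0 i) L]
    [∀ i, IsScalarTower k (E0 i) K] [∀ i, IsScalarTower (E0 i) (F i) L]
    [∀ i, IsScalarTower (E0 i) K L] [∀ i, IsFF k (E0 i)]
    [∀ i, FiniteDimensional (E0 i) (F i)]
    (B : ∀ i, Place k (E0 i) → Prop) (Bd : Place k K → Prop)
    (hBd : ∀ v, Bd v ↔ ∃ (i : Fin n) (p : Place k (E0 i)) (a : ℕ), Over v p a ∧ B i p)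
    (i : Fin n)
    (hfin : {q : Place k (F i) | ∃ (p : Place k (E0 i)) (r : ℕ), Over q p r ∧ B i p}.Finite)
    (hneg : canDeg k (F i) +
      Set.ncard {q : Place k (F i) | ∃ (p : Place k (E0 i)) (r : ℕ), Over q p r ∧ B i p} < 0) :
    ¬ IsPsef k K n Bd := by
  rintro ⟨S, hS⟩
  choose x hx using fun i => IsFF.exists_transcendental (k := k) (K := E0 i)
  obtain ⟨dK, dL, dF, hfr⟩ := exists_fr (K := K) (F := F) hsup hn x hx
  obtain ⟨b, -, hb0, hbS⟩ := exists_den hsup S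
  obtain ⟨C, hC, hCdeg⟩ := exists_C (E0 := E0) i (hfr.ne i) hfin
  obtain ⟨A, hA⟩ := section_mem hfr hsup hn hBd i C hC S hb0 hbS
  rw [← hCdeg] at hneg
  obtain ⟨j, hj, ω, hω, D, hD⟩ := hS ((ddeg A).toNat + 1)
  have h1 := hA _ j ω hω
  have h2 : ddeg ((j * ((ddeg A).toNat + 1)) • C + j • A) < 0 := by
    rw [ddeg_add, ddeg_nsmul, ddeg_nsmul]
    push_cast
    have h3 : ((ddeg A).toNat : ℤ) = max (ddeg A) 0 := Int.toNat_eq_max _
    rw [h3]
    have h4 : (0 : ℤ) < j := by exact_mod_cast hj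
    have h5 : (max (ddeg A) 0 + 1) * ddeg C + ddeg A < 0 := by
      have h6 : ddeg C ≤ -1 := by omega
      have h7 : (0 : ℤ) ≤ max (ddeg A) 0 + 1 := by positivity
      have h8 := mul_le_mul_of_nonneg_left h6 h7
      have h9 := le_max_left (ddeg A) 0
      linarith
    have h6 := mul_neg_of_pos_of_neg h4 h5
    linarith
  have h3 : VL i ((j * ((ddeg A).toNat + 1)) • C + j • A) = ⊥ := by
    unfold VL
    rw [LL_eq_bot h2, Submodule.map_bot]
  rw [h3, Submodule.mul_bot, Submodule.mem_bot] at h1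
  have h4 := (mul_eq_zero.1 h1).resolve_left (pow_ne_zero _ hb0)
  have h5 : ω dK = 0 := by simpa using h4
  rw [pluri_eval hfr hω.1 D, h5, mul_zero] at hD
  exact hD rfl

open scoped Classical in
/-- Pseudo-effective implies effective. -/
theorem nv_abstract (n : ℕ) (hn : Algebra.trdeg k L = n)
    (F : Fin n → IntermediateField k L) [hF : ∀ i, IsFF k (F i)] (hsup : ⨆ i, F i = ⊤)
    (G : Subgroup (L ≃ₐ[k] L)) [Finite G] {E0 : Fin n → Type*} [∀ i, Field (E0 i)]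
    [∀ i, Algebra k (E0 i)] [∀ i, Algebra (E0 i) (F i)] [∀ i, Algebra (E0 i) (fixedField G)]
    [∀ i, Algebra (E0 i) L] [∀ i, IsScalarTower k (E0 i) (F i)] [∀ i, IsScalarTower k (E0 i) L]
    [∀ i, IsScalarTower k (E0 i) (fixedField G)] [∀ i, IsScalarTower (E0 i) (F i) L]
    [∀ i, IsScalarTower (E0 i) (fixedField G) L] [∀ i, IsFF k (E0 i)]
    [∀ i, FiniteDimensional (E0 i) (F i)] (ρ : ∀ i, G →* (F i ≃ₐ[k] F i))
    (hcomp : ∀ i (g : G) z, ((ρ i g z : F i) : L) = (g : L ≃ₐ[k] L) (z : L))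
    (hfix : ∀ i g (z : E0 i), ρ i g (algebraMap (E0 i) (F i) z) = algebraMap (E0 i) (F i) z)
    (hinv : ∀ i (z : F i), (∀ g, ρ i g z = z) → ∃ z0, algebraMap (E0 i) (F i) z0 = z)
    (B : ∀ i, Place k (E0 i) → Prop) (N : Fin n → ℕ)
    (hN : ∀ i, 6 ≤ N i ∨ (2 ≤ N i ∧ ∃ q, B i q) ∨ (1 ≤ N i ∧ ∃ q q', q ≠ q' ∧ B i q ∧ B i q') ∨
      (1 ≤ N i ∧ ¬ ∃ t : E0 i, k⟮t⟯ = ⊤) ∨
      ∃ (S : Finset (Place k (E0 i))) (ν : Place k (E0 i) → ℕ),
        1 ≤ N i ∧ (∀ q ∈ S, ¬ B i q → 1 ≤ ν q ∧ ν q ≤ N i ∧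
          ∀ (w : Place k (F i)) (e : ℕ), Over w q e → ν q ≤ e) ∧
        (2 : ℚ) ≤ ∑ q ∈ S, (if B i q then 1 else 1 - 1 / (ν q : ℚ)))
    (hage : ∀ g : G, g ≠ 1 → (1 : ℚ) ≤ ∑ i with ρ i g ≠ 1,
      1 / ((min (orderOf (ρ i g)) (N i) : ℕ) : ℚ))
    (hpe : IsPsef k (fixedField G) n (Bdry B)) :
    IsEff k (fixedField G) n (Bdry B) := by
  by_cases hlog : ∀ i, (¬ ∃ t : F i, k⟮t⟯ = ⊤) ∨
      ∃ (w1 w2 : Place k (F i)) (q1 q2 : Place k (E0 i)) (e1 e2 : ℕ), w1 ≠ w2 ∧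
        Over w1 q1 e1 ∧ Over w2 q2 e2 ∧ B i q1 ∧ B i q2
  · exact eff_abstract n hn F hsup G ρ hcomp hfix hinv B N hN hage hlog
  · exfalso
    push Not at hlog
    obtain ⟨i0, ⟨t0, ht0⟩, huniq⟩ := hlog
    have hfinL : FiniteDimensional (fixedField G) L := by
      have hGal : IsGaloisGroup G (fixedField G) L := isGaloisGroup_fixed G
      exact IsGaloisGroup.finiteDimensional G (fixedField G) L
    have hss : {q : Place k (F i0) |
        ∃ (p : Place k (E0 i0)) (r : ℕ), Over q p r ∧ B i0 p}.Subsingleton := by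
      rintro q ⟨p, r, h1, h2⟩ q' ⟨p', r', h1', h2'⟩
      by_contra hne
      exact huniq q q' p p' r r' hne h1 h1' h2 h2'
    refine not_psef (K := fixedField G) n hn F hsup B (Bdry B) (fun v => ?_) i0 hss.finite ?_ hpe
    · exact Iff.rfl
    · rw [canDeg_rational ht0]
      have h2 : Set.ncard {q : Place k (F i0) |
          ∃ (p : Place k (E0 i0)) (r : ℕ), Over q p r ∧ B i0 p} ≤ 1 :=
        (Set.ncard_le_one hss.finite).2 fun a ha b hb => hss ha hb
      omega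

end

end Pool.Agent.W619.TW
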