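import Pool.Agent.W619.TW.KNStm

/-! Pseudo-effective log canonical divisors on quotients of products of curves are effective:
version with a condition of Reid-Tai type. -/

set_option autoImplicit false
set_option linter.overlappingInstances false
set_option linter.unusedSectionVars false

universe u v

open Polynomial FF IntermediateField IsDedekindDomain

namespace Pool.Agent.W619.TW

open Pool.Agent.W603.LV Pool.Agent.W619.PQ Pool.Agent.W619.PL

section

variable {k L : Type*} [Field k] [CharZero k] [IsAlgClosed k] [Field L] [Algebra k L]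

open scoped Classical in
/-- Existence of a logarithmic pluricanonical form. -/
theorem eff_rot (n : ℕ) (hn : Algebra.trdeg k L = n)
    (F : Fin n → IntermediateField k L) [hF : ∀ i, IsFF k (F i)] (hsup : ⨆ i, F i = ⊤)
    (G : Subgroup (L ≃ₐ[k] L)) [Finite G] {E0 : Fin n → Type*} [∀ i, Field (E0 i)]
    [∀ i, Algebra k (E0 i)] [∀ i, Algebra (E0 i) (F i)] [∀ i, Algebra (E0 i) (fixedField G)]
    [∀ i, Algebra (E0 i) L] [∀ i, IsScalarTower k (E0 i) (F i)] [∀ i, IsScalarTower k (E0 i) L]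
    [∀ i, IsScalarTower k (E0 i) (fixedField G)] [∀ i, IsScalarTower (E0 i) (F i) L]
    [∀ i, IsScalarTower (E0 i) (fixedField G) L] [∀ i, IsFF k (E0 i)]
    [∀ i, FiniteDimensional (E0 i) (F i)] (ρ : ∀ i, G →* (F i ≃ₐ[k] F i))
    (hcomp : ∀ i (g : G) z, ((ρ i g z : F i) : L) = (g : L ≃ₐ[k] L) (z : L))
    (hfix : ∀ i g (z : E0 i), ρ i g (algebraMap (E0 i) (F i) z) = algebraMap (E0 i) (F i) z)
    (hinv : ∀ i (z : F i), (∀ g, ρ i g z = z) → ∃ z0, algebraMap (E0 i) (F i) z0 = z)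
    (B : ∀ i, Place k (E0 i) → Prop) (N : Fin n → ℕ)
    (hN : ∀ i, 6 ≤ N i ∨ (2 ≤ N i ∧ ∃ q, B i q) ∨ (1 ≤ N i ∧ ∃ q q', q ≠ q' ∧ B i q ∧ B i q') ∨
      (1 ≤ N i ∧ ¬ ∃ t : E0 i, k⟮t⟯ = ⊤) ∨
      ∃ (S : Finset (Place k (E0 i))) (ν : Place k (E0 i) → ℕ),
        1 ≤ N i ∧ (∀ q ∈ S, ¬ B i q → 1 ≤ ν q ∧ ν q ≤ N i ∧
          ∀ (w : Place k (F i)) (e : ℕ), Over w q e → ν q ≤ e) ∧
        (2 : ℚ) ≤ ∑ q ∈ S, (if B i q then 1 else 1 - 1 / (ν q : ℚ)))
    (hrot : ∀ g : G, g ≠ 1 → ∀ ζ : k, IsPrimitiveRoot ζ (orderOf (g : L ≃ₐ[k] L)) →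
      ∀ a : Fin n → ℕ, (∀ i, (a i = 0 ∧ ρ i g = 1) ∨ (0 < a i ∧ a i < orderOf (g : L ≃ₐ[k] L) ∧
        ∃ q : Place k (F i), (∀ p r, Over q p r → ¬ B i p) ∧ ∀ z : F i, q.ord z = 1 →
          Ge q 2 (ρ i g z - algebraMap k (F i) (ζ ^ a i) * z))) →
      (1 : ℚ) ≤ ∑ i, if a i = 0 then 0 else
        max ((a i : ℚ) / orderOf (g : L ≃ₐ[k] L)) (1 / (N i : ℚ)))
    (hlog : ∀ i, (¬ ∃ t : F i, k⟮t⟯ = ⊤) ∨
      ∃ (w1 w2 : Place k (F i)) (q1 q2 : Place k (E0 i)) (e1 e2 : ℕ), w1 ≠ w2 ∧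
        Over w1 q1 e1 ∧ Over w2 q2 e2 ∧ B i q1 ∧ B i q2) :
    IsEff k (fixedField G) n (Bdry B) := by
  have hgood : ∀ i, ∃ (m : ℕ) (D0 : Derivation k (E0 i) (E0 i))
      (c : E0 i), 1 ≤ m ∧ D0 ≠ 0 ∧ c ≠ 0 ∧ Good (F i) (B i) (N i) m D0 c := by
    intro i
    have hl : HasLog (F i) (B i) := by
      rcases hlog i with h | ⟨w1, w2, q1, q2, e1, e2, h0, h1, h2, h3, h4⟩
      · exact hasLog_of_nonrational _ h
      · exact hasLog_of_two _ h0 h1 h2 h3 h4
    refine exists_good (ρ i) (hfix i) (hinv i) (B i) hl ?_ (N i) (hN i)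
    intro hemp
    rcases hlog i with h | ⟨w1, w2, q1, q2, e1, e2, h0, h1, h2, h3, h4⟩
    · exact h
    · exact absurd h3 (hemp q1)
  choose m0 D0 c0 hm0 hD0 hc0 hg0 using hgood
  -- a common weight
  let m : ℕ := ∏ i, m0 i
  let a : Fin n → ℕ := fun i => ∏ j ∈ Finset.univ.erase i, m0 j
  have ham : ∀ i, a i * m0 i = m := fun i => Finset.prod_erase_mul _ _ (Finset.mem_univ i)
  have hm1 : 1 ≤ m := Finset.one_le_prod' fun i _ => hm0 i
  let c : ∀ i, E0 i := fun i => c0 i ^ a i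
  have hc : ∀ i, c i ≠ 0 := fun i => pow_ne_zero _ (hc0 i)
  have hg : ∀ i, Good (F i) (B i) (N i) m (D0 i) (c i) := fun i => by
    have := (hg0 i).pow (a i)
    rwa [ham i] at this
  choose x hx using fun i => IsFF.exists_transcendental (k := k) (K := E0 i)
  have hb : IsTranscendenceBasis k fun i => algebraMap (E0 i) (fixedField G) (x i) := by
    apply basis_down (L := L) hn
    have h1 := basis_of_iSup F hsup hn (fun i => algebraMap (E0 i) (F i) (x i)) fun i =>
      transcendental_map (E := F i) (hx i)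
    convert h1 using 2 with i
    change algebraMap (fixedField G) L (algebraMap (E0 i) (fixedField G) (x i)) =
      algebraMap (F i) L (algebraMap (E0 i) (F i) (x i))
    rw [← IsScalarTower.algebraMap_apply, ← IsScalarTower.algebraMap_apply]
  obtain ⟨D, hD⟩ := extForm_ne m D0 x c hc (fun i => der_ne_zero (hD0 i) (hx i)) hb
  refine ⟨m, hm1, extForm m D0 x c, ⟨extForm_pluri m D0 x c, ?_, ?_⟩, D, hD⟩
  · intro v _ hv D hD
    exact dom_of_reg (regular_of_good_rot (G := G) (E0 := E0) (E := fun i => F i)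
      ρ hcomp B N hrot hD0 hc hg x hx v hv D hD)
  · intro v _ _ D hD
    exact dom_of_reg (logregular_of_good (G := G) (E0 := E0) (E := fun i => F i)
      B N hD0 hc hg x hx v D hD)

end

section

variable {k : Type v} {L : Type u} [Field k] [Field L] [Algebra k L]

theorem nv_both [CharZero k] [IsAlgClosed k] (n : ℕ) (hn : Algebra.trdeg k L = n)
    (F : Fin n → IntermediateField k L) (hF : ∀ i, IsFF k (F i)) (hsup : ⨆ i, F i = ⊤)
    (G : Subgroup (L ≃ₐ[k] L)) [Finite G] (hst : ∀ i, ∀ g ∈ G, ∀ z ∈ F i, g z ∈ F i)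
    (B : ∀ i, Set (Place k ↥(F i ⊓ fixedField G))) (N : Fin n → ℕ)
    (hN : ∀ i, Admissible inf_le_left (B i) (N i)) (hrot : RotCond G F B N) :
    ((∀ i, ¬ IsNegative inf_le_left (B i)) → IsEff k (fixedField G) n (QBd F G B)) ∧
    ((∃ i, IsNegative inf_le_left (B i)) → ¬ IsPsef k (fixedField G) n (QBd F G B)) := by
  let E0 : Fin n → Type u := fun i => ↥(F i ⊓ fixedField G)
  let _ : ∀ i, Field (E0 i) := fun i => inferInstanceAs (Field ↥(F i ⊓ fixedField G))
  let _ : ∀ i, Algebra k (E0 i) := fun i => inferInstanceAs (Algebra k ↥(F i ⊓ fixedField G))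
  let _ : ∀ i, Algebra (E0 i) (F i) := fun i =>
    (inclusion (inf_le_left : F i ⊓ fixedField G ≤ F i)).toRingHom.toAlgebra
  let _ : ∀ i, Algebra (E0 i) (fixedField G) := fun i =>
    (inclusion (inf_le_right : F i ⊓ fixedField G ≤ fixedField G)).toRingHom.toAlgebra
  let _ : ∀ i, Algebra (E0 i) L := fun i => inferInstanceAs (Algebra ↥(F i ⊓ fixedField G) L)
  have t1 : ∀ i, IsScalarTower k (E0 i) (F i) := fun i =>
    IsScalarTower.of_algebraMap_eq fun c => rfl
  have t2 : ∀ i, IsScalarTower k (E0 i) L := fun i =>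
    IsScalarTower.of_algebraMap_eq fun c => rfl
  have t3 : ∀ i, IsScalarTower k (E0 i) (fixedField G) := fun i =>
    IsScalarTower.of_algebraMap_eq fun c => rfl
  have t4 : ∀ i, IsScalarTower (E0 i) (F i) L := fun i =>
    IsScalarTower.of_algebraMap_eq fun c => rfl
  have t5 : ∀ i, IsScalarTower (E0 i) (fixedField G) L := fun i =>
    IsScalarTower.of_algebraMap_eq fun c => rfl
  have f1 : ∀ i, FiniteDimensional (E0 i) (F i) := fun i => inf_finite G (F i) (hst i) fun z => rfl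
  have f2 : ∀ i, IsFF k (E0 i) := fun i => isFF_down (E := F i)
  have hBd : QBd F G B = Bdry (E0 := E0) (fun i q => q ∈ B i) := by
    funext v
    apply propext
    constructor
    · rintro ⟨i, p, hp, e, h⟩
      exact ⟨i, p, e, h, hp⟩
    · rintro ⟨i, p, e, h, hp⟩
      exact ⟨i, p, hp, e, h⟩
  rw [hBd]
  have hfinL : FiniteDimensional (fixedField G) L := by
    have hGal : IsGaloisGroup G (fixedField G) L := isGaloisGroup_fixed G
    exact IsGaloisGroup.finiteDimensional G (fixedField G) L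
  constructor
  · intro hnn
    refine eff_rot n hn F hsup G (E0 := E0) (fun i => rho G (F i) (hst i))
      (fun i g z => rfl) (fun i g z => ?_) (fun i z hz => ?_) (fun i q => q ∈ B i) N (fun i => ?_)
      ?_ ?_
    · apply Subtype.ext
      exact z.2.2 g
    · refine ⟨⟨(z : L), z.2, fun g => ?_⟩, rfl⟩
      exact congrArg (Subtype.val : F i → L) (hz g)
    · obtain ⟨h1, h | h | h | h | ⟨S, ν, h2, h3⟩⟩ := hN i
      · exact Or.inl h
      · exact Or.inr (Or.inl h)
      · obtain ⟨q, hq, q', hq', hne⟩ := h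
        exact Or.inr (Or.inr (Or.inl ⟨h1, q, q', hne, hq, hq'⟩))
      · exact Or.inr (Or.inr (Or.inr (Or.inl ⟨h1, h⟩)))
      · exact Or.inr (Or.inr (Or.inr (Or.inr ⟨S, ν, h1, h2, h3⟩)))
    · intro g hg ζ hζ a ha
      refine hrot (g : L ≃ₐ[k] L) g.2 (fun h => hg (Subtype.ext h)) ζ hζ a fun i => ?_
      rcases ha i with ⟨h1, h2⟩ | ⟨h1, h2, q, h3, h4⟩
      · left
        refine ⟨h1, fun z hz => ?_⟩
        have h5 := congrArg (fun φ : F i ≃ₐ[k] F i => ((φ ⟨z, hz⟩ : F i) : L)) h2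
        exact h5
      · right
        refine ⟨h1, h2, q, fun p hp e hqp => h3 p e hqp hp, fun z z' hz' hz => ?_⟩
        have h5 : z' = rho G (F i) (hst i) g z := Subtype.ext hz'.symm
        rw [h5, Algebra.smul_def]
        exact (h4 z hz).imp (fun h => sub_eq_zero.1 h) id
    · intro i
      by_cases hrat : ∃ t : F i, k⟮t⟯ = ⊤
      · right
        have h1 := hnn i
        unfold IsNegative at h1
        rw [not_and_or] at h1
        have h2 := h1.resolve_left (not_not.2 hrat)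
        push Not at h2
        obtain ⟨w, w', ⟨p, hp, e, h3⟩, ⟨p', hp', e', h3'⟩, hne⟩ := h2
        exact ⟨w, w', p, p', e, e', hne, h3, h3', hp, hp'⟩
      · exact Or.inl hrat
  · rintro ⟨i, ⟨t, ht⟩, hss⟩
    have hss' : {q : Place k (F i) |
        ∃ (p : Place k (E0 i)) (r : ℕ), Over q p r ∧ p ∈ B i}.Subsingleton := by
      rintro q ⟨p, r, h1, h2⟩ q' ⟨p', r', h1', h2'⟩
      exact hss q q' ⟨p, h2, r, h1⟩ ⟨p', h2', r', h1'⟩
    refine not_psef (K := fixedField G) n hn F hsup (fun i q => q ∈ B i) (Bdry _) (fun v => ?_) i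
      hss'.finite ?_
    · exact Iff.rfl
    · rw [canDeg_rational ht]
      have h2 : Set.ncard {q : Place k (F i) |
          ∃ (p : Place k (E0 i)) (r : ℕ), Over q p r ∧ p ∈ B i} ≤ 1 :=
        (Set.ncard_le_one hss'.finite).2 fun a ha b hb => hss' ha hb
      have h3 : (-2 : ℤ) + (Set.ncard {q : Place k (F i) |
          ∃ (p : Place k (E0 i)) (r : ℕ), Over q p r ∧ p ∈ B i} : ℕ) < 0 := by omega
      exact h3

end

end Pool.Agent.W619.TW
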