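import Pool.Agent.W619.TW.PUpper
import Pool.Agent.W619.TW.Lower

/-! The lower bound for the Kodaira dimension of pairs. -/

set_option autoImplicit false
set_option linter.overlappingInstances false
set_option linter.unusedSectionVars false

open Polynomial FF IntermediateField

namespace Pool.Agent.W619.TW

open Pool.Agent.W603.LV Pool.Agent.W619.PQ Pool.Agent.W619.PL

section

variable {k L : Type*} [Field k] [CharZero k] [IsAlgClosed k] [Field L] [Algebra k L]

theorem extForm_mul {K : Type*} [Field K] [Algebra k K] {n : ℕ} {E : Fin n → Type*}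
    [∀ i, Field (E i)] [∀ i, Algebra k (E i)] [∀ i, Algebra (E i) K]
    [∀ i, IsScalarTower k (E i) K] (m : ℕ) (D0 : ∀ i, Derivation k (E i) (E i)) (x c u : ∀ i, E i)
    (D : Fin n → Derivation k K K) :
    extForm m D0 x (fun i => c i * u i) D =
      extForm m D0 x c D * ∏ i, algebraMap (E i) K (u i) := by
  unfold extForm
  have h : (∏ i, algebraMap (E i) K (c i * u i / (D0 i (x i)) ^ m)) =
      (∏ i, algebraMap (E i) K (c i / (D0 i (x i)) ^ m)) * ∏ i, algebraMap (E i) K (u i) := by
    rw [← Finset.prod_mul_distrib]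
    refine Finset.prod_congr rfl fun i _ => ?_
    rw [← map_mul]
    congr 1
    ring
  rw [h]
  ring

open scoped Classical in
theorem pair_lower (n : ℕ) (hn : Algebra.trdeg k L = n)
    (F : Fin n → IntermediateField k L) [hF : ∀ i, IsFF k (F i)] (hsup : ⨆ i, F i = ⊤)
    (G : Subgroup (L ≃ₐ[k] L)) [Finite G] {E0 : Fin n → Type*} [∀ i, Field (E0 i)]
    [∀ i, Algebra k (E0 i)] [∀ i, Algebra (E0 i) (F i)] [∀ i, Algebra (E0 i) (fixedField G)]
    [∀ i, Algebra (E0 i) L] [∀ i, IsScalarTower k (E0 i) (F i)] [∀ i, IsScalarTower k (E0 i) L]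
    [∀ i, IsScalarTower k (E0 i) (fixedField G)] [∀ i, IsScalarTower (E0 i) (F i) L]
    [∀ i, IsScalarTower (E0 i) (fixedField G) L] [∀ i, IsFF k (E0 i)]
    [∀ i, FiniteDimensional (E0 i) (F i)] (ρ : ∀ i, G →* (F i ≃ₐ[k] F i))
    (hcomp : ∀ i (g : G) z, ((ρ i g z : F i) : L) = (g : L ≃ₐ[k] L) (z : L))
    (N : Fin n → ℕ)
    (hrot : ∀ g : G, g ≠ 1 → ∀ ζ : k, IsPrimitiveRoot ζ (orderOf (g : L ≃ₐ[k] L)) →
      ∀ a : Fin n → ℕ, (∀ i, (a i = 0 ∧ ρ i g = 1) ∨ (0 < a i ∧ a i < orderOf (g : L ≃ₐ[k] L) ∧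
        ∃ q : Place k (F i), ∀ z : F i, q.ord z = 1 →
          Ge q 2 (ρ i g z - algebraMap k (F i) (ζ ^ a i) * z))) →
      (1 : ℚ) ≤ ∑ i, if a i = 0 then 0 else
        max ((a i : ℚ) / orderOf (g : L ≃ₐ[k] L)) (1 / (N i : ℚ)))
    (H : Finset (Fin n)) (δ : Place k (fixedField G) → ℚ) (hδ0 : ∀ v, 0 ≤ δ v)
    (β : ∀ i, Place k (E0 i) → ℚ)
    (hβ : ∀ i (v : Place k (fixedField G)) (p : Place k (E0 i)) (α : ℕ), Over v p α →
      n * (α * β i p) ≤ δ v)
    (hdata : ∀ i, ∃ (m : ℕ) (D0 : Derivation k (E0 i) (E0 i)) (c c' u : E0 i), 1 ≤ m ∧ D0 ≠ 0 ∧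
      c ≠ 0 ∧ c' ≠ 0 ∧ u ≠ 0 ∧ Good (F i) (fun _ => False) (N i) m D0 c ∧
      Good (F i) (fun _ => False) (N i) m D0 c' ∧ (∀ p, -(m * β i p) ≤ p.ord u) ∧
      (i ∈ H → Transcendental k (c' * u / c))) :
    PairKodGe k (fixedField G) n δ H.card := by
  choose m0 D0 c0 c0' u0 hm0 hD0 hc0 hc0' hu0 hg0 hg0' hβu0 htr0 using hdata
  -- a common weight
  let m : ℕ := ∏ i, m0 i
  let a : Fin n → ℕ := fun i => ∏ j ∈ Finset.univ.erase i, m0 j
  have ham : ∀ i, a i * m0 i = m := fun i => Finset.prod_erase_mul _ _ (Finset.mem_univ i)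
  have ha1 : ∀ i, 1 ≤ a i := fun i => Finset.one_le_prod' fun j _ => hm0 j
  have hm1 : 1 ≤ m := Finset.one_le_prod' fun i _ => hm0 i
  let c : ∀ i, E0 i := fun i => c0 i ^ a i
  let c' : ∀ i, E0 i := fun i => c0' i ^ a i
  let u : ∀ i, E0 i := fun i => u0 i ^ a i
  have hc : ∀ i, c i ≠ 0 := fun i => pow_ne_zero _ (hc0 i)
  have hc' : ∀ i, c' i ≠ 0 := fun i => pow_ne_zero _ (hc0' i)
  have hu : ∀ i, u i ≠ 0 := fun i => pow_ne_zero _ (hu0 i)
  have hg : ∀ i, Good (F i) (fun _ => False) (N i) m (D0 i) (c i) := fun i => by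
    have := (hg0 i).pow (a i)
    rwa [ham i] at this
  have hg' : ∀ i, Good (F i) (fun _ => False) (N i) m (D0 i) (c' i) := fun i => by
    have := (hg0' i).pow (a i)
    rwa [ham i] at this
  have hβu : ∀ i p, -(m * β i p) ≤ p.ord (u i) := by
    intro i p
    change -((m : ℚ) * β i p) ≤ ((p.ord (u0 i ^ a i) : ℤ) : ℚ)
    rw [p.ord_pow, ← ham i]
    push_cast
    have h1 := mul_le_mul_of_nonneg_left (hβu0 i p) (by positivity : (0 : ℚ) ≤ a i)
    linarith
  have htr : ∀ i ∈ H, Transcendental k (c' i * u i / c i) := by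
    intro i hi
    have h1 : c' i * u i / c i = (c0' i * u0 i / c0 i) ^ a i := by
      simp only [c, c', u]
      rw [div_pow, mul_pow]
    rw [h1]
    intro halg
    exact htr0 i hi (halg.of_pow (ha1 i))
  choose x hx using fun i => IsFF.exists_transcendental (k := k) (K := E0 i)
  have hbasis : ∀ y : ∀ i, E0 i, (∀ i, Transcendental k (y i)) →
      IsTranscendenceBasis k fun i => algebraMap (E0 i) (fixedField G) (y i) := by
    intro y hy
    apply basis_down (L := L) hn
    have h1 := basis_of_iSup F hsup hn (fun i => algebraMap (E0 i) (F i) (y i)) fun i =>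
      transcendental_map (E := F i) (hy i)
    convert h1 using 2 with i
    change algebraMap (fixedField G) L (algebraMap (E0 i) (fixedField G) (y i)) =
      algebraMap (F i) L (algebraMap (E0 i) (F i) (y i))
    rw [← IsScalarTower.algebraMap_apply, ← IsScalarTower.algebraMap_apply]
  -- the functions
  let f : ∀ i, E0 i := fun i => if i ∈ H then c' i * u i / c i else x i
  have hf : ∀ i, Transcendental k (f i) := by
    intro i
    by_cases hi : i ∈ H
    · simp only [f, if_pos hi]; exact htr i hi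
    · simp only [f, if_neg hi]; exact hx i
  refine ⟨m, hm1, fun j hj => ?_⟩
  obtain ⟨D, hD⟩ := extForm_ne (j * m) D0 x (fun i => c i ^ j) (fun i => pow_ne_zero _ (hc i))
    (fun i => der_ne_zero (hD0 i) (hx i)) (hbasis x hx)
  let cr : (H → Fin j) → ∀ i, E0 i := fun r i =>
    c i ^ (j - expo H r i) * c' i ^ expo H r i
  let ur : (H → Fin j) → ∀ i, E0 i := fun r i => u i ^ expo H r i
  have hcr0 : ∀ r i, cr r i ≠ 0 := fun r i => mul_ne_zero (pow_ne_zero _ (hc i))
    (pow_ne_zero _ (hc' i))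
  have hur0 : ∀ r i, ur r i ≠ 0 := fun r i => pow_ne_zero _ (hu i)
  have hgr : ∀ r i, Good (F i) (fun _ => False) (N i) (j * m) (D0 i) (cr r i) := by
    intro r i
    have h1 := Good.mul (pow_ne_zero _ (hc i)) (pow_ne_zero _ (hc' i))
      ((hg i).pow (j - expo H r i)) ((hg' i).pow (expo H r i))
    rw [← add_mul, Nat.sub_add_cancel (expo_le H r i)] at h1
    exact h1
  have hval : ∀ r, extForm (j * m) D0 x (fun i => cr r i * ur r i) D =
      extForm (j * m) D0 x (fun i => c i ^ j) D *
      ∏ i, algebraMap (E0 i) (fixedField G) (f i) ^ expo H r i := by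
    intro r
    unfold extForm
    rw [mul_right_comm, ← Finset.prod_mul_distrib]
    congr 1
    refine Finset.prod_congr rfl fun i _ => ?_
    rw [← map_pow (algebraMap (E0 i) (fixedField G)), ← map_mul (algebraMap (E0 i) (fixedField G))]
    congr 1
    by_cases hi : i ∈ H
    · have h1 : c i ^ j = c i ^ (j - expo H r i) * c i ^ expo H r i := by
        rw [← pow_add, Nat.sub_add_cancel (expo_le H r i)]
      have h2 : c i ^ expo H r i ≠ 0 := pow_ne_zero _ (hc i)
      simp only [f, if_pos hi, cr, ur]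
      rw [h1, div_pow, mul_pow]
      field_simp
    · simp only [cr, ur, expo_of_notMem H r hi, pow_zero, mul_one, Nat.sub_zero]
  have hli : LinearIndependent k fun r : (H → Fin j) => extForm (K := fixedField G) (j * m) D0 x
      (fun i => cr r i * ur r i) := by
    refine LinearIndependent.of_comp
      (LinearMap.proj D : ((Fin n → Derivation k (fixedField G) (fixedField G)) →
        fixedField G) →ₗ[k] fixedField G) ?_
    have h1 := (monomials_indep (fun i => algebraMap (E0 i) (fixedField G) (f i))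
      (hbasis f hf).1 H j).map' (LinearMap.mulLeft k (extForm (j * m) D0 x (fun i => c i ^ j) D))
      (LinearMap.ker_eq_bot.2 (mul_right_injective₀ hD))
    have h3 : (⇑(LinearMap.proj D : ((Fin n → Derivation k (fixedField G) (fixedField G)) →
        fixedField G) →ₗ[k] fixedField G) ∘ fun r : (H → Fin j) =>
          extForm (K := fixedField G) (j * m) D0 x (fun i => cr r i * ur r i)) =
        ⇑(LinearMap.mulLeft k (extForm (j * m) D0 x (fun i => c i ^ j) D)) ∘
          fun r : (H → Fin j) => ∏ i, algebraMap (E0 i) (fixedField G) (f i) ^ expo H r i :=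
      funext hval
    rw [h3]
    exact h1
  have hcard : Fintype.card (H → Fin j) = j ^ H.card := by simp
  let e : Fin (j ^ H.card) ≃ (H → Fin j) := (Fintype.equivFinOfCardEq hcard).symm
  refine ⟨fun l => extForm (j * m) D0 x (fun i => cr (e l) i * ur (e l) i),
    hli.comp e e.injective, fun l => ?_⟩
  refine ⟨extForm_pluri _ D0 x _, ?_⟩
  intro v hv D hD
  have hreg := regular_of_good_rot (G := G) (E0 := E0) (E := fun i => F i)
      ρ hcomp (fun _ _ => False) N (by
        intro g hg ζ hζ a ha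
        refine hrot g hg ζ hζ a fun i => ?_
        rcases ha i with h | ⟨h1, h2, q, -, h3⟩
        · exact Or.inl h
        · exact Or.inr ⟨h1, h2, q, h3⟩) hD0 (hcr0 (e l)) (hgr (e l)) x hx v (by
        rintro ⟨i, p, a, -, h⟩
        exact h) D hD
  have hmul : (fun l => extForm (j * m) D0 x fun i => cr (e l) i * ur (e l) i) l D =
      extForm (j * m) D0 x (cr (e l)) D * ∏ i, algebraMap (E0 i) (fixedField G) (ur (e l) i) :=
    extForm_mul (j * m) D0 x (cr (e l)) (ur (e l)) D
  rw [hmul]
  rcases hreg with h | h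
  · left; rw [h, zero_mul]
  by_cases h0 : extForm (j * m) D0 x (cr (e l)) D = 0
  · left; rw [h0, zero_mul]
  right
  refine ⟨1, by simp, one_ne_zero, ?_⟩
  have hune : ∀ i, algebraMap (E0 i) (fixedField G) (ur (e l) i) ≠ 0 := fun i => by
    rw [Ne, _root_.map_eq_zero]; exact hur0 _ i
  rw [v.ord_mul h0 (Finset.prod_ne_zero_iff.2 fun i _ => hune i), ord_prod _ _ _ fun i _ => hune i]
  have h1 : ∀ i, -((m : ℚ) * δ v) ≤ n * v.ord (algebraMap (E0 i) (fixedField G) (u i)) := by
    intro i
    by_cases htriv : ∀ f : E0 i, v.ord (algebraMap (E0 i) (fixedField G) f) = 0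
    · rw [htriv]
      have := hδ0 v
      simp only [Int.cast_zero, mul_zero, Left.neg_nonpos_iff]
      positivity
    · push Not at htriv
      obtain ⟨α, p, hp⟩ := exists_over (K := E0 i) v htriv
      have h2 := hβ i v p α hp
      rw [hp.2]
      push_cast
      have h3 := mul_le_mul_of_nonneg_left (hβu i p) (by positivity : (0 : ℚ) ≤ n * α)
      have h4 := mul_le_mul_of_nonneg_left h2 (by positivity : (0 : ℚ) ≤ m)
      linarith
  have h2 : -((j * m : ℕ) * δ v : ℚ) ≤ ∑ i, (expo H (e l) i : ℚ) *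
      v.ord (algebraMap (E0 i) (fixedField G) (u i)) := by
    rcases Nat.eq_zero_or_pos n with hn0 | hn0
    · subst hn0
      have := hδ0 v
      simp only [Finset.univ_eq_empty, Finset.sum_empty, Left.neg_nonpos_iff]
      positivity
    · have hnq : (0 : ℚ) < n := by exact_mod_cast hn0
      have h3 : ∀ i ∈ (Finset.univ : Finset (Fin n)), -((j * m : ℕ) * δ v : ℚ) / n ≤
          (expo H (e l) i : ℚ) * v.ord (algebraMap (E0 i) (fixedField G) (u i)) := by
        intro i _
        rw [div_le_iff₀ hnq]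
        have h4 := mul_le_mul_of_nonneg_left (h1 i)
          (by positivity : (0 : ℚ) ≤ (expo H (e l) i : ℚ))
        have h5 : ((expo H (e l) i : ℕ) : ℚ) ≤ j := by exact_mod_cast expo_le H (e l) i
        have h6 : (0 : ℚ) ≤ m * δ v := by
          have := hδ0 v
          positivity
        have h7 := mul_le_mul_of_nonneg_right h5 h6
        push_cast
        linarith
      have h4 := Finset.sum_le_sum h3
      rw [Finset.sum_const, Finset.card_univ, Fintype.card_fin, nsmul_eq_mul,
        mul_div_cancel₀ _ hnq.ne'] at h4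
      exact h4
  have h3 : ∀ i, (v.ord (algebraMap (E0 i) (fixedField G) (ur (e l) i)) : ℚ) =
      (expo H (e l) i : ℚ) * v.ord (algebraMap (E0 i) (fixedField G) (u i)) := by
    intro i
    simp only [ur]
    rw [map_pow, v.ord_pow]
    push_cast
    ring
  push_cast
  rw [Finset.sum_congr rfl fun i _ => h3 i]
  have h4 : (0 : ℚ) ≤ v.ord (extForm (j * m) D0 x (cr (e l)) D) := by exact_mod_cast h
  push_cast at h2
  simp only [Nat.cast_zero, zero_mul, zero_sub]
  linarith

end

end Pool.Agent.W619.TW
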