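import Pool.Agent.W619.TW.PLower

/-! Kodaira dimension equals numerical dimension for pairs on quotients of products of curves. -/

set_option autoImplicit false
set_option linter.overlappingInstances false
set_option linter.unusedSectionVars false

universe u v

open Polynomial FF IntermediateField IsDedekindDomain

namespace Pool.Agent.W619.TW

open Pool.Agent.W603.LV Pool.Agent.W619.PQ Pool.Agent.W619.PL

section

variable {k L : Type*} [Field k] [CharZero k] [IsAlgClosed k] [Field L] [Algebra k L]

theorem canDeg_elliptic {F : IntermediateField k L} [IsFF k F] (h : IsElliptic F) :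
    canDeg k F = 0 := by
  obtain ⟨D, hD⟩ := h
  have hne : D ≠ 0 := by
    rintro rfl
    obtain ⟨w, -⟩ := exists_place (k := k) (K := F)
    obtain ⟨t, -, ht⟩ := w.surj
    exact (hD w t ht).1 rfl
  have h1 := canDeg_finset hne ∅ fun w hw => by
    exfalso
    apply hw
    obtain ⟨t, -, ht⟩ := w.surj
    rw [← vo_eq w ht hne]
    exact (hD w t ht).2
  rw [Finset.sum_empty] at h1
  omega

theorem canDeg_pos {F : IntermediateField k L} [IsFF k F] (h : ¬ ∃ t : F, k⟮t⟯ = ⊤)
    (he : ¬ IsElliptic F) : 0 < canDeg k F := by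
  have h1 := canDeg_nonneg h
  rcases h1.lt_or_eq with h2 | h2
  · exact h2
  exfalso
  apply he
  have hU : UB1 F (fun _ : Place k F => False) = ∅ := by
    ext q
    unfold UB1
    simp
  have hU' : (UB1 F (fun _ : Place k F => False)).Finite := by rw [hU]; exact Set.finite_empty
  have hlog : HasLog (E0 := F) F (fun _ => False) := hasLog_of_nonrational _ h
  obtain ⟨D, hD⟩ := der_of_flat (E0 := F) (E := F) hU' hlog (by
    rw [hU, Set.ncard_empty, ← h2]
    simp)
  refine ⟨D, fun w t ht => ⟨(hD w t ht).1, (hD w t ht).2.2 ?_⟩⟩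
  rw [hU]
  exact Set.notMem_empty _

theorem hasIndep_one {K : Type*} [Field K] [Algebra k K] {n : ℕ}
    {Q : ((Fin n → Derivation k K K) → K) → Prop} {ω : (Fin n → Derivation k K K) → K}
    (h : Q ω) {D : Fin n → Derivation k K K} (hD : ω D ≠ 0) : HasIndep k K n 1 Q := by
  refine ⟨fun _ => ω, ?_, fun _ => h⟩
  rw [linearIndependent_unique_iff]
  intro h0
  exact hD (congrFun h0 D)

end

variable {k : Type v} {L : Type u} [Field k] [Field L] [Algebra k L]

theorem pair_main [CharZero k] [IsAlgClosed k] (n : ℕ) (hn : Algebra.trdeg k L = n)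
    (F : Fin n → IntermediateField k L) (hF : ∀ i, IsFF k (F i)) (hsup : ⨆ i, F i = ⊤)
    (G : Subgroup (L ≃ₐ[k] L)) [Finite G] (hst : ∀ i, ∀ g ∈ G, ∀ z ∈ F i, g z ∈ F i)
    (δ : Place k (fixedField G) → ℚ) (hδ : ∀ v, 0 ≤ δ v) (P : Set (Fin n))
    (hδP : BoundedBy (⨆ i : P, F i) n δ) (N : Fin n → ℕ)
    (hP : ∀ i ∈ P, (¬ ∃ t : F i, k⟮t⟯ = ⊤) ∧ ((¬ IsElliptic (F i) ∧
        StrictAdmissible (inf_le_left : F i ⊓ fixedField G ≤ F i) ∅ (N i)) ∨
      (ContainsFibre (inf_le_right : F i ⊓ fixedField G ≤ fixedField G) δ ∧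
        Admissible (inf_le_left : F i ⊓ fixedField G ≤ F i) ∅ (N i))))
    (hQ : ∀ i ∉ P, (∃ t : F i, k⟮t⟯ = ⊤) ∨ (IsElliptic (F i) ∧
      Admissible (inf_le_left : F i ⊓ fixedField G ≤ F i) ∅ (N i)))
    (hrot : RotCond G F (fun _ => ∅) N) :
    ((∃ i, ∃ t : F i, k⟮t⟯ = ⊤) → ¬ PairPsef k (fixedField G) n δ) ∧
    ((∀ i, ¬ ∃ t : F i, k⟮t⟯ = ⊤) →
      PairKodGe k (fixedField G) n δ P.ncard ∧ PairNumLe k (fixedField G) n δ P.ncard) := by
  classical
  let E0 : Fin n → Type u := fun i => ↥(F i ⊓ fixedField G)
  let _ : ∀ i, Field (E0 i) := fun i => inferInstanceAs (Field ↥(F i ⊓ fixedField G))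
  let _ : ∀ i, Algebra k (E0 i) := fun i => inferInstanceAs (Algebra k ↥(F i ⊓ fixedField G))
  let _ : ∀ i, Algebra (E0 i) (F i) := fun i =>
    (inclusion (inf_le_left : F i ⊓ fixedField G ≤ F i)).toRingHom.toAlgebra
  let _ : ∀ i, Algebra (E0 i) (fixedField G) := fun i =>
    (inclusion (inf_le_right : F i ⊓ fixedField G ≤ fixedField G)).toRingHom.toAlgebra
  let _ : ∀ i, Algebra (E0 i) L := fun i => inferInstanceAs (Algebra ↥(F i ⊓ fixedField G) L)
  have t1 : ∀ i, IsScalarTower k (E0 i) (F i) := fun i =>
    IsScalarTower.of_algebraMap_eq fun c => rfl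
  have t2 : ∀ i, IsScalarTower k (E0 i) L := fun i =>
    IsScalarTower.of_algebraMap_eq fun c => rfl
  have t3 : ∀ i, IsScalarTower k (E0 i) (fixedField G) := fun i =>
    IsScalarTower.of_algebraMap_eq fun c => rfl
  have t4 : ∀ i, IsScalarTower (E0 i) (F i) L := fun i =>
    IsScalarTower.of_algebraMap_eq fun c => rfl
  have t5 : ∀ i, IsScalarTower (E0 i) (fixedField G) L := fun i =>
    IsScalarTower.of_algebraMap_eq fun c => rfl
  have f1 : ∀ i, FiniteDimensional (E0 i) (F i) := fun i => inf_finite G (F i) (hst i) fun z => rfl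
  have f2 : ∀ i, IsFF k (E0 i) := fun i => isFF_down (E := F i)
  have hfinL : FiniteDimensional (fixedField G) L := by
    have hGal : IsGaloisGroup G (fixedField G) L := isGaloisGroup_fixed G
    exact IsGaloisGroup.finiteDimensional G (fixedField G) L
  have hfinU : ∀ i, (UB1 (F i) (fun _ : Place k (E0 i) => False)) = ∅ := by
    intro i
    ext q
    unfold UB1
    simp
  obtain ⟨T, hT, hδT⟩ := hδP
  choose x hx using fun i => IsFF.exists_transcendental (k := k) (K := E0 i)
  have hub := card_le2 (K := fixedField G) (F := F) (E0 := E0) hsup hn x hx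
    (fun t ht => (hT t ht).1) hδT (fun i => i ∈ P) (fun t ht => (hT t ht).2)
  constructor
  · rintro ⟨i, hi⟩ ⟨S, hS⟩
    obtain ⟨A, A', hA', hA⟩ := hub S
    have hiP : i ∉ P := fun h => (hP i h).1 hi
    obtain ⟨j, hj, ω, hω, D, hD⟩ := hS ((A i).toNat + 1)
    obtain ⟨ω', h1, h2⟩ := hasIndep_one hω hD
    have h3 := hA _ _ 1 ω' h1 h2
    rw [← Finset.mul_prod_erase _ _ (Finset.mem_univ i)] at h3
    have h4 : (((j * ((A i).toNat + 1) : ℕ) : ℤ) * canDeg k (F i) +
        ((j * ((A i).toNat + 1) : ℕ) : ℤ) * A' i + j * A i + 1).toNat = 0 := by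
      rw [Int.toNat_eq_zero, hA' i hiP]
      obtain ⟨t, ht⟩ := hi
      rw [canDeg_rational ht]
      push_cast
      have h5 : (A i) ≤ max (A i) 0 := le_max_left _ _
      have h6 : (0 : ℤ) ≤ max (A i) 0 := le_max_right _ _
      have h7 : (1 : ℤ) ≤ j := by exact_mod_cast hj
      rw [← Int.toNat_eq_max] at h5 h6
      nlinarith
    rw [h4, zero_mul] at h3
    omega
  intro hirr
  constructor
  · -- the lower bound
    have hcardP : P.ncard = P.toFinset.card := Set.ncard_eq_toFinset_card' P
    rw [hcardP]
    -- the fibres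
    have hfib : ∀ i, ∃ (p : Place k (E0 i)) (ε : ℚ), 0 ≤ ε ∧
        (∀ (v : Place k (fixedField G)) (α : ℕ), Over v p α → ε * α ≤ δ v) ∧
        (ContainsFibre (inf_le_right : F i ⊓ fixedField G ≤ fixedField G) δ → 0 < ε) := by
      intro i
      by_cases h : ContainsFibre (inf_le_right : F i ⊓ fixedField G ≤ fixedField G) δ
      · obtain ⟨p, ε, hε, h⟩ := h
        exact ⟨p, ε, hε.le, fun v α h' => h v α h', fun _ => hε⟩
      · obtain ⟨p, -⟩ := exists_place (k := k) (K := E0 i)
        exact ⟨p, 0, le_rfl, fun v α _ => by rw [zero_mul]; exact hδ v, fun h' => absurd h' h⟩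
    choose p ε hε0 hε hεpos using hfib
    refine pair_lower n hn F hsup G (E0 := E0) (fun i => rho G (F i) (hst i))
      (fun i g z => rfl) N ?_ P.toFinset δ hδ (fun i q => if q = p i then ε i / n else 0) ?_ ?_
    · intro g hg ζ hζ a ha
      refine hrot (g : L ≃ₐ[k] L) g.2 (fun h => hg (Subtype.ext h)) ζ hζ a fun i => ?_
      rcases ha i with ⟨h1, h2⟩ | ⟨h1, h2, q, h4⟩
      · left
        refine ⟨h1, fun z hz => ?_⟩
        exact congrArg (fun φ : F i ≃ₐ[k] F i => ((φ ⟨z, hz⟩ : F i) : L)) h2
      · right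
        refine ⟨h1, h2, q, fun p hp => absurd hp (Set.notMem_empty p), fun z z' hz' hz => ?_⟩
        have h5 : z' = rho G (F i) (hst i) g z := Subtype.ext hz'.symm
        rw [h5, Algebra.smul_def]
        exact (h4 z hz).imp (fun h => sub_eq_zero.1 h) id
    · intro i v q α hvq
      have hn0 : (n : ℚ) ≠ 0 := by
        have := i.pos
        positivity
      split_ifs with hq
      · subst hq
        have h1 := hε i v α hvq
        have h2 : (n : ℚ) * (α * (ε i / n)) = ε i * α := by field_simp
        rw [h2]; exact h1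
      · rw [mul_zero, mul_zero]; exact hδ v
    · intro i
      have hβ0 : ∀ (m : ℕ) (q : Place k (E0 i)),
          -((m : ℚ) * (if q = p i then ε i / n else 0)) ≤ (q.ord (1 : E0 i) : ℚ) := by
        intro m q
        rw [q.ord_one]
        have := hε0 i
        split_ifs
        · have : (0 : ℚ) ≤ m * (ε i / n) := by positivity
          push_cast
          linarith
        · simp
      have hone : Admissible (inf_le_left : F i ⊓ fixedField G ≤ F i) ∅ (N i) →
          ∃ (m : ℕ) (D0 : Derivation k (E0 i) (E0 i)) (c : E0 i), 1 ≤ m ∧ D0 ≠ 0 ∧ c ≠ 0 ∧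
            Good (F i) (fun _ => False) (N i) m D0 c := by
        intro hadm
        refine exists_good (rho G (F i) (hst i)) (fun g z => ?_) (fun z hz => ?_) (fun _ => False)
          (hasLog_of_nonrational _ (hirr i)) (fun _ => hirr i) (N i) ?_
        · apply Subtype.ext
          exact z.2.2 g
        · refine ⟨⟨(z : L), z.2, fun g => ?_⟩, rfl⟩
          exact congrArg (Subtype.val : F i → L) (hz g)
        · obtain ⟨h1, h | h | h | h | ⟨S, ν, h2, h3⟩⟩ := hadm
          · exact Or.inl h
          · exact absurd h.2 Set.not_nonempty_empty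
          · exact absurd h Set.not_nontrivial_empty
          · exact Or.inr (Or.inr (Or.inr (Or.inl ⟨h1, h⟩)))
          · refine Or.inr (Or.inr (Or.inr (Or.inr ⟨S, ν, h1,
              fun q hq _ => h2 q hq (Set.notMem_empty q), ?_⟩)))
            simpa using h3
      by_cases hiP : i ∈ P
      · rcases (hP i hiP).2 with ⟨hell, hstr⟩ | ⟨hcf, hadm⟩
        · obtain ⟨m, D0, c, c', h1, h2, h3, h4, h5, h6, h7⟩ :=
            exists_two_good (rho G (F i) (hst i)) (fun g z => by
              apply Subtype.ext
              exact z.2.2 g) (fun z hz => by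
              refine ⟨⟨(z : L), z.2, fun g => ?_⟩, rfl⟩
              exact congrArg (Subtype.val : F i → L) (hz g)) (E0 := E0 i) (fun _ => False)
              (by rw [hfinU]; exact Set.finite_empty)
              (by
                rw [hfinU, Set.ncard_empty]
                have := canDeg_pos (hirr i) hell
                simpa using this) (N i) (by
                rcases hstr with ⟨h1, h | ⟨h, h'⟩ | ⟨h, h' | h'⟩ |
                  ⟨D, o, S, ν, h2, h3, h4, h5, h6⟩⟩
                · exact Or.inl h
                · exact absurd h' Set.not_nonempty_empty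
                · exact absurd h' Set.not_nontrivial_empty
                · exact Or.inr (Or.inr (Or.inl ⟨h, Or.inr h'⟩))
                · refine Or.inr (Or.inr (Or.inr ⟨S, ν, h1,
                    fun q hq _ => h5 q hq (Set.notMem_empty q), ?_⟩))
                  have h7 := strict_sum (E0 := E0 i) ∅ D h2 o h3 S h4 ν h6
                  simpa using h7)
          exact ⟨m, D0, c, c', 1, h1, h2, h3, h4, one_ne_zero, h5, h6, hβ0 m, fun _ => by
            rwa [mul_one]⟩
        · obtain ⟨m, D0, c, h1, h2, h3, h4⟩ := hone hadm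
          have hεi := hεpos i hcf
          obtain ⟨y, hy1, hy2⟩ := exists_unique_pole (p i)
          have hy0 : y ≠ 0 := by
            rintro rfl
            rw [(p i).ord_zero] at hy1
            omega
          have hyt : Transcendental k y := (p i).transcendental_of_ord_ne (by omega)
          have hnq : (0 : ℚ) < n := by
            have := i.pos
            positivity
          have hmq : (1 : ℚ) ≤ m := by exact_mod_cast h1
          obtain ⟨a, ha⟩ := exists_nat_ge (((-(p i).ord y : ℤ) : ℚ) * n / ε i)
          have ha2 : ((-(p i).ord y : ℤ) : ℚ) ≤ (a + 1 : ℕ) * (ε i / n) := by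
            rw [div_le_iff₀ hεi] at ha
            have h5 : ((-(p i).ord y : ℤ) : ℚ) ≤ a * ε i / n := by
              rw [le_div_iff₀ hnq]; exact ha
            have h6 : (0 : ℚ) ≤ ε i / n := by positivity
            push_cast at h5 ⊢
            have h7 : (a : ℚ) * ε i / n = a * (ε i / n) := by ring
            rw [h7] at h5
            linarith
          refine ⟨(a + 1) * m, D0, c ^ (a + 1), c ^ (a + 1), y, ?_, h2, pow_ne_zero _ h3,
            pow_ne_zero _ h3, hy0, h4.pow (a + 1), h4.pow (a + 1), fun q => ?_, fun _ => ?_⟩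
          · exact Nat.mul_pos (Nat.succ_pos a) h1
          · split_ifs with hq
            · subst hq
              have h5 : (0 : ℚ) ≤ (a + 1 : ℕ) * (ε i / n) := by positivity
              have h6 : ((a + 1 : ℕ) : ℚ) * (ε i / n) ≤ ((a + 1 : ℕ) * (ε i / n)) * m := by
                nlinarith
              push_cast at ha2 h6 ⊢
              linarith
            · have := hy2 q hq
              rw [mul_zero, neg_zero]
              exact_mod_cast this
          · rw [mul_div_cancel_left₀ _ (pow_ne_zero _ h3)]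
            exact hyt
      · have hell := (hQ i hiP).resolve_left (hirr i)
        obtain ⟨m, D0, c, h1, h2, h3, h4⟩ := hone hell.2
        exact ⟨m, D0, c, c, 1, h1, h2, h3, h3, one_ne_zero, h4, h4, hβ0 m, fun h =>
          absurd (Set.mem_toFinset.1 h) hiP⟩
  · -- the upper bound
    intro S
    obtain ⟨A, A', hA', hA⟩ := hub S
    refine ⟨∏ i, (canDeg k (F i) + |A' i| + |A i| + 1).toNat, fun m N' hm => ?_⟩
    rintro ⟨ω, hω, hsec⟩
    refine (hA m 1 N' ω hω hsec).trans ?_
    have h1 : ∀ i ∈ (Finset.univ : Finset (Fin n)),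
        (m * canDeg k (F i) + m * A' i + (1 : ℕ) * A i + 1).toNat ≤
        (canDeg k (F i) + |A' i| + |A i| + 1).toNat * (if i ∈ P then m else 1) := by
      intro i _
      have hcd := canDeg_nonneg (hirr i)
      by_cases hiP : i ∈ P
      · rw [if_pos hiP]
        rw [Int.toNat_le]
        have h2 : (0 : ℤ) ≤ canDeg k (F i) + |A' i| + |A i| + 1 := by positivity
        push_cast
        rw [Int.toNat_of_nonneg h2]
        have h3 : (1 : ℤ) ≤ m := by exact_mod_cast hm
        have h4 := le_abs_self (A' i)
        have h5 := le_abs_self (A i)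
        have h6 := abs_nonneg (A i)
        nlinarith
      · rw [if_neg hiP, mul_one, hA' i hiP, canDeg_elliptic ((hQ i hiP).resolve_left (hirr i)).1]
        apply Int.toNat_le_toNat
        have h5 := le_abs_self (A i)
        have h6 := abs_nonneg (A' i)
        push_cast
        simp only [mul_zero, zero_add, one_mul, abs_zero]
        linarith
    refine (Finset.prod_le_prod' h1).trans (le_of_eq ?_)
    rw [Finset.prod_mul_distrib, Finset.prod_ite, Finset.prod_const, Finset.prod_const_one,
      mul_one, Set.ncard_eq_toFinset_card']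
    congr 3
    ext i
    simp

end Pool.Agent.W619.TW
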