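import Pool.Agent.W619.TW.PDefs
import Pool.Agent.W619.TW.Upper

/-! The upper bound for the number of sections of `m (K_X + Δ) + j A`. -/

set_option autoImplicit false
set_option linter.overlappingInstances false
set_option linter.unusedSectionVars false

open Polynomial FF IntermediateField IsDedekindDomain

namespace Pool.Agent.W619.TW

open Pool.Agent.W603.LV Pool.Agent.W619.PQ Pool.Agent.W619.PL

section

variable {k L : Type*} [Field k] [Field L] [Algebra k L] {n : ℕ}
  (F : Fin n → IntermediateField k L)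

/-- The compositum of some of the factors. -/
def MP (P : Fin n → Prop) : IntermediateField k L := ⨆ i : {i : Fin n // P i}, F i.1

variable {F}

theorem MP_le_MM {P : Fin n → Prop} {i : Fin n} (hi : ¬ P i) : MP F P ≤ MM F i :=
  iSup_le fun j => le_MM F (fun h => hi (h ▸ j.2))

theorem frac_MP {P : Fin n → Prop} {z : L} (hz : z ∈ MP F P) :
    ∃ b ∈ RT F, b ∈ MP F P ∧ b ≠ 0 ∧ b * z ∈ RT F := by
  have hz : z ∈ IntermediateField.adjoin k (⋃ i : {i : Fin n // P i}, (F i.1 : Set L)) := by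
    have h1 : MP F P ≤ IntermediateField.adjoin k (⋃ i : {i : Fin n // P i}, (F i.1 : Set L)) :=
      iSup_le fun i y hy => subset_adjoin k _ (Set.mem_iUnion.2 ⟨i, hy⟩)
    exact h1 hz
  have h2 : Algebra.adjoin k (⋃ i : {i : Fin n // P i}, (F i.1 : Set L)) ≤ RT F :=
    Algebra.adjoin_mono (Set.iUnion_subset fun i => Set.subset_iUnion (fun i => (F i : Set L)) i.1)
  have h3 : Algebra.adjoin k (⋃ i : {i : Fin n // P i}, (F i.1 : Set L)) ≤
      (MP F P).toSubalgebra :=
    Algebra.adjoin_le (Set.iUnion_subset fun i y hy =>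
      le_iSup (fun i : {i : Fin n // P i} => F i.1) i hy)
  rw [IntermediateField.mem_adjoin_iff_div] at hz
  obtain ⟨a, ha, b, hb, rfl⟩ := hz
  by_cases hb0 : b = 0
  · exact ⟨1, one_mem _, one_mem _, one_ne_zero, by rw [hb0]; simp⟩
  · exact ⟨b, h2 hb, h3 hb, hb0, by rw [mul_div_cancel₀ _ hb0]; exact h2 ha⟩

theorem exists_den_MP {P : Fin n → Prop} {K : Type*} [Field K] [Algebra K L] (T : Finset K)
    (hT : ∀ t ∈ T, algebraMap K L t ∈ MP F P) :
    ∃ c ∈ RT F, c ∈ MP F P ∧ c ≠ 0 ∧ ∀ t ∈ T, c * algebraMap K L t ∈ RT F := by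
  classical
  induction T using Finset.induction_on with
  | empty => exact ⟨1, one_mem _, one_mem _, one_ne_zero, by simp⟩
  | insert a S _ ih =>
    obtain ⟨b, hb, hbM, hb0, hbS⟩ := ih fun t ht => hT t (Finset.mem_insert_of_mem ht)
    obtain ⟨c, hc, hcM, hc0, hca⟩ := frac_MP (hT a (Finset.mem_insert_self _ _))
    refine ⟨b * c, mul_mem hb hc, mul_mem hbM hcM, mul_ne_zero hb0 hc0, fun s hs => ?_⟩
    rcases Finset.mem_insert.1 hs with rfl | hs
    · rw [mul_assoc]; exact mul_mem hb hca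
    · rw [mul_comm b c, mul_assoc]; exact mul_mem hc (hbS s hs)

end

section

variable {k K L : Type*} [Field k] [CharZero k] [IsAlgClosed k] [Field K] [Field L] [Algebra k K]
  [Algebra k L] [Algebra K L] [IsScalarTower k K L] [FiniteDimensional K L] {n : ℕ}
  {F : Fin n → IntermediateField k L} [∀ i, IsFF k (F i)]
  {E0 : Fin n → Type*} [∀ i, Field (E0 i)] [∀ i, Algebra k (E0 i)] [∀ i, Algebra (E0 i) (F i)]
  [∀ i, Algebra (E0 i) K] [∀ i, Algebra (E0 i) L] [∀ i, IsScalarTower k (E0 i) (F i)]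
  [∀ i, IsScalarTower k (E0 i) L] [∀ i, IsScalarTower k (E0 i) K]
  [∀ i, IsScalarTower (E0 i) (F i) L] [∀ i, IsScalarTower (E0 i) K L] [∀ i, IsFF k (E0 i)]
  [∀ i, FiniteDimensional (E0 i) (F i)]

/-- The local bound for pairs. -/
theorem local_bound2 {x : ∀ i, E0 i} {dK : Fin n → Derivation k K K}
    {dL : Fin n → Derivation k L L} {dF : ∀ i, Derivation k (F i) (F i)}
    (hfr : Fr F x dK dL dF) (hsup : ⨆ i, F i = ⊤) (hn : Algebra.trdeg k L = n)
    {δ : Place k K → ℚ} {T : Finset K} (hT0 : ∀ t ∈ T, t ≠ 0)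
    (hδ : ∀ v, IsDivisorial v n → ∃ t ∈ T, δ v ≤ -v.ord t)
    {S : Finset K} {m j : ℕ} {ω : (Fin n → Derivation k K K) → K}
    (hω : IsPairSec k K n δ S m j ω)
    (i : Fin n) (w : Place (MM F i) L) (c : ℤ)
    (hc : ((∀ β : F i, w.ord (β : L) = 0) ∧ c = 0) ∨
      ∃ q : Place k (F i), (∀ β : F i, w.ord (β : L) = q.ord β) ∧
        ∃ (p : Place k (E0 i)) (r : ℕ), Over q p r ∧ c = vo q (dF i)) :
    algebraMap K L (ω dK) = 0 ∨ ∃ t ∈ T, ∃ s ∈ S, s ≠ 0 ∧
      m * c + m * w.ord (algebraMap K L t) + j * w.ord (algebraMap K L s) ≤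
        w.ord (algebraMap K L (ω dK)) := by
  classical
  have hsec : IsSec k K n (fun _ => False)
      ((T ×ˢ S.filter fun s => s ≠ 0).image fun p => p.1 ^ m * p.2 ^ j) m 1 ω := by
    refine ⟨hω.1, fun v hv _ D hD => ?_, fun v _ h => absurd h not_false⟩
    rcases hω.2 v hv D hD with h | ⟨s, hs, hs0, h⟩
    · exact Or.inl h
    obtain ⟨t, ht, ht'⟩ := hδ v hv
    have ht0 := hT0 t ht
    refine Or.inr ⟨t ^ m * s ^ j, Finset.mem_image.2 ⟨(t, s),
      Finset.mem_product.2 ⟨ht, Finset.mem_filter.2 ⟨hs, hs0⟩⟩, rfl⟩,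
      mul_ne_zero (pow_ne_zero _ ht0) (pow_ne_zero _ hs0), ?_⟩
    rw [v.ord_mul (pow_ne_zero _ ht0) (pow_ne_zero _ hs0), v.ord_pow, v.ord_pow]
    have h1 : (m : ℚ) * δ v ≤ m * (-v.ord t) := mul_le_mul_of_nonneg_left ht' (by positivity)
    have h2 : ((((1 : ℕ) : ℤ) * (m * v.ord t + j * v.ord s) : ℤ) : ℚ) ≤ (v.ord (ω D) : ℚ) := by
      push_cast
      linarith
    exact_mod_cast h2
  have h := local_bound hfr hsup hn (B := fun _ _ => False) (Bd := fun _ => False)
    (fun v => by simp) hsec i w c (by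
      rcases hc with h | ⟨q, hq, p, r, hr, hc⟩
      · exact Or.inl h
      · exact Or.inr ⟨q, hq, p, r, hr, Or.inl ⟨not_false, hc⟩⟩)
  rcases h with h | ⟨s', hs', hs0', h⟩
  · exact Or.inl h
  right
  obtain ⟨⟨t, s⟩, hts, rfl⟩ := Finset.mem_image.1 hs'
  obtain ⟨ht, hs⟩ := Finset.mem_product.1 hts
  have ht0 : t ≠ 0 := hT0 t ht
  obtain ⟨hs, hs0⟩ := Finset.mem_filter.1 hs
  change s ≠ 0 at hs0
  refine ⟨t, ht, s, hs, hs0, ?_⟩
  rw [map_mul, map_pow, map_pow, w.ord_mul (pow_ne_zero _ (by simpa using ht0))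
    (pow_ne_zero _ (by simpa using hs0)), w.ord_pow, w.ord_pow] at h
  push_cast at h
  linarith

/-- The coefficient of a section, multiplied by the denominators, is a combination of functions on
the `i`-th curve with poles bounded by `m C + m A' + j A`, and `A' = 0` if `i` is not in `P`. -/
theorem section_mem2 {x : ∀ i, E0 i} {dK : Fin n → Derivation k K K}
    {dL : Fin n → Derivation k L L} {dF : ∀ i, Derivation k (F i) (F i)}
    (hfr : Fr F x dK dL dF) (hsup : ⨆ i, F i = ⊤) (hn : Algebra.trdeg k L = n)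
    {δ : Place k K → ℚ} {T : Finset K} (hT0 : ∀ t ∈ T, t ≠ 0)
    (hδ : ∀ v, IsDivisorial v n → ∃ t ∈ T, δ v ≤ -v.ord t) (P : Fin n → Prop)
    (hTM : ∀ t ∈ T, algebraMap K L t ∈ MP F P)
    (i : Fin n) (C : Place k (F i) →₀ ℤ)
    (hC : ∀ (q : Place k (F i)) (p : Place k (E0 i)) (r : ℕ), Over q p r → C q = - vo q (dF i))
    (S : Finset K) {b c : L} (hb0 : b ≠ 0) (hbS : ∀ s ∈ S, b * algebraMap K L s ∈ RT F)
    (hc0 : c ≠ 0) (hcM : c ∈ MP F P) (hcT : ∀ t ∈ T, c * algebraMap K L t ∈ RT F) :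
    ∃ A A' : Place k (F i) →₀ ℤ, (¬ P i → A' = 0) ∧
      ∀ (m j : ℕ) (ω : (Fin n → Derivation k K K) → K), IsPairSec k K n δ S m j ω →
        c ^ m * b ^ j * algebraMap K L (ω dK) ∈
          sm (MM F i) * VL i (m • C + m • A' + j • A) := by
  classical
  have hA : ∀ s : K, ∃ A : Place k (F i) →₀ ℤ, 0 ≤ A ∧ (s ∈ S → ∀ (w : Place (MM F i) L)
      (q : Place k (F i)), (∀ β : F i, w.ord (β : L) = q.ord β) →
        Ge w (-A q) (b * algebraMap K L s)) := by
    intro s
    by_cases hs : s ∈ S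
    · obtain ⟨A, hA, h⟩ := (bound_RR (RT_le i (hbS s hs))).2
      exact ⟨A, hA, fun _ => h⟩
    · exact ⟨0, le_rfl, fun h => absurd h hs⟩
  choose A hA0 hA using hA
  have hA' : ∀ t : K, ∃ A : Place k (F i) →₀ ℤ, 0 ≤ A ∧ (¬ P i → A = 0) ∧
      (t ∈ T → ∀ (w : Place (MM F i) L)
      (q : Place k (F i)), (∀ β : F i, w.ord (β : L) = q.ord β) →
        Ge w (-A q) (c * algebraMap K L t)) := by
    intro t
    by_cases ht : t ∈ T
    · by_cases hP : P i
      · obtain ⟨A, hA, h⟩ := (bound_RR (RT_le i (hcT t ht))).2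
        exact ⟨A, hA, fun h => absurd hP h, fun _ => h⟩
      · refine ⟨0, le_rfl, fun _ => rfl, fun _ w q _ => ?_⟩
        have h1 : c * algebraMap K L t ∈ MM F i := MP_le_MM hP (mul_mem hcM (hTM t ht))
        right
        rw [ord_M w h1]
        simp
    · exact ⟨0, le_rfl, fun _ => rfl, fun h => absurd h ht⟩
  choose A' hA0' hAP hA' using hA'
  refine ⟨∑ s ∈ S, A s, ∑ t ∈ T, A' t, fun hP => Finset.sum_eq_zero fun t _ => hAP t hP,
    fun m j ω hω => ?_⟩
  set D : Place k (F i) →₀ ℤ := m • C + m • (∑ t ∈ T, A' t) + j • ∑ s ∈ S, A s with hD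
  -- the local bounds
  have hloc : ∀ (w : Place (MM F i) L) (c1 : ℤ) (N : ℤ),
      (((∀ β : F i, w.ord (β : L) = 0) ∧ c1 = 0) ∨
      ∃ q : Place k (F i), (∀ β : F i, w.ord (β : L) = q.ord β) ∧
        ∃ (p : Place k (E0 i)) (r : ℕ), Over q p r ∧ c1 = vo q (dF i)) →
      (∀ t ∈ T, ∀ s ∈ S, s ≠ 0 → N ≤ m * c1 + m * w.ord (c * algebraMap K L t) +
        j * w.ord (b * algebraMap K L s)) →
      Ge w N (c ^ m * b ^ j * algebraMap K L (ω dK)) := by
    intro w c1 N hc1 hN
    rcases local_bound2 hfr hsup hn hT0 hδ hω i w c1 hc1 with h | ⟨t, ht, s, hs, hs0, h⟩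
    · left; rw [h, mul_zero]
    · by_cases h0 : algebraMap K L (ω dK) = 0
      · left; rw [h0, mul_zero]
      right
      have h1 := hN t ht s hs hs0
      have hsL : algebraMap K L s ≠ 0 := by simpa using hs0
      have htL : algebraMap K L t ≠ 0 := by simpa using hT0 t ht
      rw [w.ord_mul hb0 hsL, w.ord_mul hc0 htL] at h1
      rw [w.ord_mul (mul_ne_zero (pow_ne_zero _ hc0) (pow_ne_zero _ hb0)) h0,
        w.ord_mul (pow_ne_zero _ hc0) (pow_ne_zero _ hb0), w.ord_pow, w.ord_pow]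
      linarith
  obtain ⟨s, β, hs, hβ⟩ := (cur_MM F hsup hn i).mem_span D
    (c ^ m * b ^ j * algebraMap K L (ω dK))
    (fun w hw => hloc w 0 0 (Or.inl ⟨hw, rfl⟩) (by
      intro t ht s hs hs0
      have h1 := (bound_RR (RT_le i (hbS s hs))).1 w hw
      have h2 := h1.resolve_left (mul_ne_zero hb0 (by simpa using hs0))
      have h3 := (bound_RR (RT_le i (hcT t ht))).1 w hw
      have h4 := h3.resolve_left (mul_ne_zero hc0 (by simpa using hT0 t ht))
      have h5 : (0 : ℤ) ≤ j * w.ord (b * algebraMap K L s) := mul_nonneg (by positivity) h2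
      have h6 : (0 : ℤ) ≤ m * w.ord (c * algebraMap K L t) := mul_nonneg (by positivity) h4
      linarith))
    (fun w q hw => by
      obtain ⟨p, r, hp⟩ := exists_place_below (E0 := E0) i q
      have hDq : D q = m * C q + m * ∑ t ∈ T, A' t q + j * ∑ s ∈ S, A s q := by
        rw [hD, Finsupp.add_apply, Finsupp.add_apply, Finsupp.smul_apply, Finsupp.smul_apply,
          Finsupp.smul_apply, Finsupp.finsetSum_apply, Finsupp.finsetSum_apply, nsmul_eq_mul,
          nsmul_eq_mul, nsmul_eq_mul]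
      refine hloc w (vo q (dF i)) _ (Or.inr ⟨q, hw, p, r, hp, rfl⟩) ?_
      intro t ht s hs hs0
      have h1 := hA s hs w q hw
      have h2 := h1.resolve_left (mul_ne_zero hb0 (by simpa using hs0))
      have h3 := Finset.single_le_sum (f := fun s => A s q) (fun s _ => hA0 s q) hs
      have h4 : -(∑ s ∈ S, A s q) ≤ w.ord (b * algebraMap K L s) := by linarith
      have h5 := mul_le_mul_of_nonneg_left h4 (by positivity : (0 : ℤ) ≤ j)
      have h1' := hA' t ht w q hw
      have h2' := h1'.resolve_left (mul_ne_zero hc0 (by simpa using hT0 t ht))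
      have h3' := Finset.single_le_sum (f := fun t => A' t q) (fun t _ => hA0' t q) ht
      have h4' : -(∑ t ∈ T, A' t q) ≤ w.ord (c * algebraMap K L t) := by linarith
      have h5' := mul_le_mul_of_nonneg_left h4' (by positivity : (0 : ℤ) ≤ m)
      rw [hDq, hC q p r hp]
      linarith)
  rw [hs]
  refine Submodule.sum_mem _ fun l hl => Submodule.mul_mem_mul ?_ ?_
  · exact mem_sm.2 (Subtype.property _)
  · exact ⟨β l, hβ l hl, rfl⟩

/-- The bound for the number of linearly independent sections. -/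
theorem card_le2 (hsup : ⨆ i, F i = ⊤) (hn : Algebra.trdeg k L = n)
    (x : ∀ i, E0 i) (hx : ∀ i, Transcendental k (x i))
    {δ : Place k K → ℚ} {T : Finset K} (hT0 : ∀ t ∈ T, t ≠ 0)
    (hδ : ∀ v, IsDivisorial v n → ∃ t ∈ T, δ v ≤ -v.ord t) (P : Fin n → Prop)
    (hTM : ∀ t ∈ T, algebraMap K L t ∈ MP F P) (S : Finset K) :
    ∃ A A' : Fin n → ℤ, (∀ i, ¬ P i → A' i = 0) ∧
      ∀ (m j N : ℕ) (ω : Fin N → (Fin n → Derivation k K K) → K),
      LinearIndependent k ω → (∀ l, IsPairSec k K n δ S m j (ω l)) →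
      N ≤ ∏ i, (m * canDeg k (F i) + m * A' i + j * A i + 1).toNat := by
  classical
  obtain ⟨dK, dL, dF, hfr⟩ := exists_fr (K := K) (F := F) hsup hn x hx
  obtain ⟨b, -, hb0, hbS⟩ := exists_den hsup S
  obtain ⟨c, -, hcM, hc0, hcT⟩ := exists_den_MP T hTM
  have hC0 : ∀ i, ∃ C : Place k (F i) →₀ ℤ, (∀ (q : Place k (F i)) (p : Place k (E0 i)) (r : ℕ),
      Over q p r → C q = - vo q (dF i)) ∧ ddeg C = canDeg k (F i) := by
    intro i
    have hfin : {q : Place k (F i) | ∃ (p : Place k (E0 i)) (r : ℕ), Over q p r ∧ False} = ∅ := by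
      ext q; simp
    obtain ⟨C, hC, hCd⟩ := exists_C (E0 := E0) (B := fun _ _ => False) i (hfr.ne i) (by
      rw [hfin]; exact Set.finite_empty)
    refine ⟨C, fun q p r h => (hC q p r h).1 not_false, ?_⟩
    rw [hCd, hfin, Set.ncard_empty]
    simp
  choose C hC hCdeg using hC0
  choose A A' hAP hA using fun i => section_mem2 hfr hsup hn hT0 hδ P hTM i (C i) (hC i) S hb0 hbS
    hc0 hcM hcT
  refine ⟨fun i => ddeg (A i), fun i => ddeg (A' i), fun i hi => by
    simp only [hAP i hi]; exact ddeg_zero, fun m j N ω hω hsec => ?_⟩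
  -- the spanning set
  choose t ht ht2 using fun i => VL_span i (m • C i + m • A' i + j • A i)
  obtain ⟨u, hu, hu2⟩ := exists_span_prod Finset.univ
    (fun i => VL i (m • C i + m • A' i + j • A i))
    (fun i => (ddeg (m • C i + m • A' i + j • A i) + 1).toNat) (fun i _ => ⟨t i, ht i, ht2 i⟩)
  have hmem : ∀ l, c ^ m * b ^ j * algebraMap K L (ω l dK) ∈
      Submodule.span k (u : Set L) := by
    intro l
    rw [← hu2]
    exact inter_all hsup hn _ (fun i => VL_le i _) _ fun i => hA i m j (ω l) (hsec l)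
  -- linear independence of the coefficients
  have hli : LinearIndependent k fun l => c ^ m * b ^ j * algebraMap K L (ω l dK) := by
    rw [linearIndependent_iff'] at hω ⊢
    intro s g hg l hl
    refine hω s g ?_ l hl
    have h1 : ∑ l ∈ s, g l • ω l dK = 0 := by
      have h2 : c ^ m * b ^ j * algebraMap K L (∑ l ∈ s, g l • ω l dK) = 0 := by
        rw [← hg, map_sum, Finset.mul_sum]
        refine Finset.sum_congr rfl fun l _ => ?_
        rw [Algebra.smul_def, Algebra.smul_def, map_mul, ← IsScalarTower.algebraMap_apply]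
        ring
      exact (map_eq_zero (algebraMap K L)).1
        ((mul_eq_zero.1 h2).resolve_left (mul_ne_zero (pow_ne_zero _ hc0) (pow_ne_zero _ hb0)))
    funext D
    rw [Finset.sum_apply]
    simp only [Pi.smul_apply, Pi.zero_apply]
    have h2 : ∀ l, ω l D = (Matrix.det (Matrix.of fun l j =>
        D l (algebraMap (E0 j) K (x j)))) ^ m * ω l dK := fun l => pluri_eval hfr (hsec l).1 D
    calc ∑ l ∈ s, g l • ω l D = (Matrix.det (Matrix.of fun l j =>
          D l (algebraMap (E0 j) K (x j)))) ^ m * ∑ l ∈ s, g l • ω l dK := by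
          rw [Finset.mul_sum]
          refine Finset.sum_congr rfl fun l _ => ?_
          rw [h2, mul_smul_comm]
      _ = 0 := by rw [h1, mul_zero]
  have h1 : N ≤ u.card := by
    let v : Fin N → Submodule.span k (u : Set L) := fun l => ⟨_, hmem l⟩
    have hv : LinearIndependent k v := LinearIndependent.of_comp (Submodule.subtype _) hli
    have h2 := hv.fintype_card_le_finrank
    rw [Fintype.card_fin] at h2
    exact h2.trans (finrank_span_finset_le_card u)
  refine h1.trans (hu.trans (le_of_eq ?_))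
  refine Finset.prod_congr rfl fun i _ => ?_
  rw [ddeg_add, ddeg_add, ddeg_nsmul, ddeg_nsmul, ddeg_nsmul, hCdeg]

end

end Pool.Agent.W619.TW
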