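import Pool.Agent.W619.TW.Loc
import Pool.Agent.Helper386.D5V.Helper386_FF_Riemann

/-! A curve over the function field of a variety: functions with poles bounded by a constant
divisor. -/

set_option autoImplicit false
set_option linter.overlappingInstances false
set_option linter.unusedSectionVars false

open Polynomial FF IntermediateField IsDedekindDomain

namespace Pool.Agent.W619.TW

open Pool.Agent.W603.LV Pool.Agent.W619.PQ

section

variable {k F : Type*} [Field k] [Field F] [Algebra k F] [CharZero k] [IsAlgClosed k] [IsFF k F]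

theorem exists_unique_pole (q : Place k F) :
    ∃ x : F, q.ord x < 0 ∧ ∀ q' : Place k F, q' ≠ q → 0 ≤ q'.ord x := by
  classical
  obtain ⟨γ, N, h1, -⟩ := riemann (k := k) (K := F)
  let n : ℕ := (ell (0 : Place k F →₀ ℤ) + γ + 1).toNat
  let D : Place k F →₀ ℤ := Finsupp.single q (n : ℤ)
  have h2 : ddeg D = n := by rw [ddeg_single, deg_one]; simp
  have h3 := h1 D
  have h4 : ell (0 : Place k F →₀ ℤ) < ell D := by
    rw [h2] at h3
    have : ell (0 : Place k F →₀ ℤ) + γ + 1 ≤ n := Int.self_le_toNat _
    omega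
  have h5 : ¬ LL D ≤ LL 0 := by
    intro hle
    have := Submodule.finrank_mono hle
    unfold ell at h4
    omega
  obtain ⟨x, hx1, hx2⟩ := SetLike.not_le_iff_exists.1 h5
  rw [mem_LL] at hx1 hx2
  push Not at hx2
  have hx0 := hx2.1
  obtain ⟨q', hq'⟩ := hx2.2
  have hx1 := hx1.resolve_left hx0
  have h6 : ∀ q' : Place k F, q' ≠ q → 0 ≤ q'.ord x := by
    intro q' hne
    have := hx1 q'
    rw [Finsupp.single_eq_of_ne hne] at this
    simpa using this
  refine ⟨x, ?_, h6⟩
  by_cases h7 : q' = q
  · subst h7; simpa using hq'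
  · have := h6 q' h7
    simp at hq'
    omega

theorem exists_poles_at (T : Finset (Place k F)) : ∃ x : F, ∀ q ∈ T, q.ord x < 0 := by
  classical
  have h1 : ∀ q : Place k F, ∃ z : F, z ≠ 0 ∧ q.ord z < 0 ∧ ∀ Q ∈ T.erase q, 0 < Q.ord z :=
    fun q => sep_many (T.erase q) q (by simp)
  choose z hz0 hz1 hz2 using h1
  refine ⟨∑ q ∈ T, z q, fun q hq => ?_⟩
  rw [← Finset.add_sum_erase T z hq]
  have h2 : Ge q 1 (∑ q' ∈ T.erase q, z q') := by
    refine Ge.sum _ _ fun q' hq' => Or.inr ?_
    have := hz2 q' q (Finset.mem_erase.2 ⟨(Finset.ne_of_mem_erase hq').symm, hq⟩)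
    omega
  by_cases h0 : ∑ q' ∈ T.erase q, z q' = 0
  · rw [h0, add_zero]; exact hz1 q
  · have h3 := h2.resolve_left h0
    have h4 := q.ord_add_eq (hz0 q) h0 (by have := hz1 q; omega)
    rw [h4.2]; exact hz1 q

end

section

variable {k L : Type*} [Field k] [Field L] [Algebra k L] [CharZero k] [IsAlgClosed k]
  {M F : IntermediateField k L}

/-- Every place of `F` is induced by a place of `L` over `M`. -/
theorem Cur.exists_ext (h : Cur M F) (q : Place k F) :
    ∃ w : Place M L, ∀ β : F, w.ord (β : L) = q.ord β := by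
  have hff := h.ff
  have hL := h.isFF
  have hchar : CharZero M := charZero_M
  obtain ⟨x, hx1, hx2⟩ := exists_unique_pole q
  have hx : Transcendental k x := q.transcendental_of_ord_ne (by omega)
  have hxM := h.tr x hx
  have hfin := IsFF.finite hxM
  obtain ⟨S, hS, hS2⟩ := poles (k := M) (K := L) hxM
  have hpos : 0 < Module.finrank M⟮(x : L)⟯ L := Module.finrank_pos
  obtain ⟨w, hw⟩ : S.Nonempty := by
    rw [Finset.nonempty_iff_ne_empty]
    rintro rfl
    rw [Finset.sum_empty] at hS2
    omega
  have hw2 := (hS w).1 hw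
  rcases h.trichotomy w with h1 | ⟨q', hq'⟩
  · rw [h1] at hw2; omega
  · refine ⟨w, ?_⟩
    rw [hq'] at hw2
    have : q' = q := by
      by_contra hne
      have := hx2 q' hne
      omega
    rw [this] at hq'
    exact hq'

/-- Elements with poles bounded by a constant divisor `D` are combinations of elements of
`L(D)` with coefficients in `M`. -/
theorem Cur.mem_span (h : Cur M F) [IsFF k F] (D : Place k F →₀ ℤ) (z : L)
    (hz1 : ∀ w : Place M L, (∀ β : F, w.ord (β : L) = 0) → Ge w 0 z)
    (hz2 : ∀ (w : Place M L) (q : Place k F), (∀ β : F, w.ord (β : L) = q.ord β) →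
      Ge w (-D q) z) :
    ∃ (s : Finset (Module.Basis.ofVectorSpaceIndex k M))
      (β : Module.Basis.ofVectorSpaceIndex k M → F),
      z = ∑ i ∈ s, ((Module.Basis.ofVectorSpace k M i : M) : L) * (β i : L) ∧
      ∀ i ∈ s, β i ∈ LL D := by
  classical
  have hL := h.isFF
  have hchar : CharZero M := charZero_M
  obtain ⟨q0, -⟩ := exists_place (k := k) (K := F)
  obtain ⟨x, hx⟩ := exists_poles_at (insert q0 D.support)
  have hxt : Transcendental k x := q0.transcendental_of_ord_ne (by
    have := hx q0 (Finset.mem_insert_self _ _)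
    omega)
  have hxM := h.tr x hxt
  have hint : IsIntegral (Algebra.adjoin M {(x : L)}) z := by
    refine integral_of_reg hxM fun w hw => ?_
    rcases h.trichotomy w with h1 | ⟨q, hq⟩
    · exact hz1 w h1
    · have h2 := hz2 w q hq
      have h3 : D q = 0 := by
        by_contra hne
        have h4 := hx q (Finset.mem_insert_of_mem (Finsupp.mem_support_iff.2 hne))
        rcases hw with hw | hw
        · have : x = 0 := Subtype.ext hw
          rw [this, q.ord_zero] at h4
          omega
        · rw [hq] at hw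
          omega
      rw [h3, neg_zero] at h2
      exact h2
  obtain ⟨s, β, hs⟩ := RR.expand (h.integral_mem hxt hint)
  refine ⟨s, β, hs, fun i hi => ?_⟩
  rw [mem_LL]
  by_cases h0 : β i = 0
  · exact Or.inl h0
  right
  intro q
  obtain ⟨w, hw⟩ := h.exists_ext q
  have hb := (Module.Basis.ofVectorSpace k M).linearIndependent
  have h2 := res' w q 1 one_pos (fun β => by rw [hw]; simp) s _ hb β (-D q) (by
    rw [← hs]; simpa using hz2 w q hw) i hi
  exact h2.resolve_left h0

end

end Pool.Agent.W619.TW
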