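import Pool.Agent.W619.TW.KNStm
import Pool.Agent.W619.TW.MDefs

/-! Tensor differentials on quotients of products of curves. -/

set_option autoImplicit false
set_option linter.overlappingInstances false
set_option linter.unusedSectionVars false

universe u v

open Polynomial FF IntermediateField

namespace Pool.Agent.W619.TW

open Pool.Agent.W603.LV Pool.Agent.W619.PQ Pool.Agent.W619.PL

section

variable {k K : Type*} [Field k] [Field K] [Algebra k K]

theorem ge_prod {m : ℕ} {v : Place k K} {a : ℤ} {f : Fin m → K} (h : ∀ l, Ge v a (f l)) :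
    Ge v (m * a) (∏ l, f l) := by
  by_cases h0 : ∃ l, f l = 0
  · obtain ⟨l, hl⟩ := h0
    left
    exact Finset.prod_eq_zero (Finset.mem_univ l) hl
  · push Not at h0
    right
    rw [ord_prod _ _ _ fun l _ => h0 l]
    have h1 := Finset.card_nsmul_le_sum Finset.univ (fun l => v.ord (f l)) a
      fun l _ => (h l).resolve_left (h0 l)
    rw [Finset.card_univ, Fintype.card_fin, nsmul_eq_mul] at h1
    exact h1

variable [CharZero k] [IsAlgClosed k] {n : ℕ} {E : Fin n → Type*} [∀ i, Field (E i)]
  [∀ i, Algebra k (E i)] [∀ i, Algebra (E i) K] [∀ i, IsScalarTower k (E i) K] [∀ i, IsFF k (E i)]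

/-- The tensor version of the exterior product of `m`-canonical forms. -/
noncomputable def tensForm (m : ℕ) (D0 : ∀ i, Derivation k (E i) (E i)) (x c : ∀ i, E i)
    (D : Fin m → Fin n → Derivation k K K) : K :=
  (∏ i, algebraMap (E i) K (c i / (D0 i (x i)) ^ m)) *
    ∏ l, Matrix.det (Matrix.of fun j i => D l j (algebraMap (E i) K (x i)))

theorem tensForm_eq (m : ℕ) (D0 : ∀ i, Derivation k (E i) (E i)) (hD0 : ∀ i, D0 i ≠ 0)
    (x c : ∀ i, E i) (hx : ∀ i, Transcendental k (x i)) (z : ∀ i, E i)
    (hz : ∀ i, Transcendental k (z i)) (D : Fin m → Fin n → Derivation k K K) :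
    tensForm m D0 x c D = (∏ i, algebraMap (E i) K (c i * (z i / D0 i (z i)) ^ m)) *
      ∏ l, Matrix.det (Matrix.of fun j i =>
        D l j (algebraMap (E i) K (z i)) / algebraMap (E i) K (z i)) := by
  classical
  have hr : ∀ i, ∃ r : E i, (∀ D : Derivation k (E i) (E i), D (x i) = r * D (z i)) ∧
      ∀ D : Derivation k K K, D (algebraMap (E i) K (x i)) =
        algebraMap (E i) K r * D (algebraMap (E i) K (z i)) := fun i => ratio' (hz i) (x i)
  choose r hr1 hr2 using hr
  have hz0 : ∀ i, z i ≠ 0 := fun i h => hz i (by rw [h]; exact isAlgebraic_zero)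
  have hDz : ∀ i, D0 i (z i) ≠ 0 := fun i => der_ne_zero (hD0 i) (hz i)
  have hDx : ∀ i, D0 i (x i) ≠ 0 := fun i => der_ne_zero (hD0 i) (hx i)
  have hr0 : ∀ i, r i ≠ 0 := by
    intro i h
    have := hr1 i (D0 i)
    rw [h, zero_mul] at this
    exact hDx i this
  have h1 : ∀ l, Matrix.det (Matrix.of fun j i => D l j (algebraMap (E i) K (x i))) =
      (∏ i, algebraMap (E i) K (r i * z i)) *
      Matrix.det (Matrix.of fun j i =>
        D l j (algebraMap (E i) K (z i)) / algebraMap (E i) K (z i)) := by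
    intro l
    rw [← Matrix.det_mul_row]
    congr 1
    ext j i
    simp only [Matrix.of_apply]
    rw [hr2 i (D l j), map_mul]
    have : algebraMap (E i) K (z i) ≠ 0 := by simpa using hz0 i
    field_simp
  unfold tensForm
  rw [Finset.prod_congr rfl fun l _ => h1 l, Finset.prod_mul_distrib, Finset.prod_const,
    Finset.card_univ, Fintype.card_fin, ← mul_assoc, ← Finset.prod_pow,
    ← Finset.prod_mul_distrib]
  congr 1
  refine Finset.prod_congr rfl fun i _ => ?_
  rw [← map_pow (algebraMap (E i) K), ← map_mul (algebraMap (E i) K)]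
  congr 1
  rw [hr1 i (D0 i), mul_pow, mul_pow, div_pow]
  have h5 := pow_ne_zero m (hr0 i)
  have h6 := pow_ne_zero m (hDz i)
  field_simp

/-- Regularity of the tensor form at a place. -/
theorem tensForm_regular (m : ℕ) (D0 : ∀ i, Derivation k (E i) (E i)) (hD0 : ∀ i, D0 i ≠ 0)
    (x c : ∀ i, E i) (hx : ∀ i, Transcendental k (x i)) (hc : ∀ i, c i ≠ 0) (v : Place k K)
    (s : Fin n → ℚ)
    (hs : ∀ i, ((∀ f : E i, v.ord (algebraMap (E i) K f) = 0) ∧ s i = 0) ∨
      ∃ (p : Place k (E i)) (e : ℕ), Over v p e ∧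
        s i * m ≤ e * ((p.ord (c i) : ℚ) + m * (1 - vo p (D0 i))))
    (hsum : (∀ i, ∀ f : E i, v.ord (algebraMap (E i) K f) = 0) ∨ 1 ≤ ∑ i, s i)
    (D : Fin m → Fin n → Derivation k K K) (hD : ∀ l j, Pres v (D l j)) :
    v.Reg (tensForm m D0 x c D) := by
  classical
  have hx0 : ∀ i, x i ≠ 0 := fun i h => hx i (by rw [h]; exact isAlgebraic_zero)
  -- choose coordinates
  have hz : ∀ i, ∃ z : E i, Transcendental k z ∧
      (((∀ f : E i, v.ord (algebraMap (E i) K f) = 0)) ∨
      s i * m ≤ (v.ord (algebraMap (E i) K (c i * (z / D0 i z) ^ m)) : ℚ)) := by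
    intro i
    rcases hs i with ⟨h1, h2⟩ | ⟨p, e, he, h⟩
    · exact ⟨x i, hx i, Or.inl h1⟩
    · obtain ⟨t, ht0, ht⟩ := p.surj
      have htt : Transcendental k t := p.transcendental_of_ord_ne (by omega)
      refine ⟨t, htt, Or.inr ?_⟩
      have hDt := der_ne_zero (hD0 i) htt
      rw [he.2, p.ord_mul (hc i) (pow_ne_zero _ (div_ne_zero ht0 hDt)), p.ord_pow,
        p.ord_div ht0 hDt, ht, vo_eq p ht (hD0 i)]
      push_cast
      exact h
  choose z hz1 hz2 using hz
  rw [tensForm_eq m D0 hD0 x c hx z hz1 D]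
  have hz0 : ∀ i, z i ≠ 0 := fun i h => hz1 i (by rw [h]; exact isAlgebraic_zero)
  have hzK : ∀ i, algebraMap (E i) K (z i) ≠ 0 := fun i => by simpa using hz0 i
  have hne : ∀ i, algebraMap (E i) K (c i * (z i / D0 i (z i)) ^ m) ≠ 0 := by
    intro i
    rw [Ne, map_eq_zero]
    exact mul_ne_zero (hc i) (pow_ne_zero _ (div_ne_zero (hz0 i) (der_ne_zero (hD0 i) (hz1 i))))
  by_cases hall : ∀ i, ∀ f : E i, v.ord (algebraMap (E i) K f) = 0
  · have h1 : Ge v 0 (∏ i, algebraMap (E i) K (c i * (z i / D0 i (z i)) ^ m)) := by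
      right
      rw [ord_prod _ _ _ fun i _ => hne i, Finset.sum_eq_zero fun i _ => hall i _]
    have h2 := ge_prod fun l => det_log_unit v (D l) (hD l) (fun i => algebraMap (E i) K (z i))
      fun i => hall i _
    have h3 := h1.mul h2
    simp only [mul_zero, add_zero] at h3
    exact h3
  · have hsum' := hsum.resolve_left hall
    have h1 : (m : ℤ) ≤ v.ord (∏ i, algebraMap (E i) K (c i * (z i / D0 i (z i)) ^ m)) := by
      rw [ord_prod _ _ _ fun i _ => hne i]
      have h2 : ∀ i, s i * m ≤ (v.ord (algebraMap (E i) K (c i * (z i / D0 i (z i)) ^ m)) : ℚ) := by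
        intro i
        rcases hz2 i with h | h
        · rw [h]
          rcases hs i with ⟨_, h2⟩ | ⟨p, e, he, _⟩
          · rw [h2]; simp
          · exfalso
            obtain ⟨t, ht0, ht⟩ := p.surj
            have h3 := he.2 t
            rw [h, ht] at h3
            have := he.1
            omega
        · exact h
      have h3 := Finset.sum_le_sum fun i (_ : i ∈ Finset.univ) => h2 i
      rw [← Finset.sum_mul] at h3
      have h4 : (m : ℚ) ≤ ((∑ i, v.ord (algebraMap (E i) K (c i * (z i / D0 i (z i)) ^ m)) : ℤ) : ℚ) := by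
        rw [Int.cast_sum]
        refine le_trans ?_ h3
        have : (0 : ℚ) ≤ m := by positivity
        nlinarith
      exact_mod_cast h4
    have h2 := ge_prod fun l => det_log v (D l) (hD l) (fun i => algebraMap (E i) K (z i)) hzK
    have h3 : Ge v (m : ℤ) (∏ i, algebraMap (E i) K (c i * (z i / D0 i (z i)) ^ m)) := Or.inr h1
    have h4 := h3.mul h2
    have e : (m : ℤ) + m * (-1) = 0 := by ring
    rw [e] at h4
    exact h4

theorem tens_update (m : ℕ) (D0 : ∀ i, Derivation k (E i) (E i)) (x c : ∀ i, E i)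
    [DecidableEq (Fin m × Fin n)] (D : Fin m × Fin n → Derivation k K K) (p : Fin m × Fin n)
    (X : Derivation k K K) :
    tensForm m D0 x c (fun l j => Function.update D p X (l, j)) =
      (∏ i, algebraMap (E i) K (c i / (D0 i (x i)) ^ m)) *
        (Matrix.det (Matrix.updateRow (Matrix.of fun j i => D (p.1, j) (algebraMap (E i) K (x i)))
          p.2 fun i => X (algebraMap (E i) K (x i))) *
        ∏ l ∈ Finset.univ.erase p.1,
          Matrix.det (Matrix.of fun j i => D (l, j) (algebraMap (E i) K (x i)))) := by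
  unfold tensForm
  rw [← Finset.mul_prod_erase Finset.univ _ (Finset.mem_univ p.1)]
  congr 2
  · congr 1
    ext j i
    rw [Matrix.updateRow_apply, Matrix.of_apply, Matrix.of_apply]
    change Function.update D p X (p.1, j) (algebraMap (E i) K (x i)) = _
    by_cases hj : j = p.2
    · subst hj
      rw [if_pos rfl, Prod.mk.eta, Function.update_self]
    · rw [if_neg hj, Function.update_of_ne]
      intro h
      exact hj (congrArg Prod.snd h)
  · refine Finset.prod_congr rfl fun l hl => ?_
    congr 1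
    ext j i
    rw [Matrix.of_apply, Matrix.of_apply]
    change Function.update D p X (l, j) (algebraMap (E i) K (x i)) = _
    rw [Function.update_of_ne]
    intro h
    exact Finset.ne_of_mem_erase hl (congrArg Prod.fst h)

/-- The tensor form as a multilinear map. -/
noncomputable def tensMap (m : ℕ) (D0 : ∀ i, Derivation k (E i) (E i)) (x c : ∀ i, E i) :
    MultilinearMap K (fun _ : Fin m × Fin n => Derivation k K K) K where
  toFun D := tensForm m D0 x c fun l j => D (l, j)
  map_update_add' := by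
    intro _ D p E1 E2
    simp only [tens_update]
    rw [← mul_add, ← add_mul]
    congr 2
    have h := Matrix.det_updateRow_add
      (Matrix.of fun j i => D (p.1, j) (algebraMap (E i) K (x i))) p.2
      (fun i => E1 (algebraMap (E i) K (x i))) (fun i => E2 (algebraMap (E i) K (x i)))
    rw [← h]
    rfl
  map_update_smul' := by
    intro _ D p f E1
    simp only [tens_update]
    have h := Matrix.det_updateRow_smul
      (Matrix.of fun j i => D (p.1, j) (algebraMap (E i) K (x i))) p.2 f
      (fun i => E1 (algebraMap (E i) K (x i)))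
    have h2 : (fun i => (f • E1) (algebraMap (E i) K (x i))) =
      f • fun i => E1 (algebraMap (E i) K (x i)) := rfl
    rw [h2, h, smul_eq_mul]
    ring

end

section

variable {k L : Type*} [Field k] [CharZero k] [IsAlgClosed k] [Field L] [Algebra k L]
  {G : Subgroup (L ≃ₐ[k] L)} [Finite G] {n : ℕ} {E0 E : Fin n → Type*}
  [∀ i, Field (E0 i)] [∀ i, Field (E i)] [∀ i, Algebra k (E0 i)] [∀ i, Algebra k (E i)]
  [∀ i, Algebra (E0 i) (E i)] [∀ i, Algebra (E i) L] [∀ i, Algebra (E0 i) (fixedField G)]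
  [∀ i, Algebra (E0 i) L]
  [∀ i, IsScalarTower k (E0 i) (E i)] [∀ i, IsScalarTower k (E i) L]
  [∀ i, IsScalarTower k (E0 i) L]
  [∀ i, IsScalarTower k (E0 i) (fixedField G)]
  [∀ i, IsScalarTower (E0 i) (E i) L] [∀ i, IsScalarTower (E0 i) (fixedField G) L]
  [∀ i, IsFF k (E0 i)] [∀ i, IsFF k (E i)] [∀ i, FiniteDimensional (E0 i) (E i)]

open scoped Classical in
/-- The tensor product of exterior products of good forms is regular. -/
theorem tens_regular_of_good (ρ : ∀ i, G →* (E i ≃ₐ[k] E i))
    (hcomp : ∀ i (g : G) z, algebraMap (E i) L (ρ i g z) = (g : L ≃ₐ[k] L) (algebraMap (E i) L z))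
    (N : Fin n → ℕ)
    (hrot : ∀ g : G, ∀ ζ : k, IsPrimitiveRoot ζ (orderOf (g : L ≃ₐ[k] L)) →
      ∀ a : Fin n → ℕ, (∃ i, a i ≠ 0) →
      (∀ i, (a i = 0 ∧ ρ i g = 1) ∨ (0 < a i ∧ a i < orderOf (g : L ≃ₐ[k] L) ∧
        ∃ q : Place k (E i), ∀ z : E i, q.ord z = 1 →
          Ge q 2 (ρ i g z - algebraMap k (E i) (ζ ^ a i) * z))) →
      (1 : ℚ) ≤ ∑ i, if a i = 0 then 0 else
        max ((a i : ℚ) / orderOf (g : L ≃ₐ[k] L)) (1 / (N i : ℚ)))
    {M : ℕ} {D0 : ∀ i, Derivation k (E0 i) (E0 i)} {c : ∀ i, E0 i} (hD0 : ∀ i, D0 i ≠ 0)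
    (hc : ∀ i, c i ≠ 0) (hgood : ∀ i, Good (E i) (fun _ => False) (N i) M (D0 i) (c i))
    (x : ∀ i, E0 i) (hx : ∀ i, Transcendental k (x i)) (v : Place k (fixedField G))
    (D : Fin M → Fin n → Derivation k (fixedField G) (fixedField G)) (hD : ∀ l j, Pres v (D l j)) :
    v.Reg (tensForm M D0 x c D) := by
  obtain ⟨w, e, I, hwv, hIe, hI⟩ := exists_inertia G v
  -- the local data at each factor
  have hex : ∀ i, ∃ s : ℚ, 0 ≤ s ∧
      (((∀ f : E0 i, v.ord (algebraMap (E0 i) (fixedField G) f) = 0) ∧ s = 0) ∨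
        ∃ (p : Place k (E0 i)) (α ν r b : ℕ) (q : Place k (E i)), Over v p α ∧ Over w q b ∧
          Over q p r ∧ e * α = b * r ∧ 1 ≤ ν ∧ ν ≤ N i ∧ ν ≤ r ∧ s = α / ν ∧
          (M : ℤ) ≤ ν * (p.ord (c i) + M * (1 - vo p (D0 i)))) := by
    intro i
    by_cases htriv : ∀ f : E0 i, v.ord (algebraMap (E0 i) (fixedField G) f) = 0
    · exact ⟨0, le_rfl, Or.inl ⟨htriv, rfl⟩⟩
    · push Not at htriv
      obtain ⟨α, p, hp⟩ := exists_over (K := E0 i) v htriv
      obtain ⟨q, b, r, h1, h2, h3⟩ := exists_factor_place (E := E i) hwv hp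
      obtain ⟨ν, h4, h5, h6, h7⟩ := (hgood i p).2 not_false
      exact ⟨α / ν, by positivity, Or.inr ⟨p, α, ν, r, b, q, hp, h1, h2, h3, h4, h5, h6 q r h2,
        rfl, h7⟩⟩
  choose s hs0 hs using hex
  refine tensForm_regular M D0 hD0 x c hx hc v s ?_ ?_ D hD
  · intro i
    rcases hs i with h | ⟨p, α, ν, r, b, q, h1, h2, h3, h4, h5, h6, h7, h8, h9⟩
    · exact Or.inl h
    · refine Or.inr ⟨p, α, h1, ?_⟩
      rw [h8]
      have hν : (0 : ℚ) < ν := by exact_mod_cast h5
      have h10 : (M : ℚ) ≤ ν * (p.ord (c i) + M * (1 - vo p (D0 i))) := by exact_mod_cast h9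
      rw [div_mul_eq_mul_div, div_le_iff₀ hν]
      have h11 : (0 : ℚ) ≤ α := by positivity
      calc (α : ℚ) * M ≤ α * (ν * (p.ord (c i) + M * (1 - vo p (D0 i)))) :=
            mul_le_mul_of_nonneg_left h10 h11
        _ = _ := by ring
  · by_cases hall : ∀ i, ∀ f : E0 i, v.ord (algebraMap (E0 i) (fixedField G) f) = 0
    · exact Or.inl hall
    right
    have hepos : 0 < e := hwv.1
    obtain ⟨g, hgI, hgord, ζ, hζ, hgen⟩ := exists_rot_generator w I hI
    rw [hIe] at hgord hζ
    have hfo : ∀ i, IsOfFinOrder (ρ i g) := fun i =>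
      (ρ i).isOfFinOrder (isOfFinOrder_of_finite g)
    -- the action on the uniformizers
    have hact : ∀ i, ∀ (q : Place k (E i)) (b : ℕ), Over w q b → ∀ z : E i, z ≠ 0 →
        Ge q (q.ord z + 1) (ρ i g z - algebraMap k (E i) (ζ ^ (b * q.ord z)) * z) := by
      intro i q b h2 z hz
      have hb : (0 : ℤ) < b := by exact_mod_cast h2.1
      have hzL : algebraMap (E i) L z ≠ 0 := by simpa using hz
      have h10 := hgen (algebraMap (E i) L z) hzL
      rw [← hcomp, h2.2, IsScalarTower.algebraMap_apply k (E i) L, ← map_mul, ← map_sub] at h10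
      rcases h10 with h10 | h10
      · left; exact (map_eq_zero _).1 h10
      · right
        rw [h2.2] at h10
        by_contra hcon
        push Not at hcon
        have h11 : (b : ℤ) * q.ord (ρ i g z - algebraMap k (E i) (ζ ^ (b * q.ord z)) * z) ≤
            b * q.ord z := mul_le_mul_of_nonneg_left (by omega) hb.le
        omega
    -- factors which are not moved
    have hfixed : ∀ i, ρ i g = 1 → (∃ f : E0 i, v.ord (algebraMap (E0 i) (fixedField G) f) ≠ 0) →
        1 ≤ s i := by
      rintro i hi ⟨f, hf⟩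
      rcases hs i with h | ⟨p, α, ν, r, b, q, h1, h2, h3, h4, h5, h6, h7, h8, h9⟩
      · exact absurd (h.1 f) hf
      obtain ⟨t, ht0, ht⟩ := q.surj
      have h10 := hact i q b h2 t ht0
      rw [hi, AlgEquiv.one_apply, ht, mul_one, zpow_natCast] at h10
      have h11 : ζ ^ b = 1 := by
        by_contra hne
        have h12 : t - algebraMap k (E i) (ζ ^ b) * t = algebraMap k (E i) (1 - ζ ^ b) * t := by
          rw [map_sub, map_one]; ring
        have h13 : (1 : k) - ζ ^ b ≠ 0 := sub_ne_zero.2 (Ne.symm hne)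
        rw [h12] at h10
        rcases h10 with h10 | h10
        · rcases mul_eq_zero.1 h10 with h14 | h14
          · exact h13 ((map_eq_zero _).1 h14)
          · exact ht0 h14
        · rw [q.ord_mul ((_root_.map_ne_zero _).2 h13) ht0, q.ord_const h13, ht] at h10
          omega
      have h12 : e ∣ b := hζ.dvd_of_pow_eq_one b h11
      obtain ⟨b', rfl⟩ := h12
      have hb' : 1 ≤ b' := by
        rcases Nat.eq_zero_or_pos b' with h | h
        · rw [h, mul_zero] at h2
          exact absurd h2.1 (lt_irrefl 0)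
        · exact h
      have h13 : α = b' * r := by
        apply Nat.eq_of_mul_eq_mul_left hepos
        rw [h4]; ring
      rw [h8]
      have hν : (0 : ℚ) < ν := by exact_mod_cast h5
      rw [le_div_iff₀ hν, one_mul]
      have h14 : ν ≤ α := by
        rw [h13]
        nlinarith
      exact_mod_cast h14
    by_cases hmv : ∃ i, ρ i g ≠ 1
    swap
    · push Not at hmv hall
      obtain ⟨i, f, hf⟩ := hall
      exact (hfixed i (hmv i) ⟨f, hf⟩).trans
        (Finset.single_le_sum (fun i _ => hs0 i) (Finset.mem_univ i))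
    have key : ∀ i, ∃ a : ℕ, ((a = 0 ∧ ρ i g = 1) ∨
        (0 < a ∧ a < orderOf (g : L ≃ₐ[k] L) ∧
          ∃ q : Place k (E i), ∀ z : E i, q.ord z = 1 →
            Ge q 2 (ρ i g z - algebraMap k (E i) (ζ ^ a) * z))) ∧
        (if a = 0 then 0 else max ((a : ℚ) / orderOf (g : L ≃ₐ[k] L)) (1 / (N i : ℚ))) ≤ s i := by
      intro i
      by_cases hmoved : ρ i g = 1
      · exact ⟨0, Or.inl ⟨rfl, hmoved⟩, by rw [if_pos rfl]; exact hs0 i⟩
      obtain ⟨f, hf⟩ := nontrivial_of_moved (E0 := E0 i) hwv (g : L ≃ₐ[k] L) (ρ i g)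
        (hcomp i g) (hI g hgI) hmoved
      rcases hs i with h | ⟨p, α, ν, r, b, q, h1, h2, h3, h4, h5, h6, h7, h8, h9⟩
      · exact absurd (h.1 f) hf
      refine ⟨b % e, ?_, ?_⟩
      · right
        rw [hgord]
        refine ⟨?_, Nat.mod_lt _ hepos, q, ?_⟩
        · rw [Nat.pos_iff_ne_zero]
          intro h0
          apply hmoved
          refine eq_one_of_unipotent q (ρ i g) (hfo i) fun z hz => ?_
          have h10 := hact i q b h2 z hz
          have h11 : ζ ^ ((b : ℤ) * q.ord z) = 1 := by
            obtain ⟨b', hb'⟩ := Nat.dvd_of_mod_eq_zero h0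
            rw [hb']
            push_cast
            rw [mul_assoc, zpow_mul, zpow_natCast, hζ.pow_eq_one, one_zpow]
          rw [h11, map_one, one_mul] at h10
          exact h10
        · intro z hz
          have hz0 : z ≠ 0 := by
            rintro rfl
            rw [q.ord_zero] at hz
            omega
          have h10 := hact i q b h2 z hz0
          rw [hz, mul_one, zpow_natCast] at h10
          have h11 : ζ ^ b = ζ ^ (b % e) := by
            conv_lhs => rw [← Nat.div_add_mod b e, pow_add, pow_mul, hζ.pow_eq_one, one_pow,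
              one_mul]
          rw [h11] at h10
          exact h10
      · rw [h8, hgord]
        have hν : (0 : ℚ) < ν := by exact_mod_cast h5
        have hα : 1 ≤ α := h1.1
        have heq : (0 : ℚ) < e := by exact_mod_cast hepos
        split_ifs with h0
        · positivity
        · refine max_le ?_ ?_
          · rw [div_le_div_iff₀ heq hν]
            have h10 : b % e * ν ≤ α * e := by
              calc b % e * ν ≤ b * r := Nat.mul_le_mul (Nat.mod_le _ _) h7
                _ = α * e := by rw [← h4]; ring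
            exact_mod_cast h10
          · have hN : (0 : ℚ) < N i := by exact_mod_cast lt_of_lt_of_le h5 h6
            rw [div_le_div_iff₀ hN hν, one_mul]
            have h10 : ν ≤ α * N i := by nlinarith
            exact_mod_cast h10
    choose a ha1 ha2 using key
    obtain ⟨i, hi⟩ := hmv
    have hai : ∃ i, a i ≠ 0 := by
      refine ⟨i, ?_⟩
      rcases ha1 i with ⟨-, h⟩ | ⟨h, -⟩
      · exact absurd h hi
      · omega
    exact (hrot g ζ (by rw [hgord]; exact hζ) a hai ha1).trans
      (Finset.sum_le_sum fun i _ => ha2 i)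

end

end Pool.Agent.W619.TW
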